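import Mathlib
import Pool.Agent.Lib.MP_44a246_ntS.SA4
import Pool.Agent.Lib.MP_44a246_ntS.SB2b

/-!
# Step A, A01: the main inequality for linear maps with bounded minors

Papers 545 and 549, (1.1'). The same proofs as `pl_local_red`, `pl_local` (file SA4) and `ht_map`
(file SB2b), with the bound for the entries of `T` replaced by a bound for the minors of order
`#σ` of the images of vectors of `B`.
-/

namespace Pool.Agent.Lib.MP_44a246_ntA

open Pool.Agent.Lib.MP_44a246_nt
open Pool.Agent.Lib.MP_44a246_ntL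
open Pool.Agent.Lib.MP_44a246_ntS
open WithZero Module

/-- the local inequality -/
theorem pl_local_minor {L : Type*} [Field L] (v : Valuation L ℤᵐ⁰) {ρ ρ' σ ι ι' : Type*}
    [Fintype ρ] [DecidableEq ρ] [Fintype ρ'] [DecidableEq ρ'] [Fintype σ] [DecidableEq σ]
    [Fintype ι] [Fintype ι'] (T : Matrix ι' ι L) {τ : ℤᵐ⁰} {B : Submodule L (ι → L)}
    (hT : ∀ b : σ → ι → L, (∀ i, b i ∈ B) → pl v (fun i => T.mulVec (b i)) ≤ τ * pl v b)
    {α : ρ → ι → L} {β : ρ' → ι' → L} (hα : LinearIndependent L α)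
    (hαB : ∀ i, α i ∈ B) (hTα : ∀ i, T.mulVec (α i) ∈ Submodule.span L (Set.range β))
    (b : σ → ι → L) (hb : ∀ i, b i ∈ B) :
    pl v (Sum.elim β (fun i => T.mulVec (b i))) * pl v α ≤
      τ * (pl v (Sum.elim α b) * pl v β) := by
  obtain ⟨g, e, hg, hgr⟩ := exists_red v hα
  have h1 : ∀ i, ∃ c : ρ' → L, ∑ l, c l • β l = T.mulVec (α i) := fun i =>
    (Submodule.mem_span_range_iff_exists_fun L).1 (hTα i)
  choose c hc using h1
  set α' : ρ → ι → L := fun i k => ∑ j, g i j * α j k with hα'
  have hα'e : ∀ i, α' i = ∑ j, g i j • α j := by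
    intro i; ext k; simp [hα', Finset.sum_apply]
  have hα'B : ∀ i, α' i ∈ B := by
    intro i
    rw [hα'e]
    exact Submodule.sum_mem _ (fun j _ => Submodule.smul_mem _ _ (hαB j))
  set b' : σ → ι → L := fun i k => b i k + ∑ j, (-(b i (e j))) * α' j k with hb'
  have hb'e : ∀ i, b' i = b i + ∑ j, (-(b i (e j))) • α' j := by
    intro i; ext k; simp [hb', Finset.sum_apply]
  have hb'B : ∀ i, b' i ∈ B := by
    intro i
    rw [hb'e]
    exact Submodule.add_mem _ (hb i)
      (Submodule.sum_mem _ (fun j _ => Submodule.smul_mem _ _ (hα'B j)))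
  have h2 : ∀ i l, b' i (e l) = 0 := by
    intro i l
    simp only [hb']
    rw [Finset.sum_eq_single l]
    · rw [hgr.piv l l, if_pos rfl]; ring
    · intro j _ hj
      rw [hgr.piv j l, if_neg hj, mul_zero]
    · intro h; exact absurd (Finset.mem_univ l) h
  have h3 : pl v (Sum.elim α' b) = pl v b' := by
    rw [← pl_sum_unip v (fun i j => -(b i (e j))) α' b]
    exact Red.pl_sum v hgr h2
  -- the image of `b'`
  have h4 : ∀ i k, T.mulVec (b' i) k = T.mulVec (b i) k +
      ∑ l, (∑ j, ∑ m, (-(b i (e j))) * (g j m * c m l)) * β l k := by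
    intro i k
    have h5 : T.mulVec (b' i) = T.mulVec (b i) + ∑ j, (-(b i (e j))) • ∑ m, g j m • ∑ l, c m l • β l := by
      rw [hb'e, Matrix.mulVec_add, Matrix.mulVec_sum]
      congr 1
      apply Finset.sum_congr rfl
      intro j _
      rw [Matrix.mulVec_smul, hα'e, Matrix.mulVec_sum]
      congr 1
      apply Finset.sum_congr rfl
      intro m _
      rw [Matrix.mulVec_smul, hc]
    rw [h5, Pi.add_apply]
    congr 1
    simp only [Finset.sum_apply, Pi.smul_apply, smul_eq_mul, Finset.mul_sum, Finset.sum_mul]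
    rw [Finset.sum_comm' (t' := Finset.univ) (s' := fun _ => Finset.univ) (by simp)]
    conv_rhs => rw [Finset.sum_comm]
    rw [Finset.sum_comm]
    apply Finset.sum_congr rfl
    intro j _
    rw [Finset.sum_comm]
    apply Finset.sum_congr rfl
    intro l _
    apply Finset.sum_congr rfl
    intro m _
    ring
  have h6 : pl v (Sum.elim β (fun i => T.mulVec (b' i))) =
      pl v (Sum.elim β (fun i => T.mulVec (b i))) := by
    have h7 : (fun i => T.mulVec (b' i)) = fun i k => T.mulVec (b i) k +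
        ∑ l, (∑ j, ∑ m, (-(b i (e j))) * (g j m * c m l)) * β l k := by
      ext i k
      exact h4 i k
    rw [h7]
    exact pl_sum_unip v _ β (fun i => T.mulVec (b i))
  have h9 : pl v (Sum.elim α' b) = v g.det * pl v (Sum.elim α b) := by
    have := pl_sum_mul v g (1 : Matrix σ σ L) α b
    rw [Matrix.det_one, map_one, mul_one] at this
    rw [← this]
    congr 3
    ext i k
    simp [Matrix.one_apply]
  have h10 : v g.det * pl v α = 1 := by
    rw [← pl_mul v g α]
    exact Red.pl_eq v hgr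
  calc pl v (Sum.elim β (fun i => T.mulVec (b i))) * pl v α
      = pl v (Sum.elim β (fun i => T.mulVec (b' i))) * pl v α := by rw [h6]
    _ ≤ (pl v β * pl v (fun i => T.mulVec (b' i))) * pl v α :=
        mul_le_mul_left (pl_sum_le v β _) _
    _ ≤ (pl v β * (τ * pl v b')) * pl v α :=
        mul_le_mul_left (mul_le_mul_right (hT b' hb'B) _) _
    _ = (pl v β * (τ * (v g.det * pl v (Sum.elim α b)))) * pl v α := by rw [← h3, h9]
    _ = τ * (pl v (Sum.elim α b) * pl v β) * (v g.det * pl v α) := by ac_rfl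
    _ = τ * (pl v (Sum.elim α b) * pl v β) := by rw [h10, mul_one]

/-- **The main global inequality**, with bounds for minors. -/
theorem ht_map_minor {κ L : Type*} [Field κ] [IsAlgClosed κ] [CharZero κ] [Field L] [Algebra κ L]
    {ι ι' : Type*} [Fintype ι] [Fintype ι'] (h : IsFF κ L) (T : Matrix ι' ι L)
    {τ : Place κ L → ℤ} (hτ : (Function.support τ).Finite)
    {A B : Submodule L (ι → L)} {A' : Submodule L (ι' → L)} (hAB : A ≤ B)
    (hA : A.map T.mulVecLin ≤ A') (hinj : ∀ b ∈ B, T.mulVec b ∈ A' → b ∈ A)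
    (hT : ∀ (w : Place κ L) (b : Fin (finrank L B - finrank L A) → ι → L), (∀ i, b i ∈ B) →
      pl w.1 (fun i => T.mulVec (b i)) ≤ exp (τ w) * pl w.1 b) :
    ht κ (A' ⊔ B.map T.mulVecLin) + ht κ A ≤ ht κ B + ht κ A' + ∑ᶠ w, τ w := by
  obtain ⟨α, b, hα, hαs, hαb, hαbs⟩ := exists_compl hAB
  obtain ⟨β, hβ, hβs⟩ := SB2b_basis A'
  let γ : Fin (finrank L A') ⊕ Fin (finrank L B - finrank L A) → ι' → L :=
    Sum.elim β (fun i => T.mulVec (b i))
  have hfr := finrank_sup_map hAB T.mulVecLin hA (fun x hx hx' => hinj x hx hx')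
  have hle : finrank L A ≤ finrank L B := Submodule.finrank_mono hAB
  have hαB : ∀ i, α i ∈ B := fun i => by
    rw [← hαbs]; exact Submodule.subset_span ⟨Sum.inl i, rfl⟩
  have hbB : ∀ i, b i ∈ B := fun i => by
    rw [← hαbs]; exact Submodule.subset_span ⟨Sum.inr i, rfl⟩
  have hγs : Submodule.span L (Set.range γ) = A' ⊔ B.map T.mulVecLin := by
    have e1 : Set.range γ = Set.range β ∪ T.mulVecLin '' Set.range b := by
      rw [Set.Sum.elim_range, ← Set.range_comp]
      rfl
    rw [e1, Submodule.span_union, hβs, ← Submodule.map_span]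
    have e2 : B.map T.mulVecLin = A.map T.mulVecLin ⊔
        (Submodule.span L (Set.range b)).map T.mulVecLin := by
      have e3 : B = A ⊔ Submodule.span L (Set.range b) := by
        refine hαbs.symm.trans ?_
        rw [Set.Sum.elim_range, Submodule.span_union, hαs]
      refine (congrArg (Submodule.map T.mulVecLin) e3).trans ?_
      rw [Submodule.map_sup]
    rw [e2, ← sup_assoc, sup_eq_left.mpr hA]
  have hγ : LinearIndependent L γ := by
    rw [linearIndependent_iff_card_eq_finrank_span, Set.finrank, hγs, Fintype.card_sum,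
      Fintype.card_fin, Fintype.card_fin]
    omega
  have hTα : ∀ i, T.mulVec (α i) ∈ Submodule.span L (Set.range β) := by
    intro i
    rw [hβs]
    apply hA
    refine ⟨α i, ?_, rfl⟩
    rw [← hαs]
    exact Submodule.subset_span ⟨i, rfl⟩
  have t1 : ht κ (A' ⊔ B.map T.mulVecLin) = ∑ᶠ w : Place κ L, log (pl w.1 γ) := by
    rw [← hγs, ht_span h hγ]
  have t2 : ht κ A = ∑ᶠ w : Place κ L, log (pl w.1 α) := by
    rw [← ht_span h hα, hαs]
  have t3 : ht κ A' = ∑ᶠ w : Place κ L, log (pl w.1 β) := by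
    rw [← ht_span h hβ, hβs]
  have t4 : ht κ B = ∑ᶠ w : Place κ L, log (pl w.1 (Sum.elim α b)) := by
    rw [← ht_span h hαb, hαbs]
  rw [t1, t2, t3, t4]
  have key : ∀ w : Place κ L, log (pl w.1 γ) + log (pl w.1 α) ≤
      (log (pl w.1 (Sum.elim α b)) + log (pl w.1 β)) + τ w := by
    intro w
    have h1 := pl_local_minor w.1 T (hT w) hα hαB hTα b hbB
    have n1 := pl_ne_zero w.1 hγ
    have n2 := pl_ne_zero w.1 hα
    have n3 := pl_ne_zero w.1 hβ
    have n4 := pl_ne_zero w.1 hαb
    have n5 : (exp (τ w) : ℤᵐ⁰) ≠ 0 := exp_ne_zero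
    have h2 := log_le_log (mul_ne_zero n1 n2) (mul_ne_zero n5 (mul_ne_zero n4 n3)) |>.mpr h1
    rw [log_mul n1 n2, log_mul n5 (mul_ne_zero n4 n3), log_mul n4 n3, log_exp] at h2
    linarith
  have s1 := pl_support h hγ
  have s2 := pl_support h hα
  have s3 := pl_support h hβ
  have s4 := pl_support h hαb
  have s34 := (s4.union s3).subset (Function.support_add
    (fun w : Place κ L => log (pl w.1 (Sum.elim α b))) (fun w : Place κ L => log (pl w.1 β)))
  have h3 := finsum_mono ((s1.union s2).subset (Function.support_add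
    (fun w : Place κ L => log (pl w.1 γ)) (fun w : Place κ L => log (pl w.1 α))))
    ((s34.union hτ).subset (Function.support_add
    (fun w : Place κ L => log (pl w.1 (Sum.elim α b)) + log (pl w.1 β)) τ)) key
  rw [finsum_add_distrib s1 s2, finsum_add_distrib s34 hτ, finsum_add_distrib s4 s3] at h3
  exact h3

end Pool.Agent.Lib.MP_44a246_ntA
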