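import Mathlib
import Pool.Agent.Lib.MP_44a246_ntA.A01

/-!
# Step A (constant version), P01: the orthogonal space of a subspace

Paper 549, P4.
-/

namespace Pool.Agent.Lib.MP_44a246_ntA

open Pool.Agent.Lib.MP_44a246_nt
open Pool.Agent.Lib.MP_44a246_ntL
open Pool.Agent.Lib.MP_44a246_ntS
open WithZero Module

section

variable {L : Type*} [Field L] {ι : Type*} [Fintype ι]

/-- the orthogonal space of a subspace -/
def orth (Y : Submodule L (ι → L)) : Submodule L (ι → L) where
  carrier := {m | ∀ y ∈ Y, ∑ i, m i * y i = 0}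
  add_mem' := fun {a b} ha hb y hy => by
    simp only [Pi.add_apply, add_mul, Finset.sum_add_distrib]
    rw [ha y hy, hb y hy, add_zero]
  zero_mem' := fun y _ => by simp
  smul_mem' := fun c {a} ha y hy => by
    simp only [Pi.smul_apply, smul_eq_mul, mul_assoc, ← Finset.mul_sum]
    rw [ha y hy, mul_zero]

theorem mem_orth {Y : Submodule L (ι → L)} {m : ι → L} :
    m ∈ orth Y ↔ ∀ y ∈ Y, ∑ i, m i * y i = 0 := Iff.rfl

theorem mem_orth_single {x m : ι → L} :
    m ∈ orth (Submodule.span L {x}) ↔ ∑ i, m i * x i = 0 := by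
  rw [mem_orth]
  constructor
  · intro h
    exact h x (Submodule.mem_span_singleton_self x)
  · intro h y hy
    obtain ⟨c, rfl⟩ := Submodule.mem_span_singleton.1 hy
    have h1 : ∑ i, m i * (c • x) i = c * ∑ i, m i * x i := by
      rw [Finset.mul_sum]
      refine Finset.sum_congr rfl fun i _ => ?_
      rw [Pi.smul_apply, smul_eq_mul]
      ring
    rw [h1, h, mul_zero]

theorem orth_anti {X Y : Submodule L (ι → L)} (h : X ≤ Y) : orth Y ≤ orth X :=
  fun _ hm y hy => hm y (h hy)

/-- Proof. Rank-nullity, or `LinearMap.BilinForm.finrank_orthogonal` for the form of the dot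
product, or `Submodule.dualAnnihilator`. -/
theorem finrank_orth (Y : Submodule L (ι → L)) :
    finrank L Y + finrank L (orth Y) = Fintype.card ι := by
  classical
  have h : orth Y = Y.dualAnnihilator.map ((dotProductEquiv L ι).symm : Dual L (ι → L) →ₗ[L] (ι → L)) := by
    ext m
    rw [Submodule.mem_map, mem_orth]
    constructor
    · intro hm
      refine ⟨dotProductEquiv L ι m, ?_, ?_⟩
      · rw [Submodule.mem_dualAnnihilator]
        intro y hy
        exact hm y hy
      · exact (dotProductEquiv L ι).symm_apply_apply m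
    · rintro ⟨φ, hφ, rfl⟩ y hy
      rw [Submodule.mem_dualAnnihilator] at hφ
      have h1 : dotProductEquiv L ι ((dotProductEquiv L ι).symm φ) y = φ y := by
        rw [LinearEquiv.apply_symm_apply]
      exact h1.trans (hφ y hy)
  rw [h, LinearEquiv.finrank_map_eq, Subspace.finrank_add_finrank_dualAnnihilator_eq,
    Module.finrank_fintype_fun_eq_card]

/-- Proof. `Y ≤ orth (orth Y)` and equal ranks by `finrank_orth`. -/
theorem orth_orth (Y : Submodule L (ι → L)) : orth (orth Y) = Y := by
  symm
  refine Submodule.eq_of_le_of_finrank_eq ?_ ?_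
  · intro y hy m hm
    rw [← hm y hy]
    refine Finset.sum_congr rfl fun i _ => mul_comm _ _
  · have h1 := finrank_orth Y
    have h2 := finrank_orth (orth Y)
    omega

end

end Pool.Agent.Lib.MP_44a246_ntA
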