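import Mathlib
import Pool.Agent.Lib.MP_44a246_ntA.P01

/-!
# Step A (constant version), P01b: the height of the orthogonal space

Paper 549, P4.
-/

namespace Pool.Agent.Lib.MP_44a246_ntA

open Pool.Agent.Lib.MP_44a246_nt
open Pool.Agent.Lib.MP_44a246_ntL
open Pool.Agent.Lib.MP_44a246_ntS
open WithZero Module

section

variable {L : Type*} [Field L] {ι : Type*} [Fintype ι]

/-- Proof. By `exists_red` for `a` (matrix `g`, pivots `e`): `y' = y - ∑ y (e j) • α' j`, where
`α' = g a`, satisfies `vmax v y' = pl v (α', y') = pl v (α', y) = v g.det * pl v (a, y)`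
(`Red.pl_sum`, `pl_unique`, `pl_sum_unip`, `pl_sum_mul`) and `v g.det * pl v a = 1`. -/
theorem exists_best (v : Valuation L ℤᵐ⁰) {ρ : Type*} [Fintype ρ] [DecidableEq ρ]
    {a : ρ → ι → L} (ha : LinearIndependent L a) (y : ι → L) :
    ∃ y' : ι → L, y' - y ∈ Submodule.span L (Set.range a) ∧
      vmax v y' * pl v a = pl v (Sum.elim a (fun _ : Unit => y)) := by
  obtain ⟨g, e, -, hgr⟩ := exists_red v ha
  set α' : ρ → ι → L := fun i k => ∑ j, g i j * a j k with hα'
  have hα'e : ∀ i, α' i = ∑ j, g i j • a j := by
    intro i; ext k; simp [hα', Finset.sum_apply]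
  set y' : ι → L := fun k => y k + ∑ j, (-(y (e j))) * α' j k with hy'
  have hy'e : y' = y + ∑ j, (-(y (e j))) • α' j := by
    ext k; simp [hy', Finset.sum_apply]
  have h2 : ∀ l, y' (e l) = 0 := by
    intro l
    simp only [hy']
    rw [Finset.sum_eq_single l]
    · rw [hgr.piv l l, if_pos rfl]; ring
    · intro j _ hj
      rw [hgr.piv j l, if_neg hj, mul_zero]
    · intro h; exact absurd (Finset.mem_univ l) h
  have h3 : pl v (Sum.elim α' (fun _ : Unit => y)) = vmax v y' := by
    rw [← pl_sum_unip v (fun (_ : Unit) j => -(y (e j))) α' (fun _ : Unit => y)]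
    have h4 := Red.pl_sum v hgr (a := fun _ : Unit => y') (fun _ j => h2 j)
    exact h4.trans (pl_unique v (fun _ : Unit => y'))
  have h9 : pl v (Sum.elim α' (fun _ : Unit => y)) =
      v g.det * pl v (Sum.elim a (fun _ : Unit => y)) := by
    have := pl_sum_mul v g (1 : Matrix Unit Unit L) a (fun _ : Unit => y)
    rw [Matrix.det_one, map_one, mul_one] at this
    rw [← this]
    congr 3
    ext i k
    simp
  have h10 : v g.det * pl v a = 1 := by
    rw [← pl_mul v g a]
    exact Red.pl_eq v hgr
  refine ⟨y', ?_, ?_⟩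
  · rw [hy'e, add_sub_cancel_left]
    refine Submodule.sum_mem _ fun j _ => Submodule.smul_mem _ _ ?_
    rw [hα'e]
    exact Submodule.sum_mem _ fun l _ => Submodule.smul_mem _ _
      (Submodule.subset_span (Set.mem_range_self l))
  · rw [← h3, h9]
    calc v g.det * pl v (Sum.elim a fun _ : Unit => y) * pl v a
        = (v g.det * pl v a) * pl v (Sum.elim a fun _ : Unit => y) := by ac_rfl
      _ = pl v (Sum.elim a fun _ : Unit => y) := by rw [h10, one_mul]

end

section

variable {κ L : Type*} [Field κ] [IsAlgClosed κ] [CharZero κ] [Field L] [Algebra κ L]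
  {ι : Type*} [Fintype ι]

/-- **The height of the orthogonal space.**

Proof. Induction on `finrank L Y`. `Y = ⊥`: `orth ⊥ = ⊤`, `ht_top`. Otherwise `Y = Y' ⊔ span {y}`,
`y ∉ Y'`; let `a` be a basis of `Y'` (`SB2b_basis`). `ht_map_minor` for the matrix
`T : Matrix Unit ι L` with the row `y`, `A = orth Y ≤ B = orth Y'`, `A' = ⊥`
(`T m = 0` for `m ∈ orth Y'` iff `m ∈ orth Y`), `τ w = log (pl w.1 (a, y)) - log (pl w.1 a)`: as
`finrank B - finrank A = 1`, `pl w.1 (T b) = w.1 (∑ b i * y i) = w.1 (∑ b i * y' i)` for the `y'` of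
`exists_best` at `w`, which is at most `vmax w.1 b * vmax w.1 y'`. So
`ht (orth Y) ≤ ht (orth Y') + (ht Y - ht Y') ≤ ht Y` (`ht_span` for `a` and `(a, y)`, `ht_nonneg`
for the image). -/
theorem ht_orth_le (h : IsFF κ L) (Y : Submodule L (ι → L)) : ht κ (orth Y) ≤ ht κ Y := by
  classical
  suffices H : ∀ n : ℕ, ∀ Y : Submodule L (ι → L), finrank L Y = n → ht κ (orth Y) ≤ ht κ Y from
    H _ Y rfl
  intro n
  induction n with
  | zero =>
    intro Y hY
    have hY0 : Y = ⊥ := Submodule.finrank_eq_zero.1 hY
    have ho : orth (⊥ : Submodule L (ι → L)) = ⊤ := by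
      rw [eq_top_iff]
      intro m _ y hy
      rw [(Submodule.mem_bot L).1 hy]
      simp
    rw [hY0, ho, ht_top h, ht_bot h]
  | succ n ih =>
    intro Y hY
    obtain ⟨β, hβ, hβs⟩ := SB2b_basis Y
    let f : Fin n ⊕ Unit → Fin (finrank L Y) :=
      Sum.elim (fun i => Fin.cast hY.symm i.castSucc) (fun _ => Fin.cast hY.symm (Fin.last n))
    have hfi : Function.Injective f := by
      rintro (i | i) (j | j) hij
      · have h1 := congrArg Fin.val hij
        simp only [f, Sum.elim_inl, Fin.val_cast, Fin.val_castSucc] at h1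
        rw [Fin.ext h1]
      · have h1 := congrArg Fin.val hij
        simp only [f, Sum.elim_inl, Sum.elim_inr, Fin.val_cast, Fin.val_castSucc,
          Fin.val_last] at h1
        exact absurd h1 i.isLt.ne
      · have h1 := congrArg Fin.val hij
        simp only [f, Sum.elim_inl, Sum.elim_inr, Fin.val_cast, Fin.val_castSucc,
          Fin.val_last] at h1
        exact absurd h1.symm j.isLt.ne
      · rfl
    have hfs : Function.Surjective f :=
      ((Fintype.bijective_iff_injective_and_card f).2 ⟨hfi, by simp [hY]⟩).2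
    let a : Fin n → ι → L := fun i => β (f (Sum.inl i))
    let y : ι → L := β (f (Sum.inr ()))
    have hγe : Sum.elim a (fun _ : Unit => y) = β ∘ f := by
      funext i
      rcases i with i | i <;> rfl
    have hγ : LinearIndependent L (Sum.elim a (fun _ : Unit => y)) := by
      rw [hγe]
      exact hβ.comp f hfi
    have hγs : Submodule.span L (Set.range (Sum.elim a (fun _ : Unit => y))) = Y := by
      rw [hγe, hfs.range_comp, hβs]
    have ha : LinearIndependent L a := by
      have h1 := hγ.comp Sum.inl Sum.inl_injective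
      rwa [Sum.elim_comp_inl] at h1
    set Y' : Submodule L (ι → L) := Submodule.span L (Set.range a) with hY'
    have hYY' : Y' ≤ Y := by
      rw [← hγs, Set.Sum.elim_range, Submodule.span_union]
      exact le_sup_left
    have hfr' : finrank L Y' = n := by
      rw [hY', finrank_span_eq_card ha, Fintype.card_fin]
    have hbot : ∀ b : ι → L, b ∈ orth Y' → ∑ k, y k * b k = 0 → b ∈ orth Y := by
      intro b hb hb' z hz
      rw [← hγs] at hz
      refine Submodule.span_induction (p := fun z _ => ∑ i, b i * z i = 0) ?_ ?_ ?_ ?_ hz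
      · rintro z ⟨i, rfl⟩
        rcases i with i | i
        · exact hb _ (Submodule.subset_span (Set.mem_range_self i))
        · rw [← hb']
          exact Finset.sum_congr rfl fun k _ => mul_comm _ _
      · simp
      · intro z z' _ _ hz hz'
        simp only [Pi.add_apply, mul_add, Finset.sum_add_distrib]
        rw [hz, hz', add_zero]
      · intro c z _ hz
        have : ∑ i, b i * (c • z) i = c * ∑ i, b i * z i := by
          rw [Finset.mul_sum]
          refine Finset.sum_congr rfl fun i _ => ?_
          rw [Pi.smul_apply, smul_eq_mul]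
          ring
        rw [this, hz, mul_zero]
    let T : Matrix Unit ι L := fun _ k => y k
    let τ : Place κ L → ℤ := fun w =>
      log (pl w.1 (Sum.elim a (fun _ : Unit => y))) - log (pl w.1 a)
    have hs1 := pl_support h hγ
    have hs2 := pl_support h ha
    have hτ : (Function.support τ).Finite :=
      (hs1.union hs2).subset (Function.support_sub _ _)
    have hr1 := finrank_orth Y
    have hr2 := finrank_orth Y'
    have hsub : finrank L (orth Y') - finrank L (orth Y) = 1 := by omega
    have hloc : ∀ (w : Place κ L) (m : ℕ), m = 1 → ∀ b : Fin m → ι → L,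
        (∀ i, b i ∈ orth Y') →
        pl w.1 (fun i => T.mulVec (b i)) ≤ exp (τ w) * pl w.1 b := by
      rintro w m rfl b hb
      rw [pl_unique, pl_unique]
      refine vmax_le w.1 fun _ => ?_
      obtain ⟨y', hy1, hy2⟩ := exists_best w.1 ha y
      have n1 := pl_ne_zero w.1 ha
      have n2 := pl_ne_zero w.1 hγ
      have hexp : (exp (τ w) : ℤᵐ⁰) = vmax w.1 y' := by
        have h1 : (exp (τ w) : ℤᵐ⁰) * pl w.1 a = pl w.1 (Sum.elim a (fun _ : Unit => y)) := by
          have h2 : (exp (τ w) : ℤᵐ⁰) * exp (log (pl w.1 a)) =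
              exp (log (pl w.1 (Sum.elim a (fun _ : Unit => y)))) := by
            rw [← exp_add]
            congr 1
            simp [τ]
          rwa [exp_log n1, exp_log n2] at h2
        exact mul_right_cancel₀ n1 (h1.trans hy2.symm)
      have hval : T.mulVec (b default) () = ∑ k, b default k * y' k := by
        have h1 : ∑ k, b default k * (y' - y) k = 0 := hb default _ hy1
        have h2 : ∑ k, b default k * y' k = ∑ k, b default k * y k := by
          rw [← sub_eq_zero, ← Finset.sum_sub_distrib, ← h1]
          refine Finset.sum_congr rfl fun k _ => ?_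
          rw [Pi.sub_apply]
          ring
        rw [h2]
        change ∑ k, y k * b default k = _
        exact Finset.sum_congr rfl fun k _ => mul_comm _ _
      rw [hexp]
      change w.1 (T.mulVec (b default) ()) ≤ _
      rw [hval]
      refine Valuation.map_sum_le w.1 fun k _ => ?_
      rw [map_mul, mul_comm]
      exact mul_le_mul' (le_vmax w.1 y' k) (le_vmax w.1 (b default) k)
    have hmain := ht_map_minor h T hτ (A := orth Y) (B := orth Y') (A' := ⊥)
      (orth_anti hYY') ?_ ?_ (fun w b hb => hloc w _ hsub b hb)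
    · have hsum : ∑ᶠ w : Place κ L, τ w = ht κ Y - ht κ Y' := by
        have h1 : ht κ Y = ∑ᶠ w : Place κ L, log (pl w.1 (Sum.elim a (fun _ : Unit => y))) := by
          rw [← ht_span h hγ, hγs]
        have h2 : ht κ Y' = ∑ᶠ w : Place κ L, log (pl w.1 a) := by
          rw [← ht_span h ha]
        rw [h1, h2]
        exact finsum_sub_distrib hs1 hs2
      rw [hsum, ht_bot h] at hmain
      have h3 := ht_nonneg h (⊥ ⊔ (orth Y').map T.mulVecLin)
      have h4 := ih Y' hfr'
      linarith
    · rintro z ⟨m, hm, rfl⟩
      rw [Submodule.mem_bot]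
      funext u
      change ∑ k, y k * m k = 0
      have hyY : y ∈ Y := by
        rw [← hγs]
        exact Submodule.subset_span ⟨Sum.inr (), rfl⟩
      rw [← hm y hyY]
      exact Finset.sum_congr rfl fun k _ => mul_comm _ _
    · intro b hb hTb
      refine hbot b hb ?_
      have h1 := congrFun ((Submodule.mem_bot L).1 hTb) ()
      exact h1

theorem ht_orth (h : IsFF κ L) (Y : Submodule L (ι → L)) : ht κ (orth Y) = ht κ Y :=
  le_antisymm (ht_orth_le h Y) (by
    have := ht_orth_le h (orth Y)
    rwa [orth_orth] at this)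

end

end Pool.Agent.Lib.MP_44a246_ntA
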