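import Mathlib
import Pool.Agent.Lib.MP_44a246_ntA.P01

/-!
# Step A (constant version), P02: heights of tensor products

Paper 549, P4.
-/

namespace Pool.Agent.Lib.MP_44a246_ntA

open Pool.Agent.Lib.MP_44a246_nt
open Pool.Agent.Lib.MP_44a246_ntL
open Pool.Agent.Lib.MP_44a246_ntS
open WithZero Module

section

variable {L : Type*} [Field L] {ι : Type*}

/-- the tensor product of two vectors -/
def tp (x y : ι → L) : ι × ι → L := fun p => x p.1 * y p.2

/-- the map `y ↦ x ⊗ y` -/
def tpL (x : ι → L) : (ι → L) →ₗ[L] (ι × ι → L) where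
  toFun y := tp x y
  map_add' y z := by funext p; simp [tp, mul_add]
  map_smul' c y := by funext p; simp [tp]; ring

theorem tpL_apply (x y : ι → L) : tpL x y = tp x y := rfl

/-- the space `x ⊗ Y` -/
def xt (x : ι → L) (Y : Submodule L (ι → L)) : Submodule L (ι × ι → L) := Y.map (tpL x)

/-- the space `X ⊗ Y` -/
def tt (X Y : Submodule L (ι → L)) : Submodule L (ι × ι → L) :=
  Submodule.span L {z | ∃ x ∈ X, ∃ y ∈ Y, z = tp x y}

theorem tp_mem_tt {X Y : Submodule L (ι → L)} {x y : ι → L} (hx : x ∈ X) (hy : y ∈ Y) :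
    tp x y ∈ tt X Y := Submodule.subset_span ⟨x, hx, y, hy, rfl⟩

theorem xt_le_tt {X Y : Submodule L (ι → L)} {x : ι → L} (hx : x ∈ X) : xt x Y ≤ tt X Y := by
  rintro _ ⟨y, hy, rfl⟩
  exact tp_mem_tt hx hy

/-- the rows of the elements of `X ⊗ Y` are in `Y` -/
theorem row_mem_of_mem_tt {X Y : Submodule L (ι → L)} {z : ι × ι → L} (hz : z ∈ tt X Y) (i : ι) :
    (fun j => z (i, j)) ∈ Y := by
  unfold tt at hz
  induction hz using Submodule.span_induction with
  | mem z hz =>
    obtain ⟨x, _, y, hy, rfl⟩ := hz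
    exact Y.smul_mem (x i) hy
  | zero => exact Y.zero_mem
  | add a b _ _ ha hb => exact Y.add_mem ha hb
  | smul c a _ ha => exact Y.smul_mem c ha

private theorem tpL_injective' {x : ι → L} (hx : x ≠ 0) : Function.Injective (tpL x) := by
  obtain ⟨i, hi⟩ := Function.ne_iff.1 hx
  intro y z hyz
  funext j
  have h1 := congrFun hyz (i, j)
  exact mul_left_cancel₀ hi h1

/-- `tpL x` is injective -/
theorem finrank_xt {x : ι → L} (hx : x ≠ 0) (Y : Submodule L (ι → L)) :
    finrank L (xt x Y) = finrank L Y :=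
  (LinearEquiv.finrank_eq (Submodule.equivMapOfInjective (tpL x) (tpL_injective' hx) Y)).symm

/-- Proof. `≥`: the elements of `x ⊗ Y` are in both spaces. `≤`: an element `x ⊗ m` of
`X ⊗ Y` has the row `x i • m ∈ Y` (`row_mem_of_mem_tt`) with `x i ≠ 0`. -/
theorem xt_inf_tt {X Y Z : Submodule L (ι → L)} {x : ι → L} (hx : x ≠ 0) (hxX : x ∈ X)
    (hYZ : Y ≤ Z) : xt x Z ⊓ tt X Y = xt x Y := by
  obtain ⟨i, hi⟩ := Function.ne_iff.1 hx
  apply le_antisymm
  · rintro _ ⟨⟨m, _, rfl⟩, h2⟩
    refine ⟨m, ?_, rfl⟩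
    have h3 := row_mem_of_mem_tt h2 i
    have h4 : x i • m ∈ Y := h3
    exact (Y.smul_mem_iff hi).1 h4
  · refine le_inf ?_ (xt_le_tt hxX)
    exact Submodule.map_mono hYZ

end

section

variable {κ L : Type*} [Field κ] [IsAlgClosed κ] [CharZero κ] [Field L] [Algebra κ L]
  {ι : Type*} [Fintype ι]

/-- Proof. `tt X Y` is spanned by the products of the bases (`SB2b_basis`). -/
theorem finrank_tt_le (X Y : Submodule L (ι → L)) :
    finrank L (tt X Y) ≤ finrank L X * finrank L Y := by
  classical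
  let b := Module.finBasis L X
  let c := Module.finBasis L Y
  have h1 : tt X Y ≤ Submodule.span L
      ((Finset.univ.image fun p : Fin (finrank L X) × Fin (finrank L Y) =>
        tp (b p.1 : ι → L) (c p.2 : ι → L) : Finset (ι × ι → L)) : Set (ι × ι → L)) := by
    refine Submodule.span_le.2 ?_
    rintro _ ⟨x, hx, y, hy, rfl⟩
    have hx' : x = ∑ i, b.repr ⟨x, hx⟩ i • (b i : ι → L) := by
      have := congrArg Subtype.val (b.sum_repr ⟨x, hx⟩)
      rw [AddSubmonoidClass.coe_finsetSum] at this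
      exact this.symm
    have hy' : y = ∑ i, c.repr ⟨y, hy⟩ i • (c i : ι → L) := by
      have := congrArg Subtype.val (c.sum_repr ⟨y, hy⟩)
      rw [AddSubmonoidClass.coe_finsetSum] at this
      exact this.symm
    have e : tp x y = ∑ i, ∑ j, (b.repr ⟨x, hx⟩ i * c.repr ⟨y, hy⟩ j) •
        tp (b i : ι → L) (c j : ι → L) := by
      funext p
      conv_lhs => rw [hx', hy']
      simp only [tp, Finset.sum_apply, Pi.smul_apply, smul_eq_mul, Finset.sum_mul_sum]
      refine Finset.sum_congr rfl fun i _ => Finset.sum_congr rfl fun j _ => ?_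
      ring
    rw [SetLike.mem_coe, e]
    refine Submodule.sum_mem _ fun i _ => Submodule.sum_mem _ fun j _ => ?_
    refine Submodule.smul_mem _ _ (Submodule.subset_span ?_)
    rw [Finset.mem_coe, Finset.mem_image]
    exact ⟨(i, j), Finset.mem_univ _, rfl⟩
  calc finrank L (tt X Y) ≤ finrank L (Submodule.span L
      ((Finset.univ.image fun p : Fin (finrank L X) × Fin (finrank L Y) =>
        tp (b p.1 : ι → L) (c p.2 : ι → L) : Finset (ι × ι → L)) : Set (ι × ι → L))) :=
        Submodule.finrank_mono h1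
    _ ≤ (Finset.univ.image fun p : Fin (finrank L X) × Fin (finrank L Y) =>
        tp (b p.1 : ι → L) (c p.2 : ι → L)).card := finrank_span_finset_le_card _
    _ ≤ _ := by
      refine Finset.card_image_le.trans ?_
      simp

end

end Pool.Agent.Lib.MP_44a246_ntA
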