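import Mathlib
import Pool.Agent.Lib.MP_44a246_ntA.P02

/-!
# Step A (constant version), P02b: the height of `x ⊗ Y`

Paper 549, P4.
-/

namespace Pool.Agent.Lib.MP_44a246_ntA

open Pool.Agent.Lib.MP_44a246_nt
open Pool.Agent.Lib.MP_44a246_ntL
open Pool.Agent.Lib.MP_44a246_ntS
open WithZero Module

private theorem tpL_inj_b {L : Type*} [Field L] {ι : Type*} {x : ι → L} (hx : x ≠ 0) :
    Function.Injective (tpL x) := by
  obtain ⟨i, hi⟩ := Function.ne_iff.1 hx
  intro y z hyz
  funext j
  have h1 := congrFun hyz (i, j)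
  exact mul_left_cancel₀ hi h1

/-- the local identity -/
private theorem pl_tp {L : Type*} [Field L] {ι ρ : Type*} [Fintype ι] [Fintype ρ] [DecidableEq ρ]
    (v : Valuation L ℤᵐ⁰) {x : ι → L} (hx : x ≠ 0) (b : ρ → ι → L) :
    pl v (fun i => tp x (b i)) = vmax v x ^ Fintype.card ρ * pl v b := by
  have hdet : ∀ e : ρ → ι × ι, (Matrix.of fun i j => tp x (b i) (e j)).det =
      (∏ j, x (e j).1) * (Matrix.of fun i j => b i (e j).2).det := by
    intro e
    exact Matrix.det_mul_row (fun j => x (e j).1) (Matrix.of fun i j => b i (e j).2)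
  obtain ⟨l, hl0, hl, hmax⟩ := exists_vmax v hx
  unfold pl
  apply le_antisymm
  · refine vmax_le v fun e => ?_
    rw [hdet e, map_mul, map_prod]
    refine mul_le_mul' ?_ (le_vmax v (fun e : ρ → ι => (Matrix.of fun i j => b i (e j)).det)
      (fun j => (e j).2))
    have h1 : ∏ j, v (x (e j).1) ≤ ∏ _j : ρ, vmax v x :=
      Finset.prod_le_prod' fun j _ => le_vmax v x _
    rwa [Finset.prod_const, Finset.card_univ] at h1
  · by_cases hb : (fun e : ρ → ι => (Matrix.of fun i j => b i (e j)).det) = 0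
    · rw [hb, (vmax_eq_zero_iff v).2 rfl, mul_zero]
      exact zero_le
    · obtain ⟨e, he0, he, hemax⟩ := exists_vmax v hb
      have h1 := le_vmax v (fun e : ρ → ι × ι =>
        (Matrix.of fun i j => tp x (b i) (e j)).det) (fun j => (l, e j))
      rw [hdet, map_mul, map_prod] at h1
      rw [he, hl]
      refine le_trans (le_of_eq ?_) h1
      have h2 : ∏ j : ρ, v (x ((l, e j) : ι × ι).1) = v (x l) ^ Fintype.card ρ := by
        have h3 : ∏ _j : ρ, v (x l) = v (x l) ^ Fintype.card ρ := by
          rw [Finset.prod_const, Finset.card_univ]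
        exact h3
      exact congrArg (· * v (Matrix.of fun i j => b i (e j)).det) h2.symm

section

variable {κ L : Type*} [Field κ] [IsAlgClosed κ] [CharZero κ] [Field L] [Algebra κ L]
  {ι : Type*} [Fintype ι]

/-- **The height of `x ⊗ Y`.**

Proof. Let `b` be a basis of `Y` (`SB2b_basis`); `ht_span` for `b` and for `tp x ∘ b` (linearly
independent as `tpL x` is injective). Local: `pl w.1 (tp x ∘ b) = vmax w.1 x ^ n * pl w.1 b`,
`n = finrank L Y`: the minor with the columns `(i k, j k)` is `∏ x (i k)` times a minor of `b`; for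
`≥` take `i k = i` with `|x i| = vmax w.1 x` (`exists_vmax`). Then `log_mul`, `log_pow`,
`finsum_add_distrib`, `pl_support`, `h.vmax_support`. -/
theorem ht_xt (h : IsFF κ L) {x : ι → L} (hx : x ≠ 0) (Y : Submodule L (ι → L)) :
    ht κ (xt x Y) = finrank L Y * height κ x + ht κ Y := by
  obtain ⟨b, hb, hbs⟩ := SB2b_basis Y
  have hc : LinearIndependent L (fun i => tp x (b i)) :=
    hb.map' (tpL x) (LinearMap.ker_eq_bot.2 (tpL_inj_b hx))
  have hcs : Submodule.span L (Set.range fun i => tp x (b i)) = xt x Y := by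
    have h1 : (Set.range fun i => tp x (b i)) = tpL x '' Set.range b := by
      rw [← Set.range_comp]
      rfl
    rw [h1, Submodule.span_image, hbs]
    rfl
  have t1 : ht κ (xt x Y) = ∑ᶠ w : Place κ L, log (pl w.1 (fun i => tp x (b i))) := by
    rw [← hcs, ht_span h hc]
  have t2 : ht κ Y = ∑ᶠ w : Place κ L, log (pl w.1 b) := by
    rw [← ht_span h hb, hbs]
  have key : ∀ w : Place κ L, log (pl w.1 (fun i => tp x (b i))) =
      (finrank L Y : ℤ) * log (vmax w.1 x) + log (pl w.1 b) := by
    intro w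
    have n1 : vmax w.1 x ≠ 0 := by
      rw [Ne, vmax_eq_zero_iff]
      exact hx
    rw [pl_tp w.1 hx b, log_mul (pow_ne_zero _ n1) (pl_ne_zero w.1 hb), log_pow,
      Fintype.card_fin, nsmul_eq_mul]
  rw [t1, t2, finsum_congr key, finsum_add_distrib, ← mul_finsum]
  · rfl
  · exact (h.vmax_support hx).subset (Function.support_mul_subset_right _ _)
  · exact pl_support h hb

end

end Pool.Agent.Lib.MP_44a246_ntA
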