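import Mathlib
import Pool.Agent.Lib.MP_44a246_ntA.P02

/-!
# Step A (constant version), P02c: the height of `X ⊗ Y`

Paper 549, P4.
-/

namespace Pool.Agent.Lib.MP_44a246_ntA

open Pool.Agent.Lib.MP_44a246_nt
open Pool.Agent.Lib.MP_44a246_ntL
open Pool.Agent.Lib.MP_44a246_ntS
open WithZero Module

/-- the products of two linearly independent families are linearly independent -/
private theorem tp_indep {L : Type*} [Field L] {ι ρ σ : Type*} [Fintype ρ] [Fintype σ]
    {a : ρ → ι → L} {b : σ → ι → L} (ha : LinearIndependent L a) (hb : LinearIndependent L b) :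
    LinearIndependent L (fun p : ρ × σ => tp (a p.1) (b p.2)) := by
  rw [Fintype.linearIndependent_iff] at ha hb ⊢
  intro s hs
  have h1 : ∀ (k : ι) (j : σ), ∑ i, s (i, j) * a i k = 0 := by
    intro k
    refine hb (fun j => ∑ i, s (i, j) * a i k) ?_
    funext l
    have h2 := congrFun hs (k, l)
    simp only [Finset.sum_apply, Pi.smul_apply, smul_eq_mul, Pi.zero_apply, tp] at h2 ⊢
    rw [← h2, Fintype.sum_prod_type_right]
    refine Finset.sum_congr rfl fun j _ => ?_
    rw [Finset.sum_mul]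
    refine Finset.sum_congr rfl fun i _ => ?_
    ring
  rintro ⟨i, j⟩
  refine ha (fun i => s (i, j)) ?_ i
  funext k
  simpa only [Finset.sum_apply, Pi.smul_apply, smul_eq_mul, Pi.zero_apply] using h1 k j

/-- the products of the vectors of two bases span the tensor product -/
private theorem tp_span {L : Type*} [Field L] {ι ρ σ : Type*} [Fintype ρ] [Fintype σ]
    {a : ρ → ι → L} {b : σ → ι → L} {X Y : Submodule L (ι → L)}
    (ha : Submodule.span L (Set.range a) = X) (hb : Submodule.span L (Set.range b) = Y) :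
    Submodule.span L (Set.range fun p : ρ × σ => tp (a p.1) (b p.2)) = tt X Y := by
  apply le_antisymm
  · refine Submodule.span_le.2 ?_
    rintro _ ⟨p, rfl⟩
    refine tp_mem_tt ?_ ?_
    · rw [← ha]
      exact Submodule.subset_span ⟨p.1, rfl⟩
    · rw [← hb]
      exact Submodule.subset_span ⟨p.2, rfl⟩
  · refine Submodule.span_le.2 ?_
    rintro _ ⟨x, hx, y, hy, rfl⟩
    rw [← ha] at hx
    rw [← hb] at hy
    obtain ⟨s, rfl⟩ := (Submodule.mem_span_range_iff_exists_fun L).1 hx
    obtain ⟨t, rfl⟩ := (Submodule.mem_span_range_iff_exists_fun L).1 hy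
    have e : tp (∑ i, s i • a i) (∑ j, t j • b j) =
        ∑ i, ∑ j, (s i * t j) • tp (a i) (b j) := by
      funext p
      simp only [tp, Finset.sum_apply, Pi.smul_apply, smul_eq_mul, Finset.sum_mul_sum]
      refine Finset.sum_congr rfl fun i _ => Finset.sum_congr rfl fun j _ => ?_
      ring
    rw [SetLike.mem_coe, e]
    refine Submodule.sum_mem _ fun i _ => Submodule.sum_mem _ fun j _ => ?_
    exact Submodule.smul_mem _ _ (Submodule.subset_span ⟨(i, j), rfl⟩)

/-- the local inequality -/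
private theorem pl_tp_le {L : Type*} [Field L] {ι ρ σ : Type*} [Fintype ι] [Fintype ρ]
    [DecidableEq ρ] [Fintype σ] [DecidableEq σ] (v : Valuation L ℤᵐ⁰)
    {a : ρ → ι → L} {b : σ → ι → L} (ha : LinearIndependent L a) (hb : LinearIndependent L b) :
    pl v (fun p : ρ × σ => tp (a p.1) (b p.2)) ≤
      pl v a ^ Fintype.card σ * pl v b ^ Fintype.card ρ := by
  obtain ⟨g, e, hg, hgr⟩ := exists_red v ha
  obtain ⟨h, f, hh, hhr⟩ := exists_red v hb
  have h1 : v g.det * pl v a = 1 := by
    rw [← pl_mul v g a]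
    exact Red.pl_eq v hgr
  have h2 : v h.det * pl v b = 1 := by
    rw [← pl_mul v h b]
    exact Red.pl_eq v hhr
  have h3 : pl v (fun (p : ρ × σ) (k : ι × ι) =>
      ∑ q, (Matrix.kroneckerMap (· * ·) g h) p q * tp (a q.1) (b q.2) k) ≤ 1 := by
    refine pl_le_one v fun p k => ?_
    have h4 : ∑ q, (Matrix.kroneckerMap (· * ·) g h) p q * tp (a q.1) (b q.2) k =
        (∑ j, g p.1 j * a j k.1) * (∑ j, h p.2 j * b j k.2) := by
      rw [Fintype.sum_prod_type, Finset.sum_mul_sum]
      refine Finset.sum_congr rfl fun i _ => Finset.sum_congr rfl fun j _ => ?_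
      rw [Matrix.kroneckerMap_apply]
      simp only [tp]
      ring
    rw [h4, map_mul]
    exact mul_le_one' (hgr.int p.1 k.1) (hhr.int p.2 k.2)
  rw [pl_mul v (Matrix.kroneckerMap (· * ·) g h) (fun p : ρ × σ => tp (a p.1) (b p.2)),
    Matrix.det_kronecker, map_mul, map_pow, map_pow] at h3
  calc pl v (fun p : ρ × σ => tp (a p.1) (b p.2))
      = (v g.det * pl v a) ^ Fintype.card σ * (v h.det * pl v b) ^ Fintype.card ρ *
          pl v (fun p : ρ × σ => tp (a p.1) (b p.2)) := by
        rw [h1, h2, one_pow, one_pow, one_mul, one_mul]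
    _ = (pl v a ^ Fintype.card σ * pl v b ^ Fintype.card ρ) *
          (v g.det ^ Fintype.card σ * v h.det ^ Fintype.card ρ *
            pl v (fun p : ρ × σ => tp (a p.1) (b p.2))) := by
        rw [mul_pow, mul_pow]
        ac_rfl
    _ ≤ (pl v a ^ Fintype.card σ * pl v b ^ Fintype.card ρ) * 1 := mul_le_mul_right h3 _
    _ = _ := mul_one _

section

variable {κ L : Type*} [Field κ] [IsAlgClosed κ] [CharZero κ] [Field L] [Algebra κ L]
  {ι : Type*} [Fintype ι]

/-- **The height of `X ⊗ Y`.**

Proof. Let `a`, `b` be bases of `X`, `Y`; `(i, j) ↦ tp (a i) (b j)` is linearly independent and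
spans `tt X Y`. Local: with reduced bases `g a`, `h b` (`exists_red`, `Red.pl_eq`), the family
`tp (g a) (h b)` has integral entries, so `pl ≤ 1` (`pl_le_one`), and it is
`(Matrix.kroneckerMap (· * ·) g h)` times the family `tp (a i) (b j)` (`pl_mul`,
`Matrix.det_kronecker`): `v (det g) ^ n' * v (det h) ^ n * pl v (tp a b) ≤ 1`,
`v (det g) * pl v a = 1`, `v (det h) * pl v b = 1`; so `pl v (tp a b) ≤ pl v a ^ n' * pl v b ^ n`
(`n = finrank X`, `n' = finrank Y`). -/
theorem ht_tt_le (h : IsFF κ L) (X Y : Submodule L (ι → L)) :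
    ht κ (tt X Y) ≤ finrank L Y * ht κ X + finrank L X * ht κ Y := by
  obtain ⟨a, ha, has⟩ := SB2b_basis X
  obtain ⟨b, hb, hbs⟩ := SB2b_basis Y
  have hc := tp_indep ha hb
  have hcs := tp_span has hbs
  have t1 : ht κ (tt X Y) = ∑ᶠ w : Place κ L,
      log (pl w.1 (fun p : Fin (finrank L X) × Fin (finrank L Y) => tp (a p.1) (b p.2))) := by
    rw [← hcs, ht_span h hc]
  have t2 : ht κ X = ∑ᶠ w : Place κ L, log (pl w.1 a) := by
    rw [← ht_span h ha, has]
  have t3 : ht κ Y = ∑ᶠ w : Place κ L, log (pl w.1 b) := by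
    rw [← ht_span h hb, hbs]
  have key : ∀ w : Place κ L,
      log (pl w.1 (fun p : Fin (finrank L X) × Fin (finrank L Y) => tp (a p.1) (b p.2))) ≤
      (finrank L Y : ℤ) * log (pl w.1 a) + (finrank L X : ℤ) * log (pl w.1 b) := by
    intro w
    have n1 := pl_ne_zero w.1 ha
    have n2 := pl_ne_zero w.1 hb
    have n3 := pl_ne_zero w.1 hc
    have h1 := pl_tp_le w.1 ha hb
    have h2 := (log_le_log n3 (mul_ne_zero (pow_ne_zero _ n1) (pow_ne_zero _ n2))).mpr h1
    rw [log_mul (pow_ne_zero _ n1) (pow_ne_zero _ n2), log_pow, log_pow, Fintype.card_fin,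
      Fintype.card_fin, nsmul_eq_mul, nsmul_eq_mul] at h2
    exact h2
  have s1 := (pl_support h ha).subset (Function.support_mul_subset_right
    (fun _ : Place κ L => (finrank L Y : ℤ)) (fun w : Place κ L => log (pl w.1 a)))
  have s2 := (pl_support h hb).subset (Function.support_mul_subset_right
    (fun _ : Place κ L => (finrank L X : ℤ)) (fun w : Place κ L => log (pl w.1 b)))
  have h3 := finsum_mono (pl_support h hc) ((s1.union s2).subset (Function.support_add
    (fun w : Place κ L => (finrank L Y : ℤ) * log (pl w.1 a))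
    (fun w : Place κ L => (finrank L X : ℤ) * log (pl w.1 b)))) key
  rw [finsum_add_distrib s1 s2, ← mul_finsum, ← mul_finsum] at h3
  rw [t1, t2, t3]
  exact h3

end

end Pool.Agent.Lib.MP_44a246_ntA
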