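import Mathlib
import Pool.Agent.Lib.MP_44a246_ntA.P01b
import Pool.Agent.Lib.MP_44a246_ntA.P02b
import Pool.Agent.Lib.MP_44a246_ntA.P02c
import Pool.Agent.Lib.MP_44a246_ntS.SB2c

/-!
# Step A (constant version), P03: the space `x ⊗ x^⊥ + Λ ⊗ Λ^⊥`

Paper 549, (4.a).
-/

namespace Pool.Agent.Lib.MP_44a246_ntA

open Pool.Agent.Lib.MP_44a246_nt
open Pool.Agent.Lib.MP_44a246_ntL
open Pool.Agent.Lib.MP_44a246_ntS
open WithZero Module

/-- the space of the pair `(x, Λ)` -/
def nn {L : Type*} [Field L] {ι : Type*} [Fintype ι] (x : ι → L) (P : Submodule L (ι → L)) :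
    Submodule L (ι × ι → L) := xt x (orth (Submodule.span L {x})) ⊔ tt P (orth P)

section

variable {κ L : Type*} [Field κ] [IsAlgClosed κ] [CharZero κ] [Field L] [Algebra κ L]
  {ι : Type*} [Fintype ι]

/-- **(4.a)**, the dimension.

Proof. `Submodule.finrank_sup_add_finrank_inf_eq`, `xt_inf_tt` (with `Z = orth (span {x})`,
`Y = orth P`, `orth_anti`), `finrank_xt`, `finrank_tt_le`, `finrank_orth` for `P` and `span {x}`
(`finrank_span_singleton`). -/
theorem finrank_nn_le {x : ι → L} (hx : x ≠ 0) {P : Submodule L (ι → L)} (hxP : x ∈ P) :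
    finrank L (nn x P) + 1 + finrank L P * finrank L P ≤
      finrank L P + finrank L P * Fintype.card ι := by
  have hle : orth P ≤ orth (Submodule.span L {x}) :=
    orth_anti ((Submodule.span_singleton_le_iff_mem x P).2 hxP)
  have h1 := Submodule.finrank_sup_add_finrank_inf_eq (xt x (orth (Submodule.span L {x})))
    (tt P (orth P))
  rw [xt_inf_tt hx hxP hle, finrank_xt hx, finrank_xt hx] at h1
  have h2 := finrank_tt_le P (orth P)
  have h3 := finrank_orth P
  have h4 := finrank_orth (Submodule.span L {x})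
  rw [finrank_span_singleton hx] at h4
  change finrank L (nn x P) + finrank L (orth P) = _ at h1
  rw [← h3, mul_add]
  have h5 : finrank L P + finrank L (orth P) = 1 + finrank L (orth (Submodule.span L {x})) := by
    rw [h3, h4]
  omega

/-- **(4.a)**, the height.

Proof. `ht_sup_inf`, `xt_inf_tt`, `ht_xt` (twice), `ht_tt_le`, `ht_orth`, `ht_single`,
`finrank_orth`:
`ht ≤ N h + N ht P - (N - λ) h - ht P`, `N = card ι`, `λ = finrank P`, `h = height x`. -/
theorem ht_nn_le (h : IsFF κ L) {x : ι → L} (hx : x ≠ 0) {P : Submodule L (ι → L)}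
    (hxP : x ∈ P) :
    ht κ (nn x P) ≤ finrank L P * height κ x + ((Fintype.card ι : ℤ) - 1) * ht κ P := by
  have hle : orth P ≤ orth (Submodule.span L {x}) :=
    orth_anti ((Submodule.span_singleton_le_iff_mem x P).2 hxP)
  have h1 := ht_sup_inf h (xt x (orth (Submodule.span L {x}))) (tt P (orth P))
  rw [xt_inf_tt hx hxP hle, ht_xt h hx, ht_xt h hx, ht_orth h, ht_orth h, ht_single h hx] at h1
  have h2 := ht_tt_le h P (orth P)
  rw [ht_orth h] at h2
  have h3 := finrank_orth P
  have h4 := finrank_orth (Submodule.span L {x})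
  rw [finrank_span_singleton hx] at h4
  change ht κ (nn x P) + _ ≤ _ at h1
  have h3' : (finrank L P : ℤ) + (finrank L (orth P) : ℤ) = (Fintype.card ι : ℤ) := by
    exact_mod_cast h3
  have h4' : (1 : ℤ) + (finrank L (orth (Submodule.span L {x})) : ℤ) = (Fintype.card ι : ℤ) := by
    exact_mod_cast h4
  have h5 : (finrank L (orth (Submodule.span L {x})) : ℤ) = (Fintype.card ι : ℤ) - 1 := by
    linarith
  have h6 : (finrank L (orth P) : ℤ) = (Fintype.card ι : ℤ) - finrank L P := by
    linarith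
  rw [h5, h6] at h1
  rw [h6] at h2
  nlinarith [h1, h2]

end

end Pool.Agent.Lib.MP_44a246_ntA
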