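import Mathlib
import Pool.Agent.Lib.MP_44a246_ntF.F21
import Pool.Agent.Lib.MP_44a246_ntA.A01

/-!
# Step A (constant version), P04: minors of combinations of columns with bounded minors
-/

namespace Pool.Agent.Lib.MP_44a246_ntA

open Pool.Agent.Lib.MP_44a246_nt
open Pool.Agent.Lib.MP_44a246_ntL
open Pool.Agent.Lib.MP_44a246_ntS
open Pool.Agent.Lib.MP_44a246_ntX
open Pool.Agent.Lib.MP_44a246_ntF
open WithZero Module

/-- the minors of the combinations of rows whose minors are at most `τ`.

Proof. If `b` is linearly dependent, then so is the family of the combinations (a linear map), and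
both sides vanish or `pl_eq_zero` applies to the left side. Otherwise `exists_red` gives `g` with
`b' = g b` reduced: `v g.det * pl v b = 1` (`pl_mul`, `Red.pl_eq`), and the combinations of `b'` are
`g` times the combinations of `b` (`pl_mul`); they have minors at most `τ` by `det_comb_le` (F20),
as the entries of `b'` are integral. -/
theorem pl_comb_le {L : Type*} [Field L] (v : Valuation L ℤᵐ⁰) {C E : Type*} [Fintype C]
    [Fintype E] {r : ℕ} {col : C → E → L} {τ : ℤᵐ⁰}
    (hcol : ∀ (f : Fin r → C) (K : Fin r → E),
      v (Matrix.det (Matrix.of fun i j => col (f i) (K j))) ≤ τ) (b : Fin r → C → L) :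
    pl v (fun i K => ∑ c, b i c * col c K) ≤ τ * pl v b := by
  classical
  by_cases hb : LinearIndependent L b
  · obtain ⟨g, e, hg, hred⟩ := exists_red v hb
    have h1 : v g.det * pl v b = 1 := by
      rw [← pl_mul]
      exact hred.pl_eq
    have hg0 : v g.det ≠ 0 := (v.ne_zero_iff).2 hg
    have h2 : v g.det * pl v (fun i K => ∑ c, b i c * col c K) ≤ τ := by
      rw [← pl_mul]
      have h3 : (fun (i : Fin r) (K : E) => ∑ j, g i j * ∑ c, b j c * col c K) =
          fun i K => ∑ c, (∑ j, g i j * b j c) * col c K := by
        funext i K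
        simp only [Finset.mul_sum, Finset.sum_mul]
        rw [Finset.sum_comm]
        refine Finset.sum_congr rfl fun c _ => Finset.sum_congr rfl fun j _ => ?_
        ring
      rw [h3]
      unfold pl
      refine vmax_le v fun K => ?_
      exact det_comb_le v (T := fun i c => ∑ j, g i j * b j c) (Y := col) hred.int K
        fun φ => hcol φ K
    have h4 : pl v b = (v g.det)⁻¹ := eq_inv_of_mul_eq_one_right h1
    rw [h4, mul_comm]
    calc pl v (fun i K => ∑ c, b i c * col c K)
        = (v g.det)⁻¹ * (v g.det * pl v (fun i K => ∑ c, b i c * col c K)) := by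
          rw [← mul_assoc, inv_mul_cancel₀ hg0, one_mul]
      _ ≤ (v g.det)⁻¹ * τ := mul_le_mul_right h2 _
  · have h1 : ¬ LinearIndependent L (fun (i : Fin r) (K : E) => ∑ c, b i c * col c K) := by
      intro h
      apply hb
      let Φ : (C → L) →ₗ[L] (E → L) := (Matrix.of col).vecMulLinear
      have h2 : (fun (i : Fin r) (K : E) => ∑ c, b i c * col c K) = fun i => Φ (b i) := by
        funext i K
        rfl
      rw [h2] at h
      exact LinearIndependent.of_comp Φ h
    rw [pl_eq_zero v h1]
    exact zero_le

end Pool.Agent.Lib.MP_44a246_ntA
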