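import Mathlib
import Pool.Agent.Lib.MP_44a246_ntA.P01

/-!
# Step A (constant version), P05: integral bases adapted to a flag

Paper 549, P4.
-/

namespace Pool.Agent.Lib.MP_44a246_ntA

open Pool.Agent.Lib.MP_44a246_nt
open Pool.Agent.Lib.MP_44a246_ntL
open Pool.Agent.Lib.MP_44a246_ntS
open WithZero Module

private theorem p05_sum_le {L : Type*} [Field L] (v : Valuation L ℤᵐ⁰) {α : Type*}
    (s : Finset α) (f : α → L) (h : ∀ i ∈ s, v (f i) ≤ 1) : v (∑ i ∈ s, f i) ≤ 1 :=
  v.map_sum_le h

private theorem p05_mul_le {L : Type*} [Field L] (v : Valuation L ℤᵐ⁰) {ι : Type*} [Fintype ι]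
    (A B : Matrix ι ι L) (hA : ∀ i j, v (A i j) ≤ 1) (hB : ∀ i j, v (B i j) ≤ 1) (i j : ι) :
    v ((A * B) i j) ≤ 1 := by
  rw [Matrix.mul_apply]
  refine p05_sum_le v _ _ fun k _ => ?_
  rw [map_mul]
  exact mul_le_one' (hA i k) (hB k j)

private theorem p05_one_le {L : Type*} [Field L] (v : Valuation L ℤᵐ⁰) {ι : Type*}
    [DecidableEq ι] (i j : ι) : v ((1 : Matrix ι ι L) i j) ≤ 1 := by
  rw [Matrix.one_apply]
  split_ifs
  · rw [map_one]
  · rw [map_zero]; exact zero_le_one

private theorem p05_add_le {L : Type*} [Field L] (v : Valuation L ℤᵐ⁰) {ι : Type*}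
    (A B : Matrix ι ι L) (hA : ∀ i j, v (A i j) ≤ 1) (hB : ∀ i j, v (B i j) ≤ 1) (i j : ι) :
    v ((A + B) i j) ≤ 1 := by
  rw [Matrix.add_apply]
  exact (v.map_add _ _).trans (max_le (hA i j) (hB i j))

private theorem p05_sub_le {L : Type*} [Field L] (v : Valuation L ℤᵐ⁰) {ι : Type*}
    (A B : Matrix ι ι L) (hA : ∀ i j, v (A i j) ≤ 1) (hB : ∀ i j, v (B i j) ≤ 1) (i j : ι) :
    v ((A - B) i j) ≤ 1 := by
  rw [Matrix.sub_apply]
  exact (v.map_sub _ _).trans (max_le (hA i j) (hB i j))

/-- **Adapted bases.** The columns of `M` are a basis of the lattice of integral vectors (`N` is the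
inverse of `M`); the column `k₀` spans the line of `x`, the columns with index in `S` span `P`.

Proof. `SB2b_basis` and `exists_red` give a reduced basis `b` of `P` with pivots `e` (injective, as
`b i (e j) = if i = j then 1 else 0`). As `x ∈ P`, `x = ∑ x (e i) • b i`; let `i₀` be such that
`|x (e i)| ≤ |x (e i₀)|` for all `i`; `x (e i₀) ≠ 0`. Let `S = range e`, `k₀ = e i₀`, and let `M` have
the columns `x / x (e i₀)` for `k₀`, `b i` for `e i`, `i ≠ i₀`, and the unit vector
`Pi.single k 1` for `k ∉ S`; all entries are integral (`x / x (e i₀) = ∑ (x (e i) / x (e i₀)) • b i`).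
The inverse: the matrix `M` is the product of two elementary integral matrices; or directly
`N`: `N m j` is, for `m = e i₀`, the coordinate `if j = e i₀ then 1 else 0`; for `m = e i`,
`i ≠ i₀`, `(if j = e i then 1 else 0) - (x (e i) / x (e i₀)) * (if j = e i₀ then 1 else 0)`; for
`m ∉ S`, `(if j = m then 1 else 0) - ∑ i, b i m * (if j = e i then 1 else 0)` (the coordinates of
a vector `y` in the basis: `y - ∑ y (e i) • b i` has the coordinates in the unit vectors `k ∉ S`, and
`∑ y (e i) • b i = y (e i₀) • (x / x (e i₀)) + ∑_{i ≠ i₀} (y (e i) - y (e i₀) x (e i) / x (e i₀)) • b i`).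
Prove `M * N = 1`, then `N * M = 1` by `Matrix.mul_eq_one_comm`. -/
theorem exists_adapted {L : Type*} [Field L] (v : Valuation L ℤᵐ⁰) {ι : Type*} [Fintype ι]
    [DecidableEq ι] {x : ι → L} (hx : x ≠ 0) {P : Submodule L (ι → L)} (hxP : x ∈ P) :
    ∃ (M N : Matrix ι ι L) (k₀ : ι) (S : Finset ι), (∀ i j, v (M i j) ≤ 1) ∧
      (∀ i j, v (N i j) ≤ 1) ∧ M * N = 1 ∧ N * M = 1 ∧ k₀ ∈ S ∧
      Submodule.span L {fun j => M j k₀} = Submodule.span L {x} ∧
      Submodule.span L {y | ∃ k ∈ S, y = fun j => M j k} = P := by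
  classical
  obtain ⟨β, hβ, hβs⟩ := SB2b_basis P
  obtain ⟨g, e, hg, hred⟩ := exists_red v hβ
  obtain ⟨b, hb⟩ : ∃ b : Fin (finrank L P) → ι → L, b = fun i k => ∑ j, g i j * β j k := ⟨_, rfl⟩
  rw [← hb] at hred
  have hbP : ∀ i, b i ∈ P := by
    intro i
    have h1 : b i = ∑ j, g i j • β j := by
      ext k
      rw [hb, Finset.sum_apply]
      rfl
    rw [h1]
    refine Submodule.sum_mem _ fun j _ => Submodule.smul_mem _ _ ?_
    rw [← hβs]
    exact Submodule.subset_span ⟨j, rfl⟩
  have hbli : LinearIndependent L b := Red.linearIndependent v hred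
  have hbs : Submodule.span L (Set.range b) = P := by
    refine Submodule.eq_of_le_of_finrank_eq ?_ ?_
    · rw [Submodule.span_le]
      rintro _ ⟨i, rfl⟩
      exact hbP i
    · rw [finrank_span_eq_card hbli, Fintype.card_fin]
  have hbe : ∀ i j, b i (e j) = if i = j then 1 else 0 := hred.piv
  have hbi : ∀ i k, v (b i k) ≤ 1 := hred.int
  have hexp : x = ∑ i, x (e i) • b i := by
    have h1 : x ∈ Submodule.span L (Set.range b) := by rw [hbs]; exact hxP
    obtain ⟨c, hc⟩ := (Submodule.mem_span_range_iff_exists_fun L).1 h1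
    have h2 : ∀ j, x (e j) = c j := by
      intro j
      rw [← hc, Finset.sum_apply]
      simp only [Pi.smul_apply, smul_eq_mul, hbe, mul_ite, mul_one, mul_zero]
      rw [Finset.sum_ite_eq' Finset.univ j c, if_pos (Finset.mem_univ _)]
    rw [← hc]
    refine Finset.sum_congr rfl fun i _ => ?_
    rw [hc, h2]
  have hne : Nonempty (Fin (finrank L P)) := by
    by_contra h
    rw [not_nonempty_iff] at h
    apply hx
    rw [hexp]
    exact Finset.sum_of_isEmpty _
  obtain ⟨i₀, -, hi₀⟩ := Finset.exists_max_image (Finset.univ : Finset (Fin (finrank L P)))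
    (fun i => v (x (e i))) Finset.univ_nonempty
  have hx0 : x (e i₀) ≠ 0 := by
    intro h
    apply hx
    rw [hexp]
    refine Finset.sum_eq_zero fun i _ => ?_
    have h1 := hi₀ i (Finset.mem_univ _)
    simp only [h, map_zero] at h1
    have h2 : x (e i) = 0 := (Valuation.zero_iff v).1 (le_zero_iff.1 h1)
    rw [h2, zero_smul]
  have heinj : Function.Injective e := by
    intro i j hij
    have h1 := hbe i j
    rw [← hij, hbe i i, if_pos rfl] at h1
    by_contra h
    rw [if_neg h] at h1
    exact one_ne_zero h1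
  obtain ⟨c, hc⟩ : ∃ c : Fin (finrank L P) → L, c = fun i => x (e i) / x (e i₀) := ⟨_, rfl⟩
  have hcv : ∀ i, v (c i) ≤ 1 := by
    intro i
    rw [hc]
    change v (x (e i) / x (e i₀)) ≤ 1
    rw [map_div₀]
    have h5 : v (x (e i₀)) ≠ 0 := (Valuation.ne_zero_iff v).2 hx0
    exact div_le_one_of_le₀ (hi₀ i (Finset.mem_univ _)) zero_le
  have hc0 : c i₀ = 1 := by
    rw [hc]
    exact div_self hx0
  have hxc : (x (e i₀))⁻¹ • x = ∑ i, c i • b i := by
    have h1 : ∀ t : L, t • x = ∑ i, (t * x (e i)) • b i := by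
      intro t
      have h2 := congrArg (fun z : ι → L => t • z) hexp
      refine h2.trans ?_
      rw [Finset.smul_sum]
      exact Finset.sum_congr rfl fun i _ => by rw [smul_smul]
    rw [h1]
    refine Finset.sum_congr rfl fun i _ => ?_
    rw [hc]
    change _ = (x (e i) / x (e i₀)) • b i
    rw [div_eq_inv_mul]
  -- the two nilpotent matrices
  obtain ⟨A, hA⟩ : ∃ A : Matrix ι ι L, A = Matrix.of fun m k =>
    ∑ i, (if k = e i then b i m - (if m = e i then 1 else 0) else 0) := ⟨_, rfl⟩
  obtain ⟨D, hD⟩ : ∃ D : Matrix ι ι L, D = Matrix.of fun m k =>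
    if k = e i₀ then ∑ i, (if i ≠ i₀ ∧ m = e i then c i else 0) else 0 := ⟨_, rfl⟩
  have hAe : ∀ m i, A m (e i) = b i m - (if m = e i then 1 else 0) := by
    intro m i
    rw [hA, Matrix.of_apply, Finset.sum_eq_single i]
    · rw [if_pos rfl]
    · intro j _ hj
      rw [if_neg]
      intro h
      exact hj (heinj h).symm
    · intro h
      exact absurd (Finset.mem_univ _) h
  have hA0 : ∀ m k, (∀ i, k ≠ e i) → A m k = 0 := by
    intro m k hk
    rw [hA, Matrix.of_apply]
    exact Finset.sum_eq_zero fun i _ => if_neg (hk i)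
  have hAr : ∀ i k, A (e i) k = 0 := by
    intro i k
    by_cases h : ∃ j, k = e j
    · obtain ⟨j, rfl⟩ := h
      rw [hAe, hbe]
      by_cases hij : i = j
      · subst hij
        rw [if_pos rfl, if_pos rfl, sub_self]
      · rw [if_neg (fun h => hij h.symm), if_neg (fun h => hij (heinj h)), sub_zero]
    · push Not at h
      exact hA0 _ _ h
  have hDe : ∀ i, D (e i) (e i₀) = if i ≠ i₀ then c i else 0 := by
    intro i
    rw [hD, Matrix.of_apply, if_pos rfl, Finset.sum_eq_single i]
    · simp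
    · intro j _ hj
      rw [if_neg]
      rintro ⟨_, h⟩
      exact hj (heinj h).symm
    · intro h
      exact absurd (Finset.mem_univ _) h
  have hD0 : ∀ m k, k ≠ e i₀ → D m k = 0 := by
    intro m k hk
    rw [hD, Matrix.of_apply, if_neg hk]
  have hDr : ∀ m k, (∀ i, m ≠ e i) → D m k = 0 := by
    intro m k hm
    rw [hD, Matrix.of_apply]
    split_ifs
    · refine Finset.sum_eq_zero fun i _ => ?_
      rw [if_neg]
      rintro ⟨_, h⟩
      exact hm i h
    · rfl
  have hAA : A * A = 0 := by
    ext m k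
    rw [Matrix.mul_apply, Matrix.zero_apply]
    refine Finset.sum_eq_zero fun j _ => ?_
    by_cases h : ∃ i, j = e i
    · obtain ⟨i, rfl⟩ := h
      rw [hAr, mul_zero]
    · push Not at h
      rw [hA0 _ _ h, zero_mul]
  have hDD : D * D = 0 := by
    ext m k
    rw [Matrix.mul_apply, Matrix.zero_apply]
    refine Finset.sum_eq_zero fun j _ => ?_
    by_cases h : j = e i₀
    · subst h
      by_cases hk : k = e i₀
      · subst hk
        rw [hDe, if_neg (by simp), mul_zero]
      · rw [hD0 _ _ hk, mul_zero]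
    · rw [hD0 _ _ h, zero_mul]
  have hAv : ∀ m k, v (A m k) ≤ 1 := by
    intro m k
    by_cases h : ∃ i, k = e i
    · obtain ⟨i, rfl⟩ := h
      rw [hAe]
      refine (v.map_sub _ _).trans (max_le (hbi i m) ?_)
      split_ifs
      · rw [map_one]
      · rw [map_zero]; exact zero_le_one
    · push Not at h
      rw [hA0 _ _ h, map_zero]
      exact zero_le_one
  have hDv : ∀ m k, v (D m k) ≤ 1 := by
    intro m k
    rw [hD, Matrix.of_apply]
    split_ifs
    · refine p05_sum_le v _ _ fun i _ => ?_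
      split_ifs
      · exact hcv i
      · rw [map_zero]; exact zero_le_one
    · rw [map_zero]; exact zero_le_one
  have hBcol : ∀ m i, (1 + A) m (e i) = b i m := by
    intro m i
    rw [Matrix.add_apply, hAe, Matrix.one_apply]
    ring
  have hMcol : ∀ m i, i ≠ i₀ → ((1 + A) * (1 + D)) m (e i) = b i m := by
    intro m i hi
    rw [mul_add, mul_one, Matrix.add_apply, hBcol, Matrix.mul_apply]
    have h1 : ∑ j, (1 + A) m j * D j (e i) = 0 := by
      refine Finset.sum_eq_zero fun j _ => ?_
      rw [hD0 _ _ (fun h => hi (heinj h)), mul_zero]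
    rw [h1, add_zero]
  have hMcol0 : ∀ m, ((1 + A) * (1 + D)) m (e i₀) = ((x (e i₀))⁻¹ • x) m := by
    intro m
    rw [mul_add, mul_one, Matrix.add_apply, hBcol, Matrix.mul_apply, hxc, Finset.sum_apply]
    have h1 : ∑ j, (1 + A) m j * D j (e i₀) = ∑ i, (if i ≠ i₀ then c i else 0) * b i m := by
      rw [← Finset.sum_subset (Finset.subset_univ (Finset.univ.image e))]
      · rw [Finset.sum_image (fun i _ j _ h => heinj h)]
        refine Finset.sum_congr rfl fun i _ => ?_
        rw [hBcol, hDe, mul_comm]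
      · intro j _ hj
        rw [hDr, mul_zero]
        intro i hi
        exact hj (Finset.mem_image.2 ⟨i, Finset.mem_univ _, hi.symm⟩)
    rw [h1]
    have h2 : b i₀ m = ∑ i, (if i = i₀ then c i else 0) * b i m := by
      rw [Finset.sum_eq_single i₀]
      · rw [if_pos rfl, hc0, one_mul]
      · intro j _ hj
        rw [if_neg hj, zero_mul]
      · intro h
        exact absurd (Finset.mem_univ _) h
    rw [h2, ← Finset.sum_add_distrib]
    refine Finset.sum_congr rfl fun i _ => ?_
    by_cases h : i = i₀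
    · rw [if_pos h, if_neg (by simpa using h), zero_mul, add_zero]
      rfl
    · rw [if_neg h, if_pos h, zero_mul, zero_add]
      rfl
  have hMN : (1 + A) * (1 + D) * ((1 - D) * (1 - A)) = 1 := by
    have h1 : (1 + D) * (1 - D) = 1 := by
      have : (1 + D) * (1 - D) = 1 - D * D := by noncomm_ring
      rw [this, hDD, sub_zero]
    have h2 : (1 + A) * (1 - A) = 1 := by
      have : (1 + A) * (1 - A) = 1 - A * A := by noncomm_ring
      rw [this, hAA, sub_zero]
    calc (1 + A) * (1 + D) * ((1 - D) * (1 - A)) = (1 + A) * ((1 + D) * (1 - D)) * (1 - A) := by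
          simp only [Matrix.mul_assoc]
      _ = 1 := by rw [h1, mul_one, h2]
  refine ⟨(1 + A) * (1 + D), (1 - D) * (1 - A), e i₀, Finset.univ.image e, ?_, ?_, hMN,
    mul_eq_one_comm.1 hMN, Finset.mem_image.2 ⟨i₀, Finset.mem_univ _, rfl⟩, ?_, ?_⟩
  · exact p05_mul_le v _ _ (p05_add_le v _ _ (p05_one_le v) hAv)
      (p05_add_le v _ _ (p05_one_le v) hDv)
  · exact p05_mul_le v _ _ (p05_sub_le v _ _ (p05_one_le v) hDv)
      (p05_sub_le v _ _ (p05_one_le v) hAv)
  · have h1 : (fun j => ((1 + A) * (1 + D)) j (e i₀)) = (x (e i₀))⁻¹ • x := funext hMcol0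
    rw [h1]
    exact Submodule.span_singleton_smul_eq (IsUnit.mk0 _ (inv_ne_zero hx0)) x
  · apply le_antisymm
    · rw [Submodule.span_le]
      rintro y ⟨k, hk, rfl⟩
      obtain ⟨i, -, rfl⟩ := Finset.mem_image.1 hk
      by_cases hi : i = i₀
      · subst hi
        have h1 : (fun j => ((1 + A) * (1 + D)) j (e i)) = (x (e i))⁻¹ • x := funext hMcol0
        rw [h1]
        exact P.smul_mem _ hxP
      · have h1 : (fun j => ((1 + A) * (1 + D)) j (e i)) = b i := funext fun m => hMcol m i hi
        rw [h1]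
        exact hbP i
    · have key : ∀ i, i ≠ i₀ → b i ∈ Submodule.span L {y | ∃ k ∈ Finset.univ.image e,
          y = fun j => ((1 + A) * (1 + D)) j k} := by
        intro i hi
        exact Submodule.subset_span ⟨e i, Finset.mem_image.2 ⟨i, Finset.mem_univ _, rfl⟩,
          (funext fun m => (hMcol m i hi).symm)⟩
      have key0 : (x (e i₀))⁻¹ • x ∈ Submodule.span L {y | ∃ k ∈ Finset.univ.image e,
          y = fun j => ((1 + A) * (1 + D)) j k} :=
        Submodule.subset_span ⟨e i₀, Finset.mem_image.2 ⟨i₀, Finset.mem_univ _, rfl⟩,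
          (funext fun m => (hMcol0 m).symm)⟩
      conv_lhs => rw [← hbs]
      rw [Submodule.span_le]
      rintro _ ⟨i, rfl⟩
      by_cases hi : i = i₀
      · subst hi
        have h2 : b i = (x (e i))⁻¹ • x - ∑ j ∈ Finset.univ.erase i, c j • b j := by
          rw [hxc, ← Finset.add_sum_erase Finset.univ (fun j => c j • b j) (Finset.mem_univ i),
            hc0, one_smul, add_sub_cancel_right]
        rw [h2]
        refine Submodule.sub_mem _ key0 (Submodule.sum_mem _ fun j hj => ?_)
        exact Submodule.smul_mem _ _ (key j (Finset.ne_of_mem_erase hj))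
      · exact key i hi

end Pool.Agent.Lib.MP_44a246_ntA
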