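import Mathlib
import Pool.Agent.Lib.MP_44a246_ntF.F21
import Pool.Agent.Lib.MP_44a246_ntA.P03

/-!
# Step A (constant version), P06: the space of the rows of a pair

Paper 549, P4: the space `U_Λ`.
-/

namespace Pool.Agent.Lib.MP_44a246_ntA

open Pool.Agent.Lib.MP_44a246_nt
open Pool.Agent.Lib.MP_44a246_ntL
open Pool.Agent.Lib.MP_44a246_ntS
open Pool.Agent.Lib.MP_44a246_ntX
open Pool.Agent.Lib.MP_44a246_ntF
open WithZero Module

section

variable {L : Type*} [Field L] {E ι : Type*} [Fintype ι] [DecidableEq ι]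
  (D : E → Derivation ℤ L L)

/-- the linear map `b ↦ (tr (b A_K))_K`, `A_K = D_K(M) N` -/
noncomputable def thM (M N : Matrix ι ι L) : Matrix E (ι × ι) L :=
  fun K p => ∑ k, D K (M p.2 k) * N k p.1

/-- the row `K ↦ η(D_K y)` -/
noncomputable def dp (y m : ι → L) : E → L := fun K => ∑ j, m j * D K (y j)

/-- the space of the rows of the pair -/
noncomputable def UL (x : ι → L) (P : Submodule L (ι → L)) : Submodule L (E → L) :=
  Submodule.span L ({u | ∃ m ∈ orth (Submodule.span L {x}), u = dp D x m} ∪
    {u | ∃ y ∈ P, ∃ m ∈ orth P, u = dp D y m})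

omit [DecidableEq ι] in
private theorem thM_mulVec_tp (M N : Matrix ι ι L) (y m : ι → L) (K : E) :
    (thM D M N).mulVec (tp y m) K = ∑ j, m j * ∑ k, D K (M j k) * ∑ i, N k i * y i := by
  have h1 : (thM D M N).mulVec (tp y m) K =
      ∑ p : ι × ι, (∑ k, D K (M p.2 k) * N k p.1) * (y p.1 * m p.2) := rfl
  rw [h1, Fintype.sum_prod_type_right]
  refine Finset.sum_congr rfl fun j _ => ?_
  simp only [Finset.mul_sum, Finset.sum_mul]
  rw [Finset.sum_comm]
  refine Finset.sum_congr rfl fun k _ => Finset.sum_congr rfl fun i _ => ?_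
  ring

/-- Proof. `dp D y m K = ∑ j, m j * D K (y j)`, and `(D K (M) * N) y - D K y` is a combination of the
columns of `M` with index in `S`: if `y = ∑_{k ∈ S} c k • M _ k` then `N y = c` (`N * M = 1`), so
`∑ k, D K (M j k) * (N y) k = ∑_{k ∈ S} D K (M j k) * c k` and
`D K (y j) = ∑_{k ∈ S} (D K (c k) * M j k + c k * D K (M j k))`; the first part is killed by `m`. -/
theorem thM_tp {M N : Matrix ι ι L} (hNM : N * M = 1) {S : Finset ι}
    {y m : ι → L} (hy : y ∈ Submodule.span L {y | ∃ k ∈ S, y = fun j => M j k})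
    (hm : ∀ k ∈ S, ∑ j, m j * M j k = 0) :
    (thM D M N).mulVec (tp y m) = dp D y m := by
  have key : (thM D M N).mulVec (tp y m) = dp D y m ∧ ∑ j, m j * y j = 0 := by
    induction hy using Submodule.span_induction with
    | mem y hy =>
      obtain ⟨k, hk, rfl⟩ := hy
      refine ⟨?_, hm k hk⟩
      funext K
      rw [thM_mulVec_tp]
      simp only [dp]
      refine Finset.sum_congr rfl fun j _ => ?_
      congr 1
      have h1 : ∀ l, ∑ i, N l i * M i k = if l = k then 1 else 0 := by
        intro l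
        rw [← Matrix.mul_apply, hNM, Matrix.one_apply]
      simp only [h1]
      simp
    | zero =>
      refine ⟨?_, by simp⟩
      funext K
      rw [thM_mulVec_tp]
      simp [dp]
    | add a b _ _ ha hb =>
      refine ⟨?_, ?_⟩
      · have h1 : tp (a + b) m = tp a m + tp b m := by
          funext p
          simp only [tp, Pi.add_apply]
          ring
        rw [h1, Matrix.mulVec_add, ha.1, hb.1]
        funext K
        simp only [dp, Pi.add_apply, map_add, mul_add, Finset.sum_add_distrib]
      · simp only [Pi.add_apply, mul_add, Finset.sum_add_distrib]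
        rw [ha.2, hb.2, add_zero]
    | smul c a _ ha =>
      refine ⟨?_, ?_⟩
      · have h1 : tp (c • a) m = c • tp a m := by
          funext p
          simp only [tp, Pi.smul_apply, smul_eq_mul]
          ring
        rw [h1, Matrix.mulVec_smul, ha.1]
        funext K
        simp only [dp, Pi.smul_apply, smul_eq_mul, Derivation.leibniz]
        have h2 : ∑ j, m j * (c * D K (a j) + a j * D K c) =
            c * (∑ j, m j * D K (a j)) + (∑ j, m j * a j) * D K c := by
          rw [Finset.mul_sum, Finset.sum_mul, ← Finset.sum_add_distrib]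
          refine Finset.sum_congr rfl fun j _ => ?_
          ring
        rw [h2, ha.2, zero_mul, add_zero]
      · have h2 : ∑ j, m j * (c • a) j = c * ∑ j, m j * a j := by
          rw [Finset.mul_sum]
          refine Finset.sum_congr rfl fun j _ => ?_
          rw [Pi.smul_apply, smul_eq_mul]
          ring
        rw [h2, ha.2, mul_zero]
  exact key.1

/-- the values on the two kinds of generators of `nn x P` -/
private theorem thM_gen {M N : Matrix ι ι L} (hNM : N * M = 1) {k₀ : ι} {S : Finset ι}
    {x : ι → L} {P : Submodule L (ι → L)}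
    (h1 : Submodule.span L {fun j => M j k₀} = Submodule.span L {x})
    (h2 : Submodule.span L {y | ∃ k ∈ S, y = fun j => M j k} = P) :
    (∀ m ∈ orth (Submodule.span L {x}), (thM D M N).mulVec (tp x m) = dp D x m) ∧
    (∀ y ∈ P, ∀ m ∈ orth P, (thM D M N).mulVec (tp y m) = dp D y m) := by
  constructor
  · intro m hm
    refine thM_tp D hNM (S := {k₀}) ?_ ?_
    · have h3 : {y : ι → L | ∃ k ∈ ({k₀} : Finset ι), y = fun j => M j k} =
          {fun j => M j k₀} := by
        ext y
        simp
      rw [h3, h1]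
      exact Submodule.mem_span_singleton_self x
    · intro k hk
      rw [Finset.mem_singleton] at hk
      subst hk
      refine hm _ ?_
      rw [← h1]
      exact Submodule.mem_span_singleton_self _
  · intro y hy m hm
    refine thM_tp D hNM (S := S) ?_ ?_
    · rw [h2]
      exact hy
    · intro k hk
      refine hm _ ?_
      rw [← h2]
      exact Submodule.subset_span ⟨k, hk, rfl⟩

/-- Proof. Both sides are spanned by the images of `tp x m`, `m ∈ orth (span {x})`, and `tp y m`,
`y ∈ P`, `m ∈ orth P`, which are `dp D x m`, `dp D y m` by `thM_tp` (with `S = {k₀}`, and `S`). -/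
theorem map_thM {M N : Matrix ι ι L} (hNM : N * M = 1) {k₀ : ι} {S : Finset ι}
    {x : ι → L} {P : Submodule L (ι → L)}
    (h1 : Submodule.span L {fun j => M j k₀} = Submodule.span L {x})
    (h2 : Submodule.span L {y | ∃ k ∈ S, y = fun j => M j k} = P) :
    (nn x P).map (thM D M N).mulVecLin = UL D x P := by
  obtain ⟨g1, g2⟩ := thM_gen D hNM h1 h2
  have e1 : (xt x (orth (Submodule.span L {x}))).map (thM D M N).mulVecLin =
      Submodule.span L {u | ∃ m ∈ orth (Submodule.span L {x}), u = dp D x m} := by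
    apply le_antisymm
    · rintro _ ⟨_, ⟨m, hm, rfl⟩, rfl⟩
      exact Submodule.subset_span ⟨m, hm, g1 m hm⟩
    · refine Submodule.span_le.2 ?_
      rintro _ ⟨m, hm, rfl⟩
      exact ⟨tp x m, ⟨m, hm, rfl⟩, g1 m hm⟩
  have e2 : (tt P (orth P)).map (thM D M N).mulVecLin =
      Submodule.span L {u | ∃ y ∈ P, ∃ m ∈ orth P, u = dp D y m} := by
    unfold tt
    rw [Submodule.map_span]
    congr 1
    ext u
    constructor
    · rintro ⟨_, ⟨y, hy, m, hm, rfl⟩, rfl⟩
      exact ⟨y, hy, m, hm, g2 y hy m hm⟩
    · rintro ⟨y, hy, m, hm, rfl⟩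
      exact ⟨tp y m, ⟨y, hy, m, hm, rfl⟩, g2 y hy m hm⟩
  unfold nn UL
  rw [Submodule.map_sup, e1, e2, Submodule.span_union]

/-- two adapted bases give the same map on `nn x P`.

Proof. `nn x P` is spanned by the `tp x m`, `tp y m`; `thM_tp` for both. -/
theorem thM_congr {M N M' N' : Matrix ι ι L} (hNM : N * M = 1) (hNM' : N' * M' = 1) {k₀ k₀' : ι}
    {S S' : Finset ι} {x : ι → L} {P : Submodule L (ι → L)}
    (h1 : Submodule.span L {fun j => M j k₀} = Submodule.span L {x})
    (h2 : Submodule.span L {y | ∃ k ∈ S, y = fun j => M j k} = P)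
    (h1' : Submodule.span L {fun j => M' j k₀'} = Submodule.span L {x})
    (h2' : Submodule.span L {y | ∃ k ∈ S', y = fun j => M' j k} = P)
    {b : ι × ι → L} (hb : b ∈ nn x P) :
    (thM D M N).mulVec b = (thM D M' N').mulVec b := by
  obtain ⟨g1, g2⟩ := thM_gen D hNM h1 h2
  obtain ⟨g1', g2'⟩ := thM_gen D hNM' h1' h2'
  unfold nn at hb
  obtain ⟨c, hc, d, hd, rfl⟩ := Submodule.mem_sup.1 hb
  clear hb
  rw [Matrix.mulVec_add, Matrix.mulVec_add]
  congr 1
  · obtain ⟨m, hm, rfl⟩ := hc
    exact (g1 m hm).trans (g1' m hm).symm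
  · unfold tt at hd
    induction hd using Submodule.span_induction with
    | mem z hz =>
      obtain ⟨y, hy, m, hm, rfl⟩ := hz
      exact (g2 y hy m hm).trans (g2' y hy m hm).symm
    | zero => rw [Matrix.mulVec_zero, Matrix.mulVec_zero]
    | add a b _ _ ha hb => rw [Matrix.mulVec_add, Matrix.mulVec_add, ha, hb]
    | smul c a _ ha => rw [Matrix.mulVec_smul, Matrix.mulVec_smul, ha]

/-- the rows of the coordinates are in the space of the pair.

Proof. `rowD D (x j) = dp D x m` for `m = Pi.single j 1 - x j • ξ`: `∑ m i * x i = 0` and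
`∑ ξ i * D K (x i) = D K (∑ ξ i * x i) = D K 1 = 0` (`D K (algebraMap κ L c) = 0` is needed for the
constants `ξ i`: hypothesis `hξ`). -/
theorem rowD_mem_UL {x : ι → L} {P : Submodule L (ι → L)} {ξ : ι → L}
    (hξ : ∀ K i, D K (ξ i) = 0) (h0 : ∑ i, ξ i * x i = 1) (j : ι) :
    rowD D (x j) ∈ UL D x P := by
  refine Submodule.subset_span (Or.inl ⟨Pi.single j 1 - x j • ξ, ?_, ?_⟩)
  · rw [mem_orth_single]
    simp only [Pi.sub_apply, Pi.smul_apply, smul_eq_mul, sub_mul, Finset.sum_sub_distrib,
      mul_assoc, ← Finset.mul_sum]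
    rw [h0, mul_one]
    simp [Pi.single_apply]
  · funext K
    have h1 : ∑ i, ξ i * D K (x i) = 0 := by
      have h2 : D K (∑ i, ξ i * x i) = 0 := by
        rw [h0]
        exact (D K).map_one_eq_zero
      rw [map_sum] at h2
      rw [← h2]
      refine Finset.sum_congr rfl fun i _ => ?_
      rw [Derivation.leibniz, hξ K i, smul_zero, add_zero, smul_eq_mul]
    simp only [rowD, dp, Pi.sub_apply, Pi.smul_apply, smul_eq_mul, sub_mul,
      Finset.sum_sub_distrib, mul_assoc, ← Finset.mul_sum]
    rw [h1, mul_zero, sub_zero]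
    simp [Pi.single_apply]

end

end Pool.Agent.Lib.MP_44a246_ntA
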