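import Mathlib
import Pool.Agent.Lib.MP_44a246_ntA.P03
import Pool.Agent.Lib.MP_44a246_ntA.P04
import Pool.Agent.Lib.MP_44a246_ntA.P05
import Pool.Agent.Lib.MP_44a246_ntA.P06

/-!
# Step A (constant version), P06b: the height of the space of the rows of a pair

Paper 549, P4: the space `U_Λ`.
-/

namespace Pool.Agent.Lib.MP_44a246_ntA

open Pool.Agent.Lib.MP_44a246_nt
open Pool.Agent.Lib.MP_44a246_ntL
open Pool.Agent.Lib.MP_44a246_ntS
open Pool.Agent.Lib.MP_44a246_ntX
open Pool.Agent.Lib.MP_44a246_ntF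
open WithZero Module

section

variable {κ L : Type*} [Field κ] [IsAlgClosed κ] [CharZero κ] [Field L] [Algebra κ L]
  {E : Type*} [Fintype E] {D : E → Derivation ℤ L L} {ι : Type*} [Fintype ι] [DecidableEq ι]

/-- the dimension: `exists_adapted` (for any valuation, e.g. the trivial one), `map_thM`,
`Submodule.finrank_map_le`, `finrank_nn_le` -/
theorem finrank_UL_le {x : ι → L} (hx : x ≠ 0) {P : Submodule L (ι → L)}
    (hxP : x ∈ P) :
    finrank L (UL D x P) + 1 + finrank L P * finrank L P ≤
      finrank L P + finrank L P * Fintype.card ι := by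
  classical
  obtain ⟨M, N, k₀, S, -, -, -, hNM, -, h1, h2⟩ := exists_adapted (1 : Valuation L ℤᵐ⁰) hx hxP
  have h3 : (nn x P).map (thM D M N).mulVecLin = UL D x P := map_thM D hNM h1 h2
  have h4 : finrank L (UL D x P) ≤ finrank L (nn x P) := by
    rw [← h3]
    exact Submodule.finrank_map_le _ _
  have h5 := finrank_nn_le hx hxP
  omega

/-- a space of vectors with free coordinates.

Proof. It is the sum of the images of `B` and `⊤` under the two constant inclusions
(`ht_map_const_le`, `ht_sup_le`, `ht_top`). -/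
theorem ht_free_le (h : IsFF κ L) {σ Ext : Type*} [Fintype σ] [Fintype Ext]
    (B : Submodule L (σ → L)) {B' : Submodule L (σ ⊕ Ext → L)}
    (hB' : ∀ b, b ∈ B' ↔ (fun i => b (Sum.inl i)) ∈ B) : ht κ B' ≤ ht κ B := by
  classical
  let T1 : Matrix (σ ⊕ Ext) σ κ := fun p i => if p = Sum.inl i then 1 else 0
  let T2 : Matrix (σ ⊕ Ext) Ext κ := fun p i => if p = Sum.inr i then 1 else 0
  have e1 : ∀ b : σ → L, (T1.map (algebraMap κ L)).mulVec b = Sum.elim b (fun _ => 0) := by
    intro b
    funext p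
    cases p with
    | inl i =>
      simp [T1, Matrix.mulVec, dotProduct, Matrix.map_apply, apply_ite (algebraMap κ L)]
    | inr i =>
      simp [T1, Matrix.mulVec, dotProduct, Matrix.map_apply]
  have e2 : ∀ b : Ext → L, (T2.map (algebraMap κ L)).mulVec b = Sum.elim (fun _ => 0) b := by
    intro b
    funext p
    cases p with
    | inl i =>
      simp [T2, Matrix.mulVec, dotProduct, Matrix.map_apply]
    | inr i =>
      simp [T2, Matrix.mulVec, dotProduct, Matrix.map_apply, apply_ite (algebraMap κ L)]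
  have hle : B' = B.map (T1.map (algebraMap κ L)).mulVecLin ⊔
      (⊤ : Submodule L (Ext → L)).map (T2.map (algebraMap κ L)).mulVecLin := by
    apply le_antisymm
    · intro b hb
      rw [Submodule.mem_sup]
      refine ⟨_, ⟨fun i => b (Sum.inl i), (hB' b).1 hb, rfl⟩, _,
        ⟨fun i => b (Sum.inr i), trivial, rfl⟩, ?_⟩
      rw [Matrix.mulVecLin_apply, Matrix.mulVecLin_apply, e1, e2]
      funext p
      cases p <;> simp
    · refine sup_le ?_ ?_
      · rintro _ ⟨b, hb, rfl⟩
        rw [Matrix.mulVecLin_apply, e1, hB']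
        simpa using hb
      · rintro _ ⟨b, -, rfl⟩
        rw [Matrix.mulVecLin_apply, e2, hB']
        have : (fun i : σ => (Sum.elim (fun _ => 0) b : σ ⊕ Ext → L) (Sum.inl i)) = 0 := by
          funext i
          simp
        rw [this]
        exact B.zero_mem
  rw [hle]
  have h1 := ht_sup_le h (B.map (T1.map (algebraMap κ L)).mulVecLin)
    ((⊤ : Submodule L (Ext → L)).map (T2.map (algebraMap κ L)).mulVecLin)
  have h2 := ht_map_const_le h T1 B
  have h3 := ht_map_const_le h T2 (⊤ : Submodule L (Ext → L))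
  rw [ht_top h] at h3
  linarith

omit [IsAlgClosed κ] [CharZero κ] in
/-- the local bound -/
private theorem p06b_local (w : Place κ L) {Ext : Type*} [Fintype Ext] {x : ι → L} (hx : x ≠ 0)
    {P : Submodule L (ι → L)} (hxP : x ∈ P) {Ξ : Ext → E → L} {r : ℕ} {τ : ℤᵐ⁰}
    (hmix : ∀ (K : Fin r → E) (t : Fin r → L ⊕ Ext),
      (∀ i y, t i = Sum.inl y → w.1 y ≤ 1) →
      w.1 (Matrix.det (Matrix.of fun i j => Sum.elim (rowD D) Ξ (t i) (K j))) ≤ τ)
    {M N : Matrix ι ι L} (hNM : N * M = 1) {k₀ : ι} {S : Finset ι}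
    (h1 : Submodule.span L {fun j => M j k₀} = Submodule.span L {x})
    (h2 : Submodule.span L {y | ∃ k ∈ S, y = fun j => M j k} = P)
    (T : Matrix E ((ι × ι) ⊕ Ext) L)
    (hT : ∀ b, T.mulVec b = (thM D M N).mulVec (fun p => b (Sum.inl p)) +
      ∑ t, b (Sum.inr t) • Ξ t)
    (b : Fin r → (ι × ι) ⊕ Ext → L) (hb : ∀ i, (fun p => b i (Sum.inl p)) ∈ nn x P) :
    pl w.1 (fun i => T.mulVec (b i)) ≤ τ * pl w.1 b := by
  classical
  obtain ⟨M', N', k₀', S', hM', hN', -, hNM', -, h1', h2'⟩ := exists_adapted w.1 hx hxP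
  let col : (ι × ι) ⊕ Ext → E → L := Sum.elim (fun p => rowD D (M' p.1 p.2)) Ξ
  let R : Matrix ((ι × ι) ⊕ Ext) ((ι × ι) ⊕ Ext) L :=
    Matrix.of (Sum.elim
      (fun p => Sum.elim (fun q : ι × ι => if q.2 = p.1 then N' p.2 q.1 else 0) (fun _ => 0))
      (fun t => Sum.elim (fun _ => 0) (fun t' => if t' = t then 1 else 0)))
  have hR : ∀ k m, w.1 (R k m) ≤ 1 := by
    intro k m
    cases k with
    | inl p =>
      cases m with
      | inl q =>
        simp only [R, Matrix.of_apply, Sum.elim_inl]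
        split_ifs
        · exact hN' _ _
        · rw [map_zero]; exact zero_le
      | inr q =>
        simp only [R, Matrix.of_apply, Sum.elim_inl, Sum.elim_inr]
        rw [map_zero]; exact zero_le
    | inr t =>
      cases m with
      | inl q =>
        simp only [R, Matrix.of_apply, Sum.elim_inl, Sum.elim_inr]
        rw [map_zero]; exact zero_le
      | inr q =>
        simp only [R, Matrix.of_apply, Sum.elim_inr]
        split_ifs
        · rw [map_one]
        · rw [map_zero]; exact zero_le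
  have hRl : ∀ (c : (ι × ι) ⊕ Ext → L) (p : ι × ι),
      R.mulVec c (Sum.inl p) = ∑ l, N' p.2 l * c (Sum.inl (l, p.1)) := by
    intro c p
    simp only [R, Matrix.mulVec, dotProduct, Fintype.sum_sum_type, Matrix.of_apply, Sum.elim_inl,
      Sum.elim_inr, zero_mul, Finset.sum_const_zero, add_zero, Fintype.sum_prod_type, ite_mul]
    refine Finset.sum_congr rfl fun l _ => ?_
    rw [Finset.sum_ite_eq' Finset.univ p.1 (fun j => N' p.2 l * c (Sum.inl (l, j)))]
    simp
  have hRr : ∀ (c : (ι × ι) ⊕ Ext → L) (t : Ext),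
      R.mulVec c (Sum.inr t) = c (Sum.inr t) := by
    intro c t
    simp only [R, Matrix.mulVec, dotProduct, Fintype.sum_sum_type, Matrix.of_apply, Sum.elim_inl,
      Sum.elim_inr, zero_mul, Finset.sum_const_zero, zero_add, ite_mul, one_mul]
    rw [Finset.sum_ite_eq' Finset.univ t (fun t' => c (Sum.inr t'))]
    simp
  have hcomb : ∀ i, T.mulVec (b i) = fun K => ∑ c, R.mulVec (b i) c * col c K := by
    intro i
    rw [hT, thM_congr D hNM hNM' h1 h2 h1' h2' (hb i)]
    funext K
    rw [Pi.add_apply, Fintype.sum_sum_type, Finset.sum_apply]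
    congr 1
    · simp only [hRl]
      simp only [col, Sum.elim_inl, rowD, thM, Matrix.mulVec, dotProduct,
        Fintype.sum_prod_type, Finset.sum_mul]
      rw [Finset.sum_comm]
      refine Finset.sum_congr rfl fun j _ => ?_
      rw [Finset.sum_comm]
      refine Finset.sum_congr rfl fun k _ => ?_
      refine Finset.sum_congr rfl fun l _ => ?_
      ring
    · simp only [hRr, col, Sum.elim_inr, Pi.smul_apply, smul_eq_mul]
  have hcol : ∀ (f : Fin r → (ι × ι) ⊕ Ext) (K : Fin r → E),
      w.1 (Matrix.det (Matrix.of fun i j => col (f i) (K j))) ≤ τ := by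
    intro f K
    have h3 := hmix K (fun i => Sum.map (fun p : ι × ι => M' p.1 p.2) id (f i)) (by
      intro i y hy
      rcases hf : f i with p | t
      · rw [hf] at hy
        simp only [Sum.map_inl, Sum.inl.injEq] at hy
        rw [← hy]
        exact hM' _ _
      · rw [hf] at hy
        simp at hy)
    have h4 : (Matrix.of fun i j => Sum.elim (rowD D) Ξ
        (Sum.map (fun p : ι × ι => M' p.1 p.2) id (f i)) (K j)) =
        Matrix.of fun i j => col (f i) (K j) := by
      ext i j
      simp only [Matrix.of_apply, col]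
      rcases f i with p | t <;> rfl
    rw [h4] at h3
    exact h3
  have h5 := pl_comb_le w.1 hcol (fun i => R.mulVec (b i))
  have h6 := pl_map_le w.1 R hR b
  rw [one_pow, one_mul] at h6
  have h7 : (fun i => T.mulVec (b i)) = fun i K => ∑ c, R.mulVec (b i) c * col c K :=
    funext hcomb
  rw [h7]
  exact h5.trans (mul_le_mul_right h6 _)

/-- **The height of the space of the rows of a pair** and of further rows.

Proof. Let `M, N, k₀, S` be adapted (`exists_adapted` for any place, or the trivial valuation),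
`T : Matrix E ((ι × ι) ⊕ Ext) L := fun K => Sum.elim (thM D M N K) (fun t => Ξ t K)`,
`B = {b | b ∘ inl ∈ nn x P}`; `B.map T.mulVecLin = U` (`map_thM`). `ht_map_minor` for
`A = {b ∈ B | T b = 0}`, `B`, `A' = ⊥` gives `ht U ≤ ht B + ∑ τ`, `τ w = g w + s * δ w`,
`s = finrank B - finrank A = finrank U` (`finrank_sup_map`, `ht_bot`, `ht_nonneg`), and
`ht B ≤ ht (nn x P)` by `ht_free_le`, then `ht_nn_le`.
The local bound at `w` for `b : Fin s → _` in `B`: let `M', N', ..` be adapted for `w.1`;
`T (b i) = ∑_{(j, k)} (∑ l, N' k l * b i (inl (l, j))) • rowD D (M' j k) + ∑ b i (inr t) • Ξ t`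
(`thM_congr`); `pl_comb_le` for the columns `Sum.elim (fun p => rowD D (M' p.1 p.2)) Ξ` on the index
set `(ι × ι) ⊕ Ext`, whose minors are at most `exp (g w + s * δ w)` by `hmix`, and
`pl_map_le` (SA3, bound `1`) for the integral matrix which maps `b i` to the coefficients. -/
theorem ht_UL_le (h : IsFF κ L) {δ : Place κ L → ℕ} (hδ : (Function.support δ).Finite)
    {Ext : Type*} [Fintype Ext] {x : ι → L} (hx : x ≠ 0) {P : Submodule L (ι → L)} (hxP : x ∈ P)
    {Ξ : Ext → E → L} {g : Place κ L → ℤ} (hg : (Function.support g).Finite)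
    (hmix : ∀ (w : Place κ L) (r : ℕ) (K : Fin r → E) (t : Fin r → L ⊕ Ext),
      (∀ i y, t i = Sum.inl y → w.1 y ≤ 1) →
      w.1 (Matrix.det (Matrix.of fun i j => Sum.elim (rowD D) Ξ (t i) (K j))) ≤
        exp (g w + r * (δ w : ℤ)))
    {U : Submodule L (E → L)} (hU : U = UL D x P ⊔ Submodule.span L (Set.range Ξ)) :
    ht κ U ≤ finrank L P * height κ x + ((Fintype.card ι : ℤ) - 1) * ht κ P +
      finrank L U * ∑ᶠ w, (δ w : ℤ) + ∑ᶠ w, g w := by
  classical
  obtain ⟨M, N, k₀, S, -, -, -, hNM, -, h1, h2⟩ := exists_adapted (1 : Valuation L ℤᵐ⁰) hx hxP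
  let T : Matrix E ((ι × ι) ⊕ Ext) L := fun K => Sum.elim (thM D M N K) (fun t => Ξ t K)
  have hT : ∀ b, T.mulVec b = (thM D M N).mulVec (fun p => b (Sum.inl p)) +
      ∑ t, b (Sum.inr t) • Ξ t := by
    intro b
    funext K
    rw [Pi.add_apply, Finset.sum_apply]
    simp only [T, Matrix.mulVec, dotProduct, Fintype.sum_sum_type, Sum.elim_inl, Sum.elim_inr,
      Pi.smul_apply, smul_eq_mul]
    congr 1
    refine Finset.sum_congr rfl fun t _ => ?_
    ring
  let B : Submodule L ((ι × ι) ⊕ Ext → L) :=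
    (nn x P).comap (LinearMap.funLeft L L (Sum.inl : ι × ι → (ι × ι) ⊕ Ext))
  have hB : ∀ b, b ∈ B ↔ (fun p => b (Sum.inl p)) ∈ nn x P := fun b => Iff.rfl
  have hBU : B.map T.mulVecLin = U := by
    rw [hU, ← map_thM D hNM h1 h2]
    apply le_antisymm
    · rintro _ ⟨b, hb, rfl⟩
      rw [Matrix.mulVecLin_apply, hT]
      refine Submodule.add_mem_sup ⟨_, (hB b).1 hb, rfl⟩ ?_
      exact Submodule.sum_mem _ fun t _ => Submodule.smul_mem _ _ (Submodule.subset_span ⟨t, rfl⟩)
    · refine sup_le ?_ ?_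
      · rintro _ ⟨c, hc, rfl⟩
        refine ⟨Sum.elim c (fun _ => 0), ?_, ?_⟩
        · rw [SetLike.mem_coe, hB]
          simpa using hc
        · rw [Matrix.mulVecLin_apply, hT]
          simp
      · rw [Submodule.span_le]
        rintro _ ⟨t, rfl⟩
        refine ⟨Sum.elim (fun _ => 0) (Pi.single t 1), ?_, ?_⟩
        · rw [SetLike.mem_coe, hB]
          have : (fun p : ι × ι => (Sum.elim (fun _ => 0) (Pi.single t 1) :
              (ι × ι) ⊕ Ext → L) (Sum.inl p)) = 0 := by
            funext p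
            simp
          rw [this]
          exact Submodule.zero_mem _
        · rw [Matrix.mulVecLin_apply, hT]
          have e1 : (fun p : ι × ι => (Sum.elim (fun _ => 0) (Pi.single t 1) :
              (ι × ι) ⊕ Ext → L) (Sum.inl p)) = 0 := by
            funext p
            simp
          rw [e1, Matrix.mulVec_zero, zero_add]
          rw [Finset.sum_eq_single t]
          · simp
          · intro t' _ ht'
            simp [Pi.single_eq_of_ne ht']
          · intro h; exact absurd (Finset.mem_univ t) h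
  let A : Submodule L ((ι × ι) ⊕ Ext → L) := B ⊓ LinearMap.ker T.mulVecLin
  have hAB : A ≤ B := inf_le_left
  have hA : A.map T.mulVecLin ≤ (⊥ : Submodule L (E → L)) := by
    rintro _ ⟨b, hb, rfl⟩
    exact (Submodule.mem_bot L).2 (LinearMap.mem_ker.1 hb.2)
  have hinj : ∀ b ∈ B, T.mulVec b ∈ (⊥ : Submodule L (E → L)) → b ∈ A := fun b hb hb' =>
    ⟨hb, LinearMap.mem_ker.2 ((Submodule.mem_bot L).1 hb')⟩
  have hs : finrank L B - finrank L A = finrank L U := by
    have h3 := finrank_sup_map hAB T.mulVecLin hA (fun b hb hb' => hinj b hb hb')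
    rw [bot_sup_eq, hBU, finrank_bot] at h3
    omega
  let τ : Place κ L → ℤ := fun w => g w + ((finrank L B - finrank L A : ℕ) : ℤ) * (δ w : ℤ)
  have hδ' : (Function.support fun w : Place κ L =>
      ((finrank L B - finrank L A : ℕ) : ℤ) * (δ w : ℤ)).Finite := by
    refine hδ.subset fun w hw => ?_
    rw [Function.mem_support] at hw ⊢
    intro h0
    apply hw
    rw [h0, Nat.cast_zero, mul_zero]
  have hτ : (Function.support τ).Finite :=
    (hg.union hδ').subset (Function.support_add g _)
  have hmain := ht_map_minor h T hτ hAB hA hinj (fun w b hb => by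
    refine p06b_local w hx hxP (fun K t ht => hmix w _ K t ht) hNM h1 h2 T hT b
      fun i => (hB _).1 (hb i))
  rw [bot_sup_eq, hBU, ht_bot h, add_zero] at hmain
  have h3 : ∑ᶠ w, τ w = ∑ᶠ w, g w + (finrank L U : ℤ) * ∑ᶠ w, (δ w : ℤ) := by
    rw [finsum_add_distrib hg hδ', hs, ← mul_finsum]
  have h4 : ht κ B ≤ ht κ (nn x P) := ht_free_le h (nn x P) hB
  have h5 := ht_nn_le h hx hxP
  have h6 := ht_nonneg h A
  rw [h3] at hmain
  linarith

end

end Pool.Agent.Lib.MP_44a246_ntA
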