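import Mathlib
import Pool.Agent.Lib.MP_44a246_ntA.P06b

/-!
# Step A (constant version), P07: the rows of a pair, of integral elements and logarithmic rows

Paper 549, (4.b).
-/

namespace Pool.Agent.Lib.MP_44a246_ntA

open Pool.Agent.Lib.MP_44a246_nt
open Pool.Agent.Lib.MP_44a246_ntL
open Pool.Agent.Lib.MP_44a246_ntS
open Pool.Agent.Lib.MP_44a246_ntX
open Pool.Agent.Lib.MP_44a246_ntF
open WithZero Module

section

variable {κ L : Type*} [Field κ] [IsAlgClosed κ] [CharZero κ] [Field L] [Algebra κ L]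
  {E : Type*} [Fintype E] {D : E → Derivation ℤ L L} {δ ρ : Place κ L → ℕ}

/-- the rows of the integral elements and the logarithmic rows -/
noncomputable def XX {L : Type*} [Field L] {E : Type*} (D : E → Derivation ℤ L L) {γ Λ : Type*}
    (β : γ → L) (η : Λ → L) : γ ⊕ Λ → E → L :=
  Sum.elim (fun t => rowD D (β t)) (fun k => lrowD D (η k))

/-- Proof. `minor_log_le` (F20) with the family `s i` (`Sum.inl (β t)` for `t i = inr (inl t)`,
`Sum.inr (η k)` for `t i = inr (inr k)`), the bound of `minor_t` (F21), and its `ε` equal to `0` if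
`w.1 (η k) = 1` for all `k`, and `1` otherwise; in the second case `1 ≤ ε w`, or
`w.1 (η k) = vmax w.1 x ^ t k ≠ 1` for some `k`, so `vmax w.1 x ≠ 1` and
`1 ≤ log (vmax w.1 x)` because `1 ≤ vmax w.1 x`. -/
theorem XX_minor (hD : MinorBound κ D Set.univ δ ρ) {ι : Type*} [Fintype ι] {x : ι → L}
    (hx : ∀ w : Place κ L, 1 ≤ vmax w.1 x)
    {γ Λ : Type*} {β : γ → L} (hβ : ∀ t, ∀ w : Place κ L, w.1 (β t) ≤ 1) {η : Λ → L}
    (hη : ∀ k, η k ≠ 0) {t : Λ → ℕ} {ε : Place κ L → ℕ}
    (hηε : ∀ w : Place κ L, (∀ k, w.1 (η k) = vmax w.1 x ^ t k) ∨ 1 ≤ ε w)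
    (w : Place κ L) (r : ℕ) (K : Fin r → E) (s : Fin r → L ⊕ (γ ⊕ Λ))
    (hs : ∀ i y, s i = Sum.inl y → w.1 y ≤ 1) :
    w.1 (Matrix.det (Matrix.of fun i j => Sum.elim (rowD D) (XX D β η) (s i) (K j))) ≤
      exp ((ρ w + log (vmax w.1 x) + ε w) + r * (δ w : ℤ)) := by
  classical
  -- the logarithm of the norm of `x`
  have hlog : 0 ≤ log (vmax w.1 x) := by
    have h1 := log_le_log (one_ne_zero) (ne_of_gt (lt_of_lt_of_le zero_lt_one (hx w))) |>.mpr (hx w)
    rwa [log_one] at h1
  set s' : Fin r → L ⊕ L := fun i =>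
    Sum.elim Sum.inl (Sum.elim (fun t => Sum.inl (β t)) (fun k => Sum.inr (η k))) (s i) with hs'
  have e1 : (Matrix.of fun i j => Sum.elim (rowD D) (XX D β η) (s i) (K j)) =
      Matrix.of fun i j => Sum.elim (rowD D) (lrowD D) (s' i) (K j) := by
    ext i j
    rw [Matrix.of_apply, Matrix.of_apply]
    simp only [hs']
    rcases s i with y | t' | k
    · rfl
    · rfl
    · rfl
  have k1 : ∀ i y, s' i = Sum.inl y → w.1 y ≤ 1 := by
    intro i y hy
    simp only [hs'] at hy
    rcases hsi : s i with z | t' | k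
    · rw [hsi] at hy
      simp only [Sum.elim_inl, Sum.inl.injEq] at hy
      rw [← hy]
      exact hs i z hsi
    · rw [hsi] at hy
      simp only [Sum.elim_inr, Sum.elim_inl, Sum.inl.injEq] at hy
      rw [← hy]
      exact hβ t' w
    · rw [hsi] at hy
      simp at hy
  have k2 : ∀ i u, s' i = Sum.inr u → ∃ k, u = η k := by
    intro i u hu
    simp only [hs'] at hu
    rcases hsi : s i with z | t' | k
    · rw [hsi] at hu
      simp at hu
    · rw [hsi] at hu
      simp at hu
    · rw [hsi] at hu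
      simp only [Sum.elim_inr, Sum.inr.injEq] at hu
      exact ⟨k, hu.symm⟩
  have k3 : ∀ i u, s' i = Sum.inr u → u ≠ 0 := by
    intro i u hu
    obtain ⟨k, rfl⟩ := k2 i u hu
    exact hη k
  rw [e1]
  by_cases hall : ∀ k, w.1 (η k) = 1
  · have h2 := minor_log_le w (minor_t hD w r) K s' k1 k3 (ε := 0) (Or.inl (by
      intro i u hu
      obtain ⟨k, rfl⟩ := k2 i u hu
      exact hall k))
    refine h2.trans ?_
    rw [← exp_add, exp_le_exp]
    push_cast
    have h3 : (0 : ℤ) ≤ (ε w : ℤ) := Int.natCast_nonneg _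
    linarith
  · have h2 := minor_log_le w (minor_t hD w r) K s' k1 k3 (ε := 1) (Or.inr le_rfl)
    refine h2.trans ?_
    rw [← exp_add, exp_le_exp]
    push_cast
    have h3 : (1 : ℤ) ≤ log (vmax w.1 x) + (ε w : ℤ) := by
      rcases hηε w with h4 | h4
      · have h5 : (0 : ℤ) ≤ (ε w : ℤ) := Int.natCast_nonneg _
        have h6 : log (vmax w.1 x) ≠ 0 := by
          intro h0
          apply hall
          intro k
          have h7 : vmax w.1 x = 1 := by
            have h8 : vmax w.1 x ≠ 0 := ne_of_gt (lt_of_lt_of_le zero_lt_one (hx w))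
            rw [← exp_log h8, h0, exp_zero]
          rw [h4 k, h7, one_pow]
        omega
      · have h5 : (1 : ℤ) ≤ (ε w : ℤ) := by exact_mod_cast h4
        linarith
    linarith

/-- **The height of the space of the rows**, (4.b).

Proof. `ht_UL_le` with `g w = ρ w + log (vmax w.1 x) + ε w` and `XX_minor`; `height`,
`h.vmax_support`, `finsum_add_distrib`. -/
theorem ht_UL_rows_le (h : IsFF κ L) (hδ : (Function.support δ).Finite)
    (hρ : (Function.support ρ).Finite) (hD : MinorBound κ D Set.univ δ ρ)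
    {ι : Type*} [Fintype ι] [DecidableEq ι] {x : ι → L}
    (hx : ∀ w : Place κ L, 1 ≤ vmax w.1 x) (hx0 : x ≠ 0) {P : Submodule L (ι → L)} (hxP : x ∈ P)
    {γ Λ : Type*} [Fintype γ] [Fintype Λ] {β : γ → L} (hβ : ∀ t, ∀ w : Place κ L, w.1 (β t) ≤ 1)
    {η : Λ → L} (hη : ∀ k, η k ≠ 0) {t : Λ → ℕ} {ε : Place κ L → ℕ}
    (hε : (Function.support ε).Finite)
    (hηε : ∀ w : Place κ L, (∀ k, w.1 (η k) = vmax w.1 x ^ t k) ∨ 1 ≤ ε w)
    {U : Submodule L (E → L)}
    (hU : U = UL D x P ⊔ Submodule.span L (Set.range (XX D β η))) :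
    ht κ U ≤ (finrank L P + 1) * height κ x + ((Fintype.card ι : ℤ) - 1) * ht κ P +
      finrank L U * ∑ᶠ w, (δ w : ℤ) + (∑ᶠ w, (ρ w : ℤ) + ∑ᶠ w, (ε w : ℤ)) := by
  have s1 : (Function.support fun w : Place κ L => log (vmax w.1 x)).Finite :=
    h.vmax_support hx0
  have s2 : (Function.support fun w : Place κ L => (ρ w : ℤ)).Finite := by
    refine hρ.subset fun w hw h1 => hw ?_
    simp only
    rw [h1, Nat.cast_zero]
  have s3 : (Function.support fun w : Place κ L => (ε w : ℤ)).Finite := by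
    refine hε.subset fun w hw h1 => hw ?_
    simp only
    rw [h1, Nat.cast_zero]
  have s12 := (s2.union s1).subset (Function.support_add (fun w : Place κ L => (ρ w : ℤ))
    (fun w : Place κ L => log (vmax w.1 x)))
  have s123 := (s12.union s3).subset (Function.support_add
    (fun w : Place κ L => (ρ w : ℤ) + log (vmax w.1 x)) (fun w : Place κ L => (ε w : ℤ)))
  have h1 := ht_UL_le h hδ hx0 hxP (Ξ := XX D β η)
    (g := fun w => (ρ w : ℤ) + log (vmax w.1 x) + (ε w : ℤ)) s123
    (fun w r K t ht => XX_minor hD hx hβ hη hηε w r K t ht) hU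
  have e1 : ∑ᶠ w : Place κ L, ((ρ w : ℤ) + log (vmax w.1 x) + (ε w : ℤ)) =
      height κ x + (∑ᶠ w, (ρ w : ℤ) + ∑ᶠ w, (ε w : ℤ)) := by
    rw [finsum_add_distrib s12 s3, finsum_add_distrib s2 s1]
    have : ∑ᶠ w : Place κ L, log (vmax w.1 x) = height κ x := rfl
    rw [this]
    ring
  rw [e1] at h1
  linarith

/-- the dimension of the space of the rows: `finrank_UL_le` and `finrank_range_le_card` -/
theorem finrank_UL_rows_le {ι : Type*} [Fintype ι] [DecidableEq ι] {x : ι → L}
    (hx0 : x ≠ 0) {P : Submodule L (ι → L)} (hxP : x ∈ P)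
    {γ Λ : Type*} [Fintype γ] [Fintype Λ] {β : γ → L} {η : Λ → L} {U : Submodule L (E → L)}
    (hU : U = UL D x P ⊔ Submodule.span L (Set.range (XX D β η))) :
    finrank L U + 1 + finrank L P * finrank L P ≤ finrank L P + finrank L P * Fintype.card ι +
      (Fintype.card γ + Fintype.card Λ) := by
  classical
  have h1 := finrank_UL_le (D := D) hx0 hxP
  have h2 : finrank L (Submodule.span L (Set.range (XX D β η))) ≤
      Fintype.card γ + Fintype.card Λ := by
    have h3 := finrank_range_le_card (R := L) (XX D β η)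
    rwa [Fintype.card_sum] at h3
  have h4 := Submodule.finrank_add_le_finrank_add_finrank (UL D x P)
    (Submodule.span L (Set.range (XX D β η)))
  rw [hU]
  omega

end

end Pool.Agent.Lib.MP_44a246_ntA
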