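import Mathlib
import Pool.Agent.Lib.MP_44a246_ntF.F16
import Pool.Agent.Lib.MP_44a246_ntR.R04

/-!
# Step A (constant version), P08: constant combinations of the derivations

The passage from the coordinates of the space to `m` constant linear combinations of them.
-/

namespace Pool.Agent.Lib.MP_44a246_ntA

open Pool.Agent.Lib.MP_44a246_nt
open Pool.Agent.Lib.MP_44a246_ntL
open Pool.Agent.Lib.MP_44a246_ntS
open Pool.Agent.Lib.MP_44a246_ntX
open Pool.Agent.Lib.MP_44a246_ntG
open Pool.Agent.Lib.MP_44a246_ntK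
open Pool.Agent.Lib.MP_44a246_ntF
open Pool.Agent.Lib.MP_44a246_ntR
open Pool.Agent.Lib.MP_e52354_nt
open WithZero Module

section

variable {κ L : Type*} [Field κ] [Field L] [Algebra κ L] {S S' : Type*} [Fintype S]

/-- the constant combinations of a family of derivations -/
noncomputable def cD (C : Matrix S' S κ) (F : S → Derivation ℤ L L) (s : S') :
    Derivation ℤ L L := ∑ t, algebraMap κ L (C s t) • F t

theorem cD_apply (C : Matrix S' S κ) (F : S → Derivation ℤ L L) (s : S') (c : L) :
    cD C F s c = ∑ t, algebraMap κ L (C s t) * F t c := by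
  change (Derivation.coeFnAddMonoidHom (cD C F s)) c = _
  rw [cD, map_sum, Finset.sum_apply]
  rfl

/-- Proof. As `DatC.jF_minor` (K08). -/
theorem cD_minor {δ ρ : Place κ L → ℕ} (C : Matrix S' S κ) {F : S → Derivation ℤ L L}
    (hF : MinorBound κ F Set.univ δ ρ) : MinorBound κ (cD C F) Set.univ δ ρ := by
  classical
  intro w m K c _ hc
  have h1 : (Matrix.of fun i j => cD C F (K i) (c j)).det =
      (Matrix.detRowAlternating (R := L) (n := Fin m)).toMultilinearMap
        (fun i => ∑ t, algebraMap κ L (C (K i) t) • (fun j => F t (c j))) := by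
    change Matrix.det _ = Matrix.det _
    congr 1
    ext i j
    rw [Matrix.of_apply, cD_apply, Finset.sum_apply]
    rfl
  rw [h1, MultilinearMap.map_sum]
  refine Valuation.map_sum_le w.1 fun r _ => ?_
  rw [MultilinearMap.map_smul_univ, smul_eq_mul, map_mul, map_prod]
  have h2 : ∏ i, w.1 (algebraMap κ L (C (K i) (r i))) ≤ 1 := by
    refine Finset.prod_le_one' fun i _ => ?_
    by_cases h : C (K i) (r i) = 0
    · rw [h, map_zero, map_zero]; exact zero_le
    · exact (w.2.2 _ h).le
  have h3 : w.1 ((Matrix.detRowAlternating (R := L) (n := Fin m)).toMultilinearMap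
      (fun i => fun j => F (r i) (c j))) ≤ exp ((m * δ w + ρ w : ℕ) : ℤ) :=
    hF w m r c (fun i => Set.mem_univ _) hc
  calc _ ≤ 1 * exp ((m * δ w + ρ w : ℕ) : ℤ) := mul_le_mul' h2 h3
    _ = _ := one_mul _

theorem rowD_cD (C : Matrix S' S κ) (F : S → Derivation ℤ L L) (c : L) :
    rowD (cD C F) c = (C.map (algebraMap κ L)).mulVec (rowD F c) := by
  funext s
  exact cD_apply C F s c

theorem lrowD_cD (C : Matrix S' S κ) (F : S → Derivation ℤ L L) (c : L) :
    lrowD (cD C F) c = (C.map (algebraMap κ L)).mulVec (lrowD F c) := by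
  unfold lrowD
  rw [rowD_cD, Matrix.mulVec_smul]

end

end Pool.Agent.Lib.MP_44a246_ntA
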