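import Mathlib
import Pool.Agent.Lib.MP_44a246_ntF.F16
import Pool.Agent.Lib.MP_44a246_ntR.R04

/-!
# Step A (constant version), P08b: the matrices of the constant combinations

The passage from the coordinates of the space to `m` constant linear combinations of them.
-/

namespace Pool.Agent.Lib.MP_44a246_ntA

open Pool.Agent.Lib.MP_44a246_nt
open Pool.Agent.Lib.MP_44a246_ntL
open Pool.Agent.Lib.MP_44a246_ntS
open Pool.Agent.Lib.MP_44a246_ntX
open Pool.Agent.Lib.MP_44a246_ntG
open Pool.Agent.Lib.MP_44a246_ntK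
open Pool.Agent.Lib.MP_44a246_ntF
open Pool.Agent.Lib.MP_44a246_ntR
open Pool.Agent.Lib.MP_e52354_nt
open WithZero Module

section

variable {κ : Type*} [Field κ] {m n : ℕ}

/-- the linear form with the coefficients `l i` -/
noncomputable def lfm (l : Fin m → Fin n → κ) (i : Fin m) : MvPolynomial (Fin n) κ :=
  ∑ k, MvPolynomial.C (l i k) * MvPolynomial.X k

/-- the coefficients of the monomials in the linear forms -/
noncomputable def Cl (l : Fin m → Fin n → κ) (d : ℕ) : Matrix (EX m d) (EX n d) κ :=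
  fun I K => (∏ i, lfm l i ^ (I.1 i)).coeff K.1

open Classical in
/-- the same for several forms -/
noncomputable def ClB (l : Fin m → Fin n → κ) {p : ℕ} (d : Fin p → ℕ) :
    Matrix (ES m d) (ES n d) κ :=
  fun s t => if s.1 = t.1 then (∏ i, lfm l i ^ (s.2.1 i)).coeff t.2.1 else 0

/-- the values of the linear forms -/
noncomputable def lx {L : Type*} [Field L] [Algebra κ L] (l : Fin m → Fin n → κ)
    (x : Fin n → L) : Fin m → L := fun i => ∑ k, algebraMap κ L (l i k) * x k

private theorem lfm_hom (l : Fin m → Fin n → κ) (i : Fin m) : (lfm l i).IsHomogeneous 1 := by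
  unfold lfm
  refine MvPolynomial.IsHomogeneous.sum _ _ _ fun k _ => ?_
  have h1 := (MvPolynomial.isHomogeneous_C (Fin n) (l i k)).mul (MvPolynomial.isHomogeneous_X κ k)
  rwa [zero_add] at h1

private theorem prod_hom (l : Fin m → Fin n → κ) {d : ℕ} (I : EX m d) :
    (∏ i, lfm l i ^ (I.1 i)).IsHomogeneous d := by
  have h1 : (∏ i, lfm l i ^ (I.1 i)).IsHomogeneous (∑ i, 1 * I.1 i) :=
    MvPolynomial.IsHomogeneous.prod _ _ _ fun i _ => (lfm_hom l i).pow _
  have h2 : ∑ i, 1 * I.1 i = d := by
    have h3 := mem_expo.1 I.2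
    rw [Finsupp.degree_eq_sum] at h3
    exact (Finset.sum_congr rfl fun i _ => one_mul _).trans h3
  rwa [h2] at h1

private theorem lfm_eval {L : Type*} [Field L] [Algebra κ L] (l : Fin m → Fin n → κ) (i : Fin m)
    (x : Fin n → L) : MvPolynomial.aeval x (lfm l i) = lx l x i := by
  unfold lfm lx
  rw [map_sum]
  refine Finset.sum_congr rfl fun k _ => ?_
  rw [map_mul, MvPolynomial.aeval_C, MvPolynomial.aeval_X]

/-- Proof. The product of the linear forms is homogeneous of degree `d`; evaluate it at `x`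
(`MvPolynomial.eval₂`/`aeval`), compare `DatG.Kf_eval'` (G1). -/
theorem Cl_xm {L : Type*} [Field L] [Algebra κ L] (l : Fin m → Fin n → κ) (d : ℕ)
    (x : Fin n → L) :
    ((Cl l d).map (algebraMap κ L)).mulVec (xm d x) = xm d (lx l x) := by
  classical
  funext I
  have h1 : ∑ K ∈ expo (Fin n) d, algebraMap κ L ((∏ i, lfm l i ^ (I.1 i)).coeff K) * mon x K =
      MvPolynomial.aeval x (∏ i, lfm l i ^ (I.1 i)) := by
    rw [MvPolynomial.aeval_def, MvPolynomial.eval₂_eq']
    symm
    refine Finset.sum_subset ?_ ?_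
    · intro K hK
      rw [mem_expo]
      have h1 := prod_hom l I (MvPolynomial.mem_support_iff.1 hK)
      rw [← h1, Finsupp.degree_eq_weight_one]
      rfl
    · intro K _ hK
      rw [MvPolynomial.notMem_support_iff.1 hK, map_zero, zero_mul]
  have h2 : MvPolynomial.aeval x (∏ i, lfm l i ^ (I.1 i)) = xm d (lx l x) I := by
    rw [map_prod]
    unfold xm mon
    refine Finset.prod_congr rfl fun i _ => ?_
    rw [map_pow, lfm_eval]
  rw [← h2, ← h1, ← Finset.sum_coe_sort]
  rfl

private theorem clB_block' {L : Type*} [Field L] [Algebra κ L] (l : Fin m → Fin n → κ) {p : ℕ}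
    (d : Fin p → ℕ) (u : ES n d → L) (j : Fin p) :
    (fun I : EX m (d j) => ((ClB l d).map (algebraMap κ L)).mulVec u ⟨j, I⟩) =
      ((Cl l (d j)).map (algebraMap κ L)).mulVec (fun K => u ⟨j, K⟩) := by
  classical
  funext I
  rw [Matrix.mulVec, dotProduct, Fintype.sum_sigma, Finset.sum_eq_single j]
  · rw [Matrix.mulVec, dotProduct]
    refine Finset.sum_congr rfl fun K _ => ?_
    rw [Matrix.map_apply, Matrix.map_apply]
    unfold ClB Cl
    simp
  · intro i _ hij
    refine Finset.sum_eq_zero fun K _ => ?_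
    rw [Matrix.map_apply]
    unfold ClB
    rw [if_neg (fun h => hij h.symm), map_zero, zero_mul]
  · intro h
    exact absurd (Finset.mem_univ _) h

/-- Proof. Block by block, `Cl_xm`. -/
theorem ClB_xB {L : Type*} [Field L] [Algebra κ L] (l : Fin m → Fin n → κ) {p : ℕ}
    (d : Fin p → ℕ) (x : Fin n → L) (j : Fin p) :
    ((ClB l d).map (algebraMap κ L)).mulVec (xB d j x) = xB d j (lx l x) := by
  funext s
  obtain ⟨i, I⟩ := s
  have h0 := congrFun (clB_block' l d (xB d j x) i) I
  refine h0.trans ?_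
  have h1 : (fun K : EX n (d i) => xB d j x ⟨i, K⟩) = resB i (xB d j x) := rfl
  rw [h1]
  rcases eq_or_ne i j with rfl | hij
  · rw [resB_xB_self, Cl_xm]
    unfold xB
    rw [if_pos rfl]
  · rw [resB_xB_ne hij, Matrix.mulVec_zero]
    unfold xB
    rw [if_neg hij]
    rfl

/-- Proof. `Matrix.mulVec`, the sum over the sigma type: the terms of the other blocks vanish. -/
theorem ClB_block {L : Type*} [Field L] [Algebra κ L] (l : Fin m → Fin n → κ) {p : ℕ}
    (d : Fin p → ℕ) (u : ES n d → L) (j : Fin p) :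
    (fun I : EX m (d j) => ((ClB l d).map (algebraMap κ L)).mulVec u ⟨j, I⟩) =
      ((Cl l (d j)).map (algebraMap κ L)).mulVec (fun K => u ⟨j, K⟩) :=
  clB_block' l d u j

/-- Proof. `piece κ W j` is the space of the `j`-th blocks of the elements of `flag W j`
(`mem_flag`, `prj_mulVec`); `ClB_block`. -/
theorem piece_ClB {L : Type*} [Field L] [Algebra κ L] (l : Fin m → Fin n → κ) {p : ℕ}
    (d : Fin p → ℕ) {W : Submodule L (ES n d → L)} {j : Fin p} {v : EX n (d j) → L}
    (hv : v ∈ piece κ W j) :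
    ((Cl l (d j)).map (algebraMap κ L)).mulVec v ∈
      piece κ (W.map ((ClB l d).map (algebraMap κ L)).mulVecLin) j := by
  obtain ⟨u, hu, rfl⟩ := hv
  refine ⟨((ClB l d).map (algebraMap κ L)).mulVec u, ⟨⟨u, hu.1, rfl⟩, ?_⟩, ?_⟩
  · rintro ⟨i, I⟩ hi
    have h1 := congrFun (clB_block' l d u i) I
    refine h1.trans ?_
    have h2 : (fun K : EX n (d i) => u ⟨i, K⟩) = 0 := by
      funext K
      exact hu.2 ⟨i, K⟩ hi
    rw [h2, Matrix.mulVec_zero]
    rfl
  · rw [Matrix.mulVecLin_apply, Matrix.mulVecLin_apply, prj_mulVec, prj_mulVec]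
    exact clB_block' l d u j

end

section

variable {κ L : Type*} [Field κ] [Field L] [Algebra κ L] {m d : ℕ}

/-- the restriction of the functionals to the forms in the first three variables -/
noncomputable def R3 (κ : Type*) [Field κ] (m d : ℕ) : Matrix (M3 d) (EX (3 + m) d) κ :=
  fun K I => if I.1 = K.1.mapDomain (Fin.castAdd m) then 1 else 0

/-- Proof. Exactly one `I` contributes: `K.1.mapDomain (Fin.castAdd m)` has degree `d`, and
`∏ i, x i ^ (mapDomain ..) i = ∏ i, x (Fin.castAdd m i) ^ K i` (`Fin.prod_univ_add`,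
`Finsupp.mapDomain_apply`, `Finsupp.mapDomain_notin_range`). -/
theorem R3_xm (x : Fin (3 + m) → L) :
    ((R3 κ m d).map (algebraMap κ L)).mulVec (xm d x) = xi d (fun i => x (Fin.castAdd m i)) := by
  classical
  funext K
  have hdeg : (K.1.mapDomain (Fin.castAdd m)) ∈ expo (Fin (3 + m)) d := by
    rw [mem_expo, Finsupp.degree_mapDomain]
    exact mem_expo.1 K.2
  rw [Matrix.mulVec, dotProduct, Finset.sum_eq_single (⟨_, hdeg⟩ : EX (3 + m) d)]
  · rw [Matrix.map_apply]
    unfold R3
    rw [if_pos rfl, map_one, one_mul]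
    unfold xm mon xi
    rw [Fin.prod_univ_add]
    have h1 : ∀ i : Fin m, K.1.mapDomain (Fin.castAdd m) (Fin.natAdd 3 i) = 0 := by
      intro i
      refine Finsupp.mapDomain_of_notMem_range _ _ ?_
      rintro ⟨k, hk⟩
      have h2 := congrArg Fin.val hk
      rw [Fin.val_castAdd, Fin.val_natAdd] at h2
      omega
    rw [Finset.prod_eq_one (s := (Finset.univ : Finset (Fin m))) (fun i _ => by rw [h1, pow_zero]),
      mul_one]
    refine Finset.prod_congr rfl fun i _ => ?_
    rw [Finsupp.mapDomain_apply (Fin.castAdd_injective 3 m)]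
  · intro I _ hI
    rw [Matrix.map_apply]
    unfold R3
    rw [if_neg, map_zero, zero_mul]
    intro h
    exact hI (Subtype.ext h)
  · intro h
    exact absurd (Finset.mem_univ _) h

end

end Pool.Agent.Lib.MP_44a246_ntA
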