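import Mathlib
import Pool.Agent.Lib.MP_44a246_ntC.C25
import Pool.Agent.Lib.MP_44a246_ntA.P07
import Pool.Agent.Lib.MP_44a246_ntA.P08
import Pool.Agent.Lib.MP_44a246_ntA.P08b

/-!
# Step A (constant version), P09: the coordinates

The point is replaced by the vector of `3 + r₀` constant linear combinations of its coordinates:
`1`, the two further coordinates of the point of the plane, and `r₀` coordinates whose rows
generate the space of the rows.
-/

namespace Pool.Agent.Lib.MP_44a246_ntA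

open Pool.Agent.Lib.MP_44a246_nt
open Pool.Agent.Lib.MP_44a246_ntL
open Pool.Agent.Lib.MP_44a246_ntS
open Pool.Agent.Lib.MP_44a246_ntX
open Pool.Agent.Lib.MP_44a246_ntG
open Pool.Agent.Lib.MP_44a246_ntK
open Pool.Agent.Lib.MP_44a246_ntF
open Pool.Agent.Lib.MP_44a246_ntR (fL xsp)
open Pool.Agent.Lib.MP_44a246_ntC
open Pool.Agent.Lib.MP_e52354_nt
open Pool.Agent.Lib.MP_e52354_ntF (combF combF_span)
open WithZero Module

section

variable {κ L : Type*} [Field κ] [Field L] [Algebra κ L] {n p : ℕ} {d : Fin p → ℕ}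
  (X : DatC κ (L := L) n d)

/-- Proof. `exists_Jf` (F16) gives `J`; let `f : Fin r₀ → Fin (n + 1)` have the image `J`
(`J.Nonempty`, `J.card ≤ r₀`), and `l = Fin.append ![fun j => (X.ξ₀ j : κ), fun j => (X.ξ₁ j : κ),
X.z] (fun i => Pi.single (f i) 1)`; `Fin.append_left`, `Fin.append_right`. The first coordinate of
`lx l X.x` is `1` (`X.h0`). `vmax w.1 (lx l X.x) ≤ vmax w.1 X.x`: constant combinations;
`≥`: `X.hmax`. -/
theorem exists_coords {r₀ : ℕ} (hr : 1 ≤ r₀) (hU : finrank L (fU X) ≤ r₀) :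
    ∃ l : Fin (3 + r₀) → Fin (n + 1) → κ,
      (∀ i : Fin 3, lx l X.x (Fin.castAdd r₀ i) = X.pt i) ∧
      (∀ w : Place κ L, vmax w.1 (lx l X.x) = vmax w.1 X.x) ∧
      fU X ≤ Submodule.span L (Set.range fun i => rowD (fD X) (lx l X.x i)) := by
  classical
  obtain ⟨J, ⟨j₀, hj₀⟩, hJc, hJs⟩ := exists_Jf X hr hU
  obtain ⟨f, hf⟩ : ∃ f : Fin r₀ → Fin (n + 1), ∀ j ∈ J, ∃ i, f i = j := by
    refine ⟨fun i => if h : i.1 < J.card then (J.equivFin.symm ⟨i.1, h⟩).1 else j₀, ?_⟩
    intro j hj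
    refine ⟨⟨(J.equivFin ⟨j, hj⟩).1, lt_of_lt_of_le (J.equivFin ⟨j, hj⟩).2 hJc⟩, ?_⟩
    show (if h : ((J.equivFin ⟨j, hj⟩).1 : ℕ) < J.card then
      ((J.equivFin.symm ⟨(J.equivFin ⟨j, hj⟩).1, h⟩).1 : Fin (n + 1)) else j₀) = j
    rw [dif_pos (J.equivFin ⟨j, hj⟩).2]
    simp
  refine ⟨Fin.append ![fun j => (X.ξ₀ j : κ), fun j => (X.ξ₁ j : κ), X.z]
    (fun i => Pi.single (f i) 1), ?_⟩
  set l : Fin (3 + r₀) → Fin (n + 1) → κ :=
    Fin.append ![fun j => (X.ξ₀ j : κ), fun j => (X.ξ₁ j : κ), X.z]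
    (fun i => Pi.single (f i) 1) with hl
  have h1 : ∀ i : Fin 3, lx l X.x (Fin.castAdd r₀ i) = X.pt i := by
    intro i
    unfold lx
    rw [hl, Fin.append_left]
    fin_cases i
    · have := X.h0
      simpa [DatC.pt] using this
    · simp [DatC.pt]
    · simp [DatC.pt]
  have h2 : ∀ i : Fin r₀, lx l X.x (Fin.natAdd 3 i) = X.x (f i) := by
    intro i
    unfold lx
    rw [hl, Fin.append_right, Finset.sum_eq_single (f i)]
    · rw [Pi.single_eq_same, map_one, one_mul]
    · intro k _ hk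
      rw [Pi.single_eq_of_ne hk, map_zero, zero_mul]
    · intro h
      exact absurd (Finset.mem_univ _) h
  refine ⟨h1, ?_, ?_⟩
  · intro w
    apply le_antisymm
    · refine vmax_le w.1 fun i => ?_
      unfold lx
      refine Valuation.map_sum_le w.1 fun k _ => ?_
      rw [map_mul]
      have h3 : w.1 (algebraMap κ L (l i k)) ≤ 1 := by
        by_cases h : l i k = 0
        · rw [h, map_zero, map_zero]; exact zero_le
        · exact (w.2.2 _ h).le
      calc _ ≤ 1 * vmax w.1 X.x := mul_le_mul' h3 (le_vmax w.1 X.x k)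
        _ = _ := one_mul _
    · refine (X.hmax w).trans (max_le ?_ ?_)
      · have h3 := le_vmax w.1 (lx l X.x) (Fin.castAdd r₀ 0)
        rw [h1 0] at h3
        have h4 : X.pt 0 = 1 := rfl
        rwa [h4, map_one] at h3
      · have h3 := le_vmax w.1 (lx l X.x) (Fin.castAdd r₀ 1)
        rw [h1 1] at h3
        exact h3
  · refine hJs.trans (Submodule.span_mono ?_)
    rintro _ ⟨⟨j, hj⟩, rfl⟩
    obtain ⟨i, hi⟩ := hf j hj
    refine ⟨Fin.natAdd 3 i, ?_⟩
    show rowD (fD X) (lx l X.x (Fin.natAdd 3 i)) = rowD (fD X) (X.x j)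
    rw [h2 i, hi]

/-- the space of all rows is mapped into the space of the rows of a pair.

Proof. `rowD_cD`, `lrowD_cD` (P08): the image of `fU X` is contained in the span of the rows
`rowD (cD (ClB l d) (fD X)) (lx l X.x i)`, which are in `UL` by `rowD_mem_UL` with
`ξ = Pi.single (Fin.castAdd r₀ 0) 1` (`lx l X.x (Fin.castAdd r₀ 0) = X.pt 0 = 1`); the images of
`fB X β`, `fL X η` are spanned by rows of `XX`. -/
theorem map_rows_le {r₀ : ℕ} {l : Fin (3 + r₀) → Fin (n + 1) → κ}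
    (h1 : ∀ i : Fin 3, lx l X.x (Fin.castAdd r₀ i) = X.pt i)
    (h2 : fU X ≤ Submodule.span L (Set.range fun i => rowD (fD X) (lx l X.x i)))
    {γ Λ : Type*} (β : γ → L) (η : Λ → L) (P : Submodule L (Fin (3 + r₀) → L)) :
    (fU X ⊔ fB X β ⊔ fL X η).map ((ClB l d).map (algebraMap κ L)).mulVecLin ≤
      UL (cD (ClB l d) (fD X)) (lx l X.x) P ⊔
        Submodule.span L (Set.range (XX (cD (ClB l d) (fD X)) β η)) := by
  classical
  rw [Submodule.map_sup, Submodule.map_sup]
  refine sup_le (sup_le ?_ ?_) ?_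
  · refine le_trans ?_ le_sup_left
    refine (Submodule.map_mono h2).trans ?_
    rw [Submodule.map_span_le]
    rintro _ ⟨i, rfl⟩
    rw [Matrix.mulVecLin_apply, ← rowD_cD]
    refine rowD_mem_UL (cD (ClB l d) (fD X)) (ξ := Pi.single (Fin.castAdd r₀ 0) 1) ?_ ?_ i
    · intro K k
      by_cases hk : k = Fin.castAdd r₀ 0
      · rw [hk, Pi.single_eq_same]
        exact Derivation.map_one_eq_zero _
      · rw [Pi.single_eq_of_ne hk, map_zero]
    · rw [Finset.sum_eq_single (Fin.castAdd r₀ (0 : Fin 3))]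
      · rw [Pi.single_eq_same, one_mul, h1 0]
        rfl
      · intro k _ hk
        rw [Pi.single_eq_of_ne hk, zero_mul]
      · intro h
        exact absurd (Finset.mem_univ _) h
  · refine le_trans ?_ le_sup_right
    unfold fB
    rw [Submodule.map_span_le]
    rintro _ ⟨t, rfl⟩
    rw [Matrix.mulVecLin_apply, ← rowD_cD]
    exact Submodule.subset_span ⟨Sum.inl t, rfl⟩
  · refine le_trans ?_ le_sup_right
    unfold fL
    rw [Submodule.map_span_le]
    rintro _ ⟨k, rfl⟩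
    rw [Matrix.mulVecLin_apply, ← lrowD_cD]
    exact Submodule.subset_span ⟨Sum.inr k, rfl⟩

/-- Proof. As `map_rows_le`, with `combF X` (`combF_span`, `map_fL`; see the proof of `finrank_QL`
in C25), and as `piece_ClB`: for `u ∈ flag W j` with the `j`-th block `xm (d j) X.x`, `combF X u` is
in `flag (W.map (combF X)) j` and its `j`-th block is `xi (d j) X.pt` (compare `combF_xB`, C14). -/
theorem xi_mem_gall {γ Λ : Type*} {β : γ → L} {η : Λ → L} {j : Fin p}
    (h : xm (d j) X.x ∈ piece κ (fU X ⊔ fB X β ⊔ fL X η) j) :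
    xi (d j) X.pt ∈ piece κ (gall X β η) j := by
  obtain ⟨u, hu, hu2⟩ := h
  rw [Matrix.mulVecLin_apply, prj_mulVec] at hu2
  refine ⟨combF X u, ⟨?_, ?_⟩, ?_⟩
  · have h2 : (fU X).map (combF X) = gspan X.jF X.x := combF_span X X.x
    have h3 : (fB X β).map (combF X) = gspan X.jF β := combF_span X β
    have h4 : combF X u ∈ (fU X ⊔ fB X β ⊔ fL X η).map (combF X) := ⟨u, hu.1, rfl⟩
    rw [Submodule.map_sup, Submodule.map_sup, h2, h3, map_fL] at h4
    rw [gall, ← sup_assoc]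
    exact h4
  · intro s hs
    show ∑ I : EX (n + 1) (d s.1), algebraMap κ L (((X.blk s.1).Kf s.2).coeff I.1) *
      u ⟨s.1, I⟩ = 0
    refine Finset.sum_eq_zero fun I _ => ?_
    rw [hu.2 ⟨s.1, I⟩ hs, mul_zero]
  · rw [Matrix.mulVecLin_apply, prj_mulVec]
    funext K
    show ∑ I : EX (n + 1) (d j), algebraMap κ L (((X.blk j).Kf K).coeff I.1) *
      u ⟨j, I⟩ = _
    have h1 : xi (d j) X.pt K = xi (d j) (X.blk j).p K := by rw [X.blk_p]
    rw [h1, ← (X.blk j).Kf_eval' K]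
    refine Eq.trans ?_ (Finset.sum_coe_sort (expo (Fin (n + 1)) (d j))
      (fun I => algebraMap κ L (((X.blk j).Kf K).coeff I) * mon X.x I))
    refine Finset.sum_congr rfl fun I _ => ?_
    have h5 : u ⟨j, I⟩ = xm (d j) X.x I := congrFun hu2 I
    rw [h5]
    rfl

end

end Pool.Agent.Lib.MP_44a246_ntA
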