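import Mathlib
import Pool.Agent.Lib.MP_44a246_ntO.O00
import Pool.Agent.Lib.MP_44a246_ntO.O10
import Pool.Agent.Lib.MP_44a246_ntA.P07
import Pool.Agent.Lib.MP_44a246_ntF.F13

/-!
# Step A (constant version), P10: the pair hypothesis

Paper 549, (4.b), several blocks.
-/

namespace Pool.Agent.Lib.MP_44a246_ntA

open Pool.Agent.Lib.MP_44a246_nt
open Pool.Agent.Lib.MP_44a246_ntL
open Pool.Agent.Lib.MP_44a246_ntS
open Pool.Agent.Lib.MP_44a246_ntX
open Pool.Agent.Lib.MP_44a246_ntK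
open Pool.Agent.Lib.MP_44a246_ntF
open Pool.Agent.Lib.MP_44a246_ntO (PairHyp)
open WithZero Module

/-- the average: Proof. Otherwise sum the inequalities. -/
theorem exists_ge_average {g : ℕ} (hg : 1 ≤ g) (f : Fin g → ℝ) {B : ℝ} (h : B ≤ ∑ i, f i) :
    ∃ i, B ≤ g * f i := by
  by_contra hcon
  push Not at hcon
  haveI : Nonempty (Fin g) := ⟨⟨0, hg⟩⟩
  have h1 : ∑ i : Fin g, (g : ℝ) * f i < ∑ _i : Fin g, B :=
    Finset.sum_lt_sum_of_nonempty Finset.univ_nonempty fun i _ => hcon i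
  rw [← Finset.mul_sum, Finset.sum_const, Finset.card_univ, Fintype.card_fin, nsmul_eq_mul] at h1
  have hg0 : (0 : ℝ) < g := by exact_mod_cast hg
  have h2 := lt_of_mul_lt_mul_left h1 hg0.le
  linarith

/-- **The pair hypothesis.**

Proof. Let `P` contain `x`, `λ = finrank L P`, `U = UL F x P ⊔ span (range (XX F β η))`,
`H = height κ x`. `ht_UL_rows_le`, `finrank_UL_rows_le` (with `ι = Fin m`):
`finrank U + 1 + λ² ≤ λ + λ m + c`, `ht U ≤ (λ + 1) H + (m - 1) ht P + finrank U * Δ + R`.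
`xm (d (e i)) x ∈ piece κ U (e i)` by `hW`, `hWU`, `piece_mono`. Sum over `i : Fin g`, by
`ht_piece`, `finrank_piece` (`e` is injective, all terms are nonnegative):
`∑ i (d (e i) H - ht (piece) - t (finrank (piece) - 1)) ≥ (k + m + 1) H - ht U - t (finrank U - g)`,
which is at least `(k - (λ - 1)) H + (m - 1) (H - ht P) - t (λ (m - 1) + c) - E`, because
`finrank U - g ≤ λ (m - 1) + c` and `finrank U ≤ m * m + c`. Then `exists_ge_average`. -/
theorem pairHyp {κ L : Type*} [Field κ] [IsAlgClosed κ] [CharZero κ] [Field L] [Algebra κ L]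
    (h : IsFF κ L) {m p g k c : ℕ} (hm : 1 ≤ m) (hg : 1 ≤ g) {d : Fin p → ℕ}
    {F : ES m d → Derivation ℤ L L} {δ ρ : Place κ L → ℕ}
    (hδ : (Function.support δ).Finite) (hρ : (Function.support ρ).Finite)
    (hD : MinorBound κ F Set.univ δ ρ) {x : Fin m → L}
    (hx : ∀ w : Place κ L, 1 ≤ vmax w.1 x) (hx0 : x ≠ 0)
    {γ Λ : Type*} [Fintype γ] [Fintype Λ] (hc : Fintype.card γ + Fintype.card Λ ≤ c)
    {β : γ → L} (hβ : ∀ t, ∀ w : Place κ L, w.1 (β t) ≤ 1)
    {η : Λ → L} (hη : ∀ k, η k ≠ 0) {t : Λ → ℕ} {ε : Place κ L → ℕ}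
    (hε : (Function.support ε).Finite)
    (hηε : ∀ w : Place κ L, (∀ k, w.1 (η k) = vmax w.1 x ^ t k) ∨ 1 ≤ ε w)
    {e : Fin g → Fin p} (he : Function.Injective e) (hk : k + m + 1 ≤ ∑ i, d (e i))
    {W : Submodule L (ES m d → L)} (hW : ∀ i, xm (d (e i)) x ∈ piece κ W (e i))
    (hWU : ∀ P : Submodule L (Fin m → L), x ∈ P →
      W ≤ UL F x P ⊔ Submodule.span L (Set.range (XX F β η)))
    {E : ℝ} (hE : ((m * m + c : ℕ) * ∑ᶠ w, (δ w : ℤ) + (∑ᶠ w, (ρ w : ℤ) + ∑ᶠ w, (ε w : ℤ)) : ℤ) ≤ E) :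
    PairHyp κ x (fun i => d (e i)) g (m - 1) c k E := by
  classical
  intro P hxP τ hτ
  set U : Submodule L (ES m d → L) :=
    UL F x P ⊔ Submodule.span L (Set.range (XX F β η)) with hU
  have h1 := ht_UL_rows_le h hδ hρ hD hx hx0 hxP hβ hη hε hηε hU
  have h2 := finrank_UL_rows_le hx0 hxP (β := β) (η := η) hU
  rw [Fintype.card_fin] at h1 h2
  have hmem : ∀ i : Fin g, xm (d (e i)) x ∈ piece κ U (e i) := fun i =>
    piece_mono (hWU P hxP) (e i) (hW i)
  obtain ⟨h3, h4⟩ := ht_piece h U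
  have h5 : ∑ i : Fin g, ht κ (piece κ U (e i)) ≤ ht κ U := by
    refine le_trans ?_ h3
    have h51 := Finset.sum_map Finset.univ ⟨e, he⟩ (fun j => ht κ (piece κ U j))
    simp only [Function.Embedding.coeFn_mk] at h51
    rw [← h51]
    exact Finset.sum_le_sum_of_subset_of_nonneg (Finset.subset_univ _)
      fun j _ _ => ht_nonneg h _
  have h6 : ∑ i : Fin g, finrank L (piece κ U (e i)) ≤ finrank L U := by
    refine le_trans ?_ h4
    have h61 := Finset.sum_map Finset.univ ⟨e, he⟩ (fun j => finrank L (piece κ U j))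
    simp only [Function.Embedding.coeFn_mk] at h61
    rw [← h61]
    exact Finset.sum_le_sum_of_subset_of_nonneg (Finset.subset_univ _)
      fun j _ _ => Nat.zero_le _
  have hHn : 0 ≤ height κ x := h.height_nonneg hx0
  have hΔ : 0 ≤ ∑ᶠ w, (δ w : ℤ) := finsum_nonneg fun w => Int.natCast_nonneg _
  generalize hΔd : ∑ᶠ w, (δ w : ℤ) = Δ at h1 hE hΔ
  generalize hRd : (∑ᶠ w, (ρ w : ℤ) + ∑ᶠ w, (ε w : ℤ)) = R at h1 hE
  -- real versions
  have h5R : ∑ i : Fin g, (ht κ (piece κ U (e i)) : ℝ) ≤ ht κ U := by exact_mod_cast h5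
  have h6R : ∑ i : Fin g, (finrank L (piece κ U (e i)) : ℝ) ≤ finrank L U := by
    exact_mod_cast h6
  have h1R : (ht κ U : ℝ) ≤ (finrank L P + 1) * height κ x + ((m : ℝ) - 1) * ht κ P +
      finrank L U * Δ + R := by exact_mod_cast h1
  have hER : ((m : ℝ) * m + c) * Δ + R ≤ E := by
    have := hE
    push_cast at this
    exact this
  have h2R : (finrank L U : ℝ) + 1 + (finrank L P : ℝ) * finrank L P ≤
      finrank L P + (finrank L P : ℝ) * m + c := by
    have h21 : finrank L U + 1 + finrank L P * finrank L P ≤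
      finrank L P + finrank L P * m + c := le_trans h2 (by omega)
    exact_mod_cast h21
  have hHR : (0 : ℝ) ≤ height κ x := by exact_mod_cast hHn
  have hΔR : (0 : ℝ) ≤ Δ := by exact_mod_cast hΔ
  have hkR : (k : ℝ) + m + 1 ≤ ∑ i, (d (e i) : ℝ) := by exact_mod_cast hk
  have hmR : (1 : ℝ) ≤ m := by exact_mod_cast hm
  have hgR : (1 : ℝ) ≤ g := by exact_mod_cast hg
  have hm1 : ((m - 1 : ℕ) : ℝ) = (m : ℝ) - 1 := by
    rw [Nat.cast_sub hm, Nat.cast_one]
  obtain ⟨i, hi⟩ := exists_ge_average hg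
    (fun i => (d (e i) : ℝ) * height κ x - ht κ (piece κ U (e i)) -
      τ * ((finrank L (piece κ U (e i)) : ℝ) - 1))
    (B := ((k : ℝ) - ((finrank L P : ℝ) - 1)) * height κ x +
      ((m - 1 : ℕ) : ℝ) * ((height κ x : ℝ) - ht κ P)
        - τ * ((finrank L P : ℝ) * ((m - 1 : ℕ) : ℝ) + c) - E) (by
      rw [Finset.sum_sub_distrib, Finset.sum_sub_distrib, ← Finset.sum_mul, ← Finset.mul_sum,
        Finset.sum_sub_distrib, Finset.sum_const, Finset.card_univ, Fintype.card_fin,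
        nsmul_eq_mul, mul_one, hm1]
      generalize (finrank L P : ℝ) = l at h1R h2R ⊢
      generalize (finrank L U : ℝ) = u at h1R h2R h6R ⊢
      generalize (height κ x : ℝ) = H at h1R hHR ⊢
      generalize (ht κ P : ℝ) = y at h1R ⊢
      generalize (ht κ U : ℝ) = v at h1R h5R ⊢
      generalize ∑ i : Fin g, (ht κ (piece κ U (e i)) : ℝ) = s1 at h5R ⊢
      generalize ∑ i : Fin g, (finrank L (piece κ U (e i)) : ℝ) = s2 at h6R ⊢
      generalize ∑ i : Fin g, (d (e i) : ℝ) = s3 at hkR ⊢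
      have e1 : u - g ≤ l * (m - 1) + c := by nlinarith [sq_nonneg (l - 1)]
      have e2 : u ≤ m * m + c := by nlinarith [sq_nonneg (2 * l - (m + 1))]
      have e3 : u * Δ ≤ (m * m + c) * Δ := mul_le_mul_of_nonneg_right e2 hΔR
      have e4 : (k + m + 1) * H ≤ s3 * H := mul_le_mul_of_nonneg_right hkR hHR
      have e5 : τ * (s2 - g) ≤ τ * (l * (m - 1) + c) :=
        mul_le_mul_of_nonneg_left (by linarith) hτ
      nlinarith)
  exact ⟨i, piece κ U (e i), hmem i, hi⟩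

end Pool.Agent.Lib.MP_44a246_ntA
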