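import Mathlib
import Pool.Agent.Lib.MP_44a246_ntA.P09

/-!
# Step A (constant version), P11a: the passage to the plane, and numbers

Paper 549, P6.
-/

namespace Pool.Agent.Lib.MP_44a246_ntA

open Pool.Agent.Lib.MP_44a246_nt
open Pool.Agent.Lib.MP_44a246_ntL
open Pool.Agent.Lib.MP_44a246_ntS
open Pool.Agent.Lib.MP_44a246_ntX
open Pool.Agent.Lib.MP_44a246_ntG
open Pool.Agent.Lib.MP_44a246_ntK
open Pool.Agent.Lib.MP_44a246_ntF
open Pool.Agent.Lib.MP_44a246_ntR (fL xsp)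
open Pool.Agent.Lib.MP_44a246_ntC
open Pool.Agent.Lib.MP_e52354_nt
open WithZero Module

/-- **One block**: the passage to the plane.

Proof. `V = U.map R3` contains `xi d X.p` (`R3_xm`), `ht V ≤ ht U` (`ht_map_const_le`),
`finrank V ≤ finrank U`; `stepA_block` (C04) with `u = b * m`, divided by `20 b`. -/
theorem plane_block {κ L : Type*} [Field κ] [IsAlgClosed κ] [CharZero κ] [Field L] [CharZero L]
    [Algebra κ L] (h : IsFF κ L) {n d b m r₀ : ℕ} (X : DatG κ (L := L) n d) (hb : 1 ≤ b)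
    (hm : 1 ≤ m) (hd : 14 * (b * m) ≤ d) (hH : 0 < height κ X.x) {x : Fin (3 + r₀) → L}
    (hx : ∀ i : Fin 3, x (Fin.castAdd r₀ i) = X.p i) {U : Submodule L (EX (3 + r₀) d → L)}
    (hU : xm d x ∈ U) :
    (∃ (a : ℕ) (A : MvPolynomial (Fin 3) L), a ≤ b ∧ A ≠ 0 ∧ A.IsHomogeneous a ∧
        MvPolynomial.eval X.p A = 0 ∧ 21 * (a * (m * polyHeight κ A)) ≤ height κ X.x) ∨
      (d : ℝ) * height κ X.x - ht κ U - 21 * height κ X.x / (20 * b) * ((finrank L U : ℝ) - 1) ≤
        (12 * (b * m) + 2 * b - 1) * height κ X.x + 21 * height κ X.x / (20 * b) := by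
  set V : Submodule L (M3 d → L) := U.map ((R3 κ r₀ d).map (algebraMap κ L)).mulVecLin with hV
  have hxi : xi d X.p ∈ V := by
    refine ⟨xm d x, hU, ?_⟩
    rw [Matrix.mulVecLin_apply, R3_xm]
    congr 1
    funext i
    exact hx i
  have hbm : b ≤ b * m := Nat.le_mul_of_pos_right b hm
  have h1 : ht κ V ≤ ht κ U := ht_map_const_le h _ _
  have h2 : finrank L V ≤ finrank L U := Submodule.finrank_map_le _ _
  rcases Pool.Agent.Lib.MP_44a246_ntC.stepA_block h X hxi hb hbm (by omega) hH with h3 | h3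
  · obtain ⟨a, A, ha, hA0, hAh, hAe, hAb⟩ := h3
    refine Or.inl ⟨a, A, ha, hA0, hAh, hAe, ?_⟩
    have hb0 : (0 : ℤ) < b := by exact_mod_cast hb
    refine le_of_mul_le_mul_left ?_ hb0
    refine le_trans (le_of_eq ?_) hAb
    push_cast
    ring
  · refine Or.inr ?_
    have h3R : 20 * (b : ℝ) * (((d : ℝ) - 12 * (b * m) - 2 * b + 1) * height κ X.x) ≤
        20 * b * ht κ V + 21 * height κ X.x * finrank L V := by
      have := h3
      push_cast at this
      exact_mod_cast this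
    have h1R : (ht κ V : ℝ) ≤ ht κ U := by exact_mod_cast h1
    have h2R : (finrank L V : ℝ) ≤ finrank L U := by exact_mod_cast h2
    have hHR : (0 : ℝ) < height κ X.x := by exact_mod_cast hH
    have hbR : (0 : ℝ) < b := by exact_mod_cast hb
    generalize (height κ X.x : ℝ) = H at *
    generalize (ht κ V : ℝ) = v at *
    generalize (ht κ U : ℝ) = u at *
    generalize (finrank L V : ℝ) = fv at *
    generalize (finrank L U : ℝ) = fu at *
    have h4 : 20 * (b : ℝ) * v ≤ 20 * b * u := mul_le_mul_of_nonneg_left h1R (by positivity)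
    have h5 : 21 * H * fv ≤ 21 * H * fu := mul_le_mul_of_nonneg_left h2R (by positivity)
    have h6 : 21 * H / (20 * b) * (20 * b) = 21 * H := by
      field_simp
    have h7 : 20 * (b : ℝ) * (((d : ℝ) - 12 * (b * m) - 2 * b + 1) * H) ≤
        20 * b * (u + 21 * H / (20 * b) * fu) := by
      have e1 : 20 * (b : ℝ) * (u + 21 * H / (20 * b) * fu) =
          20 * b * u + (21 * H / (20 * b) * (20 * b)) * fu := by ring
      rw [e1, h6]
      linarith
    have h8 := le_of_mul_le_mul_left h7 (by positivity)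
    linarith

/-- the numerical contradiction.

Proof. `λ = l`. `5 (k - 1) l ≤ (k - 1) b` by `hl`, `hbk`, so `5 l ≤ b`. Divide by `H`, `y = ht P`;
`21 / (20 b) (l r + c) ≤ 21 (r + c) / 100` as `1 ≤ l`, `5 l ≤ b`; `r (H - y) ≥ r H / 2`;
`l - 1 ≤ b / 5 - 1`. -/
theorem numP11 {H y E z : ℝ} {k l r c g b M : ℕ} (hH : 0 < H) (hk : 2 ≤ k) (hl1 : 1 ≤ l)
    (hy : 2 * y ≤ H) (hl : ((k : ℝ) - 1) * ((l : ℝ) - 1) ≤ 4 * (r + c)) (hE : E < H)
    (hbk : 5 * (k - 1) + 20 * (r + c) ≤ b * (k - 1)) (hg : 1 ≤ g)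
    (hN : 100 * (g * (12 * (b * M) + 2 * b)) + 20 * b + 21 * c ≤ 100 * k + 29 * r)
    (h1 : ((k : ℝ) - ((l : ℝ) - 1)) * H + r * (H - y) - 21 * H / (20 * b) * ((l : ℝ) * r + c) - E ≤
      g * z)
    (h2 : z ≤ (12 * (b * M) + 2 * b - 1) * H + 21 * H / (20 * b)) : False := by
  obtain ⟨k', rfl⟩ : ∃ k', k = k' + 2 := ⟨k - 2, by omega⟩
  have hk1 : k' + 2 - 1 = k' + 1 := by omega
  rw [hk1] at hbk
  have hbkR : 5 * ((k' : ℝ) + 1) + 20 * ((r : ℝ) + c) ≤ b * (k' + 1) := by exact_mod_cast hbk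
  have hNR : 100 * ((g : ℝ) * (12 * (b * M) + 2 * b)) + 20 * b + 21 * c ≤
      100 * (k' + 2) + 29 * r := by exact_mod_cast hN
  have hl1R : (1 : ℝ) ≤ l := by exact_mod_cast hl1
  have hgR : (1 : ℝ) ≤ g := by exact_mod_cast hg
  have hrR : (0 : ℝ) ≤ r := Nat.cast_nonneg r
  have hcR : (0 : ℝ) ≤ c := Nat.cast_nonneg c
  have hk'R : (0 : ℝ) ≤ k' := Nat.cast_nonneg k'
  push_cast at hl h1
  have h5l : 5 * (l : ℝ) ≤ b := by
    have e1 : ((k' : ℝ) + 1) * (5 * l) ≤ (k' + 1) * b := by nlinarith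
    exact le_of_mul_le_mul_left e1 (by linarith)
  have hb5 : (5 : ℝ) ≤ b := by linarith
  have hb0 : (0 : ℝ) < b := by linarith
  set q : ℝ := 21 * H / (20 * b) with hq
  have hqb : q * b = 21 * H / 20 := by
    rw [hq]
    field_simp
  have hq0 : 0 ≤ q := by positivity
  have e1 : q * l ≤ 21 * H / 100 := by
    have := mul_le_mul_of_nonneg_left h5l hq0
    nlinarith
  have e2 : q ≤ 21 * H / 100 := by
    have := mul_le_mul_of_nonneg_left hb5 hq0
    nlinarith
  have e3 : q * (l * r + c) ≤ 21 * H / 100 * r + 21 * H / 100 * c := by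
    have a1 := mul_le_mul_of_nonneg_right e1 hrR
    have a2 := mul_le_mul_of_nonneg_right e2 hcR
    nlinarith
  have e4 : (r : ℝ) * (H - y) ≥ r * (H / 2) := mul_le_mul_of_nonneg_left (by linarith) hrR
  have e5 : (g : ℝ) * z ≤ g * ((12 * (b * M) + 2 * b) * H) := by
    refine mul_le_mul_of_nonneg_left ?_ (by linarith)
    have : (12 * ((b : ℝ) * M) + 2 * b - 1) * H + q ≤ (12 * (b * M) + 2 * b) * H := by linarith
    linarith
  have e6 : ((l : ℝ) - 1) * H ≤ (b / 5 - 1) * H := mul_le_mul_of_nonneg_right (by linarith) hH.le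
  have e7 : (100 * ((g : ℝ) * (12 * (b * M) + 2 * b)) + 20 * b + 21 * c) * H ≤
      (100 * (k' + 2) + 29 * r) * H := mul_le_mul_of_nonneg_right hNR hH.le
  nlinarith

end Pool.Agent.Lib.MP_44a246_ntA
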