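import Mathlib
import Pool.Agent.Lib.MP_44a246_ntC.C04

/-!
# Step A (constant version), P12: Step A in one block, with a second bound

`stepA_block` (C04) with the additional bound `14 (a + 1) u α ≤ b h` for `4 ≤ b`.
-/

namespace Pool.Agent.Lib.MP_44a246_ntA

open Pool.Agent.Lib.MP_44a246_ntC
open Pool.Agent.Lib.MP_44a246_ntG
open Pool.Agent.Lib.MP_44a246_nt
open Pool.Agent.Lib.MP_44a246_ntL
open Pool.Agent.Lib.MP_44a246_ntS
open Pool.Agent.Lib.MP_44a246_ntX
open Pool.Agent.Lib.MP_e52354_nt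
open WithZero Module

/-- step A: the numerical inequality for a line -/
theorem cA_one {b u : ℝ} (hb : 4 ≤ b) (hbu : b ≤ u) :
    56 * u * (12 * u * (23 * b + 1) + 24 - 12 * (24 * u + 2)) ≤
      b * (23 * b + 1) * ((12 * u) * (12 * u + 1)) := by
  have h1 : 0 ≤ u := by linarith
  have h2 : 56 * (276 * (b - 1)) ≤ 144 * (b * (23 * b + 1)) := by
    nlinarith [mul_nonneg (by linarith : (0:ℝ) ≤ b - 4) (by linarith : (0:ℝ) ≤ b - 4)]
  have h3 := mul_le_mul_of_nonneg_left h2 (mul_nonneg h1 h1)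
  have h4 : 0 ≤ b * (23 * b + 1) * (12 * u) := by positivity
  nlinarith

variable {κ L : Type*} [Field κ] [IsAlgClosed κ] [CharZero κ] [Field L] [CharZero L]
  [Algebra κ L]

/-- **Step A in one block**: either there is a plane curve of small degree and height, or the
height of `V` is large. -/
theorem stepA_block2 (h : IsFF κ L) {n d : ℕ} (X : DatG κ (L := L) n d) {b u : ℕ}
    {V : Submodule L (M3 d → L)} (hxi : xi d X.p ∈ V) (hb1 : 4 ≤ b) (hbu : b ≤ u)
    (hSd : 2 * b + 12 * u ≤ d) (hH : 0 < height κ X.x) :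
    (∃ (a : ℕ) (A : MvPolynomial (Fin 3) L), a ≤ b ∧ A ≠ 0 ∧ A.IsHomogeneous a ∧
        MvPolynomial.eval X.p A = 0 ∧
        21 * (a * (u * polyHeight κ A)) ≤ b * height κ X.x ∧
        14 * ((a + 1) * (u * polyHeight κ A)) ≤ b * height κ X.x) ∨
      20 * (b : ℤ) * (((d : ℤ) - 12 * u - 2 * b + 1) * height κ X.x) ≤
        20 * b * ht κ V + 21 * height κ X.x * finrank L V := by
  have hp := X.p_ne_zero
  have hHr : (0 : ℝ) < (height κ X.x : ℝ) := by exact_mod_cast hH
  have hb1' : 1 ≤ b := by omega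
  have hb4 : (4 : ℝ) ≤ (b : ℝ) := by exact_mod_cast hb1
  have hbr : (1 : ℝ) ≤ (b : ℝ) := by exact_mod_cast hb1'
  have hbur : (b : ℝ) ≤ (u : ℝ) := by exact_mod_cast hbu
  set H : ℝ := (height κ X.x : ℝ) with hHdef
  set β : ℝ := 23 * b + 1 with hβ
  have hβ0 : 0 < β := by rw [hβ]; linarith
  obtain ⟨W, hWU, hW, hWb⟩ := exists_hasSl h (21 * H / (20 * b)) hxi
  obtain ⟨Qd, hQd⟩ := exists_isSl h (24 * H / β) (xi d X.p)
  obtain ⟨Q, hQ⟩ := exists_isSl h (24 * H / β) (xi (12 * u) X.p)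
  obtain ⟨Q₁, hQ₁⟩ := exists_isSl h (24 * H / β) (xi (2 * b) X.p)
  have hμ : 24 * H / β < 21 * H / (20 * b) := by
    rw [div_lt_div_iff₀ hβ0 (by linarith)]
    nlinarith
  have hμ0 : 0 < 24 * H / β := div_pos (by linarith) hβ0
  have hWQ : W ≤ Qd := hW.le_isSl h hμ hQd
  have hb := hQ.bound h (xi_ne_zero hp)
  rw [height_xi h (12 * u) hp, X.height_p] at hb
  have hb₁ := hQ₁.bound h (xi_ne_zero hp)
  rw [height_xi h (2 * b) hp, X.height_p] at hb₁
  push_cast at hb hb₁
  have hQ0 : (0 : ℝ) ≤ (ht κ Q : ℝ) := by exact_mod_cast ht_nonneg h Q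
  have hQ0₁ : (0 : ℝ) ≤ (ht κ Q₁ : ℝ) := by exact_mod_cast ht_nonneg h Q₁
  have hmulβ : ∀ z : ℝ, β * (24 * H / β * z) = 24 * H * z := by
    intro z
    field_simp
  have hbB : β * (ht κ Q : ℝ) + 24 * H * ((finrank L Q : ℝ) - 1) ≤ β * (12 * u * H) := by
    have := mul_le_mul_of_nonneg_left hb hβ0.le
    rw [mul_add, hmulβ] at this
    exact this
  have hbB₁ : β * (ht κ Q₁ : ℝ) + 24 * H * ((finrank L Q₁ : ℝ) - 1) ≤ β * (2 * b * H) := by
    have := mul_le_mul_of_nonneg_left hb₁ hβ0.le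
    rw [mul_add, hmulβ] at this
    exact this
  have hq : 24 * ((finrank L Q : ℝ) - 1) ≤ 12 * u * β := by
    have h1 : H * (24 * ((finrank L Q : ℝ) - 1)) ≤ H * (12 * u * β) := by
      nlinarith [mul_nonneg hβ0.le hQ0]
    exact le_of_mul_le_mul_left h1 hHr
  have hq₁ : 24 * ((finrank L Q₁ : ℝ) - 1) ≤ 2 * b * β := by
    have h1 : H * (24 * ((finrank L Q₁ : ℝ) - 1)) ≤ H * (2 * b * β) := by
      nlinarith [mul_nonneg hβ0.le hQ0₁]
    exact le_of_mul_le_mul_left h1 hHr
  have hcard : Fintype.card (M3 (12 * u)) = N3 (12 * u) := card_M3 (12 * u)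
  have hcard₁ : Fintype.card (M3 (2 * b)) = N3 (2 * b) := card_M3 (2 * b)
  have hN3 : 2 * (N3 (12 * u) : ℝ) = (12 * u + 1) * (12 * u + 2) := by
    exact_mod_cast two_N3 (12 * u)
  have hN3₁ : 2 * (N3 (2 * b) : ℝ) = (2 * b + 1) * (2 * b + 2) := by
    exact_mod_cast two_N3 (2 * b)
  have hQtop : Q ≠ ⊤ := by
    intro h1
    have h2 : finrank L Q = N3 (12 * u) := by
      rw [h1, finrank_top, Module.finrank_fintype_fun_eq_card, hcard]
    rw [h2] at hq
    nlinarith [mul_nonneg (by linarith : (0 : ℝ) ≤ u) (by linarith : (0 : ℝ) ≤ u - b)]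
  have hQtop₁ : Q₁ ≠ ⊤ := by
    intro h1
    have h2 : finrank L Q₁ = N3 (2 * b) := by
      rw [h1, finrank_top, Module.finrank_fintype_fun_eq_card, hcard₁]
    rw [h2] at hq₁
    nlinarith [mul_nonneg (by linarith : (0 : ℝ) ≤ b) (by linarith : (0 : ℝ) ≤ b)]
  -- the form of degree `2 b`
  obtain ⟨G₁, hG₁, hG₁0⟩ := Submodule.exists_mem_ne_zero_of_ne_bot (Ann_ne_bot hQtop₁)
  obtain ⟨a, e, A, hs, hA0, hA, h1, h2, h3⟩ := core' h hp (s₁ := 2 * b) (s := 12 * u)
    hSd hQtop hQ.mem hW.mem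
    (fun G hG u' hu => IsSl.ctr_eq_zero h (show 12 * u + (d - 12 * u) = d by omega) hQd hQ
      hG.1 hG.2 (hWQ hu)) hG₁.1 hG₁0
    (fun u' hu => IsSl.ctr_eq_zero h (show 2 * b + (d - 2 * b) = d by omega) hQd hQ₁
      hG₁.1 hG₁.2 (hWQ hu))
  rw [hcard] at h1 h2
  have hcard' : Fintype.card (M3 e) = N3 e := card_M3 e
  rw [hcard'] at h2
  have ha := cA_deg hb1' hbu hs hq h2
  have hα : 0 ≤ polyHeight κ A := polyHeight_nonneg h hA0
  have hαr : (0 : ℝ) ≤ (polyHeight κ A : ℝ) := by exact_mod_cast hα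
  set α : ℝ := (polyHeight κ A : ℝ) with hαdef
  have h1r : α * ((N3 (12 * u) : ℝ) - finrank L Q) ≤ ht κ Q := by
    rw [hαdef]
    exact_mod_cast h1
  have h2r : (N3 (12 * u) : ℝ) ≤ N3 e + finrank L Q := by exact_mod_cast h2
  have hx0 : (0 : ℝ) < (N3 (12 * u) : ℝ) - finrank L Q := by
    nlinarith [mul_nonneg (by linarith : (0 : ℝ) ≤ u) (by linarith : (0 : ℝ) ≤ u - b)]
  -- `(β α - 24 H) x ≤ H (β S - 24 (N3 S - 1)) < 0`
  have h5 : (β * α - 24 * H) * ((N3 (12 * u) : ℝ) - finrank L Q) ≤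
      H * (β * (12 * u) - 24 * ((N3 (12 * u) : ℝ) - 1)) := by
    have := mul_le_mul_of_nonneg_left h1r hβ0.le
    nlinarith
  have h6 : β * (12 * u) - 24 * ((N3 (12 * u) : ℝ) - 1) < 0 := by
    rw [hβ]
    nlinarith [mul_nonneg (by linarith : (0 : ℝ) ≤ u) (by linarith : (0 : ℝ) ≤ u - b)]
  have h7 : β * α - 24 * H < 0 := by
    by_contra hcon
    have h8 := mul_nonneg (not_lt.1 hcon) hx0.le
    have h9 := mul_neg_of_pos_of_neg hHr h6
    linarith
  have h8 : α < 24 * H / β := by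
    rw [lt_div_iff₀ hβ0]
    linarith
  have hs' : (a : ℝ) + e = 12 * u := by exact_mod_cast hs
  have hae : (a : ℝ) ≤ b := by exact_mod_cast ha
  have ha0 : (0 : ℝ) ≤ a := Nat.cast_nonneg a
  have he0 : (0 : ℝ) ≤ e := Nat.cast_nonneg e
  rcases h3 with h3 | h3
  · left
    have hN3e : 2 * (N3 e : ℝ) = (12 * u - a + 1) * (12 * u - a + 2) := by
      have h11 : 2 * (N3 e : ℝ) = (e + 1) * (e + 2) := by exact_mod_cast two_N3 e
      rw [h11, show (e : ℝ) = 12 * u - a by linarith]
    have hN3e0 : (0 : ℝ) < N3 e := by nlinarith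
    -- `(β α - 24 H) N3 e ≤ (β α - 24 H) x`
    have h12 : (β * α - 24 * H) * (N3 e : ℝ) ≤
        (β * α - 24 * H) * ((N3 (12 * u) : ℝ) - finrank L Q) :=
      mul_le_mul_of_nonpos_left (by linarith) h7.le
    have h13 : β * α * (N3 e : ℝ) ≤
        H * (12 * u * β + 24 - 12 * a * (24 * u - a + 3)) := by
      have h14 : (β * α - 24 * H) * (N3 e : ℝ) ≤
          H * (β * (12 * u) - 24 * ((N3 (12 * u) : ℝ) - 1)) := h12.trans h5
      have h15 : 24 * (N3 (12 * u) : ℝ) - 24 * (N3 e : ℝ) = 12 * a * (24 * u - a + 3) := by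
        linear_combination 12 * hN3 - 12 * hN3e
      nlinarith
    have hu0 : (0 : ℝ) ≤ u := by linarith
    have huα : (0 : ℝ) ≤ u * α := mul_nonneg hu0 hαr
    have hgoal : 21 * ((a : ℝ) * (u * α)) ≤ b * H := by
      rcases Nat.eq_zero_or_pos a with h10 | h10
      · rw [h10]
        push_cast
        have := mul_nonneg (by linarith : (0 : ℝ) ≤ b) hHr.le
        linarith
      have ha1 : (1 : ℝ) ≤ a := by exact_mod_cast h10
      have hnum := cA_num ha1 hae hbur
      have h16 : (0 : ℝ) ≤ 42 * a * u := by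
        have : 0 ≤ (a : ℝ) * u := mul_nonneg ha0 (by linarith)
        linarith
      have h17 := mul_le_mul_of_nonneg_left h13 h16
      have h18 := mul_le_mul_of_nonneg_left hnum hHr.le
      rw [← hβ] at h18
      have h19 : (2 * (β * (N3 e : ℝ))) * (21 * ((a : ℝ) * (u * α))) ≤
          (2 * (β * (N3 e : ℝ))) * (b * H) := by
        have e1 : (2 * (β * (N3 e : ℝ))) * (21 * ((a : ℝ) * (u * α))) =
            42 * a * u * (β * α * (N3 e : ℝ)) := by ring
        have e2 : (2 * (β * (N3 e : ℝ))) * (b * H) =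
            H * (b * β * ((12 * u - a + 1) * (12 * u - a + 2))) := by
          rw [← hN3e]
          ring
        rw [e1, e2]
        refine h17.trans (le_of_eq_of_le ?_ h18)
        ring
      exact le_of_mul_le_mul_left h19 (by positivity)
    have hgoal2 : 14 * (((a : ℝ) + 1) * (u * α)) ≤ b * H := by
      rcases Nat.lt_or_ge 1 a with h10 | h10
      · have ha2 : (2 : ℝ) ≤ a := by exact_mod_cast h10
        have h14 : 0 ≤ (7 * (a : ℝ) - 14) * (u * α) := mul_nonneg (by linarith) huα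
        linarith
      · rcases Nat.eq_zero_or_pos a with h11 | h11
        · exfalso
          have h14 := hA.totalDegree hA0
          rw [h11] at h14
          rw [MvPolynomial.totalDegree_eq_zero_iff_eq_C] at h14
          rw [h14, MvPolynomial.eval_C] at h3
          rw [h3, map_zero] at h14
          exact hA0 h14
        · have h14 : a = 1 := by omega
          have ha1 : (a : ℝ) = 1 := by rw [h14]; norm_num
          rw [ha1] at h13 hN3e ⊢
          have hnum := cA_one hb4 hbur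
          rw [← hβ] at hnum
          have h17 := mul_le_mul_of_nonneg_left h13 (show (0 : ℝ) ≤ 56 * u by linarith)
          have h18 := mul_le_mul_of_nonneg_left hnum hHr.le
          have h19 : (2 * (β * (N3 e : ℝ))) * (14 * ((1 + 1) * (u * α))) ≤
              (2 * (β * (N3 e : ℝ))) * (b * H) := by
            have e1 : (2 * (β * (N3 e : ℝ))) * (14 * ((1 + 1) * (u * α))) =
                56 * u * (β * α * (N3 e : ℝ)) := by ring
            have e2 : (2 * (β * (N3 e : ℝ))) * (b * H) =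
                H * (b * β * ((12 * u) * (12 * u + 1))) := by
              have e3 : 2 * (N3 e : ℝ) = (12 * u) * (12 * u + 1) := by
                rw [hN3e]; ring
              rw [← e3]
              ring
            rw [e1, e2]
            refine h17.trans (le_of_eq_of_le ?_ h18)
            ring
          exact le_of_mul_le_mul_left h19 (by positivity)
    rw [hHdef, hαdef] at hgoal hgoal2
    exact ⟨a, A, ha, hA0, hA, h3, by exact_mod_cast hgoal, by exact_mod_cast hgoal2⟩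
  · right
    rw [X.height_p] at h3
    have h3r : ((d : ℝ) - (2 * b) - (12 * u) + 1) * H ≤ (ht κ W : ℝ) + finrank L W * α := by
      rw [hHdef, hαdef]
      have := h3
      push_cast at this
      exact_mod_cast this
    have hw0 : (0 : ℝ) ≤ finrank L W := Nat.cast_nonneg _
    have h9 : (finrank L W : ℝ) * α ≤ 21 * H / (20 * b) * finrank L W := by
      rw [mul_comm]
      exact mul_le_mul_of_nonneg_right (h8.trans hμ).le hw0
    have h10 : ((d : ℝ) - (2 * b) - (12 * u) + 1) * H ≤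
        (ht κ V : ℝ) + 21 * H / (20 * b) * finrank L V := by linarith
    have h11 := mul_le_mul_of_nonneg_left h10 (show (0 : ℝ) ≤ 20 * b by linarith)
    have h12 : (20 * (b : ℝ)) * ((ht κ V : ℝ) + 21 * H / (20 * b) * finrank L V) =
        20 * b * (ht κ V : ℝ) + 21 * H * finrank L V := by
      have : (b : ℝ) ≠ 0 := by linarith
      field_simp
    rw [h12] at h11
    have h13 : 20 * (b : ℝ) * (((d : ℝ) - 12 * u - 2 * b + 1) * H) ≤
        20 * b * (ht κ V : ℝ) + 21 * H * finrank L V := by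
      refine le_of_eq_of_le ?_ h11
      ring
    rw [hHdef] at h13
    exact_mod_cast h13

end Pool.Agent.Lib.MP_44a246_ntA
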