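import Mathlib
import Pool.Agent.Lib.MP_44a246_ntA.P08b
import Pool.Agent.Lib.MP_44a246_ntA.P12

/-!
# Step A (constant version), P13a: the passage to the plane with sharp numbers
-/

namespace Pool.Agent.Lib.MP_44a246_ntA

open Pool.Agent.Lib.MP_44a246_nt
open Pool.Agent.Lib.MP_44a246_ntL
open Pool.Agent.Lib.MP_44a246_ntS
open Pool.Agent.Lib.MP_44a246_ntX
open Pool.Agent.Lib.MP_44a246_ntG
open Pool.Agent.Lib.MP_44a246_ntK
open Pool.Agent.Lib.MP_44a246_ntF
open Pool.Agent.Lib.MP_44a246_ntR (fL xsp)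
open Pool.Agent.Lib.MP_44a246_ntC
open Pool.Agent.Lib.MP_e52354_nt
open WithZero Module

/-- **One block**: the passage to the plane. -/
theorem plane_block2 {κ L : Type*} [Field κ] [IsAlgClosed κ] [CharZero κ] [Field L] [CharZero L]
    [Algebra κ L] (h : IsFF κ L) {n d b m r₀ : ℕ} (X : DatG κ (L := L) n d) (hb : 4 ≤ b)
    (hm : 1 ≤ m) (hd : 14 * (b * m) ≤ d) (hH : 0 < height κ X.x) {x : Fin (3 + r₀) → L}
    (hx : ∀ i : Fin 3, x (Fin.castAdd r₀ i) = X.p i) {U : Submodule L (EX (3 + r₀) d → L)}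
    (hU : xm d x ∈ U) :
    (∃ (a : ℕ) (A : MvPolynomial (Fin 3) L), a ≤ b ∧ A ≠ 0 ∧ A.IsHomogeneous a ∧
        MvPolynomial.eval X.p A = 0 ∧ 21 * (a * (m * polyHeight κ A)) ≤ height κ X.x ∧
        14 * ((a + 1) * (m * polyHeight κ A)) ≤ height κ X.x) ∨
      (d : ℝ) * height κ X.x - ht κ U - 21 * height κ X.x / (20 * b) * ((finrank L U : ℝ) - 1) ≤
        (12 * (b * m) + 2 * b - 1) * height κ X.x + 21 * height κ X.x / (20 * b) := by
  set V : Submodule L (M3 d → L) := U.map ((R3 κ r₀ d).map (algebraMap κ L)).mulVecLin with hV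
  have hxi : xi d X.p ∈ V := by
    refine ⟨xm d x, hU, ?_⟩
    rw [Matrix.mulVecLin_apply, R3_xm]
    congr 1
    funext i
    exact hx i
  have hb' : (0 : ℤ) < b := by
    have : 0 < b := by omega
    exact_mod_cast this
  have hbm : b ≤ b * m := Nat.le_mul_of_pos_right _ hm
  rcases stepA_block2 h X hxi hb hbm (by omega) hH with ⟨a, A, h1, h2, h3, h4, h5, h6⟩ | h1
  · left
    refine ⟨a, A, h1, h2, h3, h4, ?_, ?_⟩
    · refine le_of_mul_le_mul_left (le_of_eq_of_le ?_ h5) hb'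
      push_cast
      ring
    · refine le_of_mul_le_mul_left (le_of_eq_of_le ?_ h6) hb'
      push_cast
      ring
  · right
    have h2 : ht κ V ≤ ht κ U := ht_map_const_le h _ U
    have h3 : finrank L V ≤ finrank L U := Submodule.finrank_map_le _ _
    have hbr : (0 : ℝ) < b := by exact_mod_cast hb'
    have hHr : (0 : ℝ) < (height κ X.x : ℝ) := by exact_mod_cast hH
    have h2r : (ht κ V : ℝ) ≤ ht κ U := by exact_mod_cast h2
    have h3r : (finrank L V : ℝ) ≤ finrank L U := by exact_mod_cast h3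
    have h4 : 20 * (b : ℝ) * (((d : ℝ) - 12 * (b * m) - 2 * b + 1) * height κ X.x) ≤
        20 * b * ht κ V + 21 * height κ X.x * finrank L V := by
      exact_mod_cast h1
    set H : ℝ := (height κ X.x : ℝ) with hHdef
    have h5 : ((d : ℝ) - 12 * (b * m) - 2 * b + 1) * H ≤
        ht κ V + 21 * H / (20 * b) * finrank L V := by
      refine le_of_mul_le_mul_left (h4.trans (le_of_eq ?_)) (by positivity : (0 : ℝ) < 20 * b)
      field_simp
    have h6 : 21 * H / (20 * b) * finrank L V ≤ 21 * H / (20 * b) * finrank L U :=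
      mul_le_mul_of_nonneg_left h3r (by positivity)
    linarith

/-- the numerical contradiction -/
theorem numP13 {H y E z : ℝ} {k l r c g b M p₁ : ℕ} (hH : 0 < H) (hk : 2 ≤ k)
    (hy : 20 * y ≤ H) (hl : 9 * ((k : ℝ) - 1) * ((l : ℝ) - 1) ≤ 20 * (r + c)) (hE : E < H)
    (hp : 20 * (r + c) < 9 * (k - 1) * (p₁ + 1)) (hb : 1 ≤ b) (hg : 1 ≤ g)
    (hN : b * r + 21 * ((p₁ + 1) * r + c + g) + 20 * b * (g * (12 * (b * M) + 2 * b)) +
      20 * b * (p₁ + 1) ≤ 20 * b * (k + r) + 20 * b * g)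
    (h1 : ((k : ℝ) - ((l : ℝ) - 1)) * H + r * (H - y) - 21 * H / (20 * b) * ((l : ℝ) * r + c) - E ≤
      g * z)
    (h2 : z ≤ (12 * (b * M) + 2 * b - 1) * H + 21 * H / (20 * b)) : False := by
  have hb' : (1 : ℝ) ≤ b := by exact_mod_cast hb
  have hg' : (1 : ℝ) ≤ g := by exact_mod_cast hg
  have hk' : (2 : ℝ) ≤ k := by exact_mod_cast hk
  -- `l ≤ p₁ + 1`
  have hlp : l ≤ p₁ + 1 := by
    by_contra hcon
    have h3 : (p₁ : ℝ) + 1 ≤ (l : ℝ) - 1 := by
      have : p₁ + 2 ≤ l := by omega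
      have : (p₁ : ℝ) + 2 ≤ l := by exact_mod_cast this
      linarith
    have h4 : (20 * (r + c) : ℝ) < 9 * ((k : ℝ) - 1) * (p₁ + 1) := by
      have h5 : ((k - 1 : ℕ) : ℝ) = (k : ℝ) - 1 := by
        rw [Nat.cast_sub (by omega), Nat.cast_one]
      rw [← h5]
      exact_mod_cast hp
    have h5 : 9 * ((k : ℝ) - 1) * (p₁ + 1) ≤ 9 * ((k : ℝ) - 1) * ((l : ℝ) - 1) :=
      mul_le_mul_of_nonneg_left h3 (by linarith)
    linarith
  have hlp' : (l : ℝ) ≤ p₁ + 1 := by exact_mod_cast hlp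
  have hNr : (b : ℝ) * r + 21 * ((p₁ + 1) * r + c + g) + 20 * b * (g * (12 * (b * M) + 2 * b)) +
      20 * b * (p₁ + 1) ≤ 20 * b * (k + r) + 20 * b * g := by exact_mod_cast hN
  set T : ℝ := 21 * H / (20 * b) with hT
  have hTb : 20 * b * T = 21 * H := by
    rw [hT]
    field_simp
  have hT0 : 0 ≤ T := by rw [hT]; positivity
  have hr0 : (0 : ℝ) ≤ r := Nat.cast_nonneg r
  have hc0 : (0 : ℝ) ≤ c := Nat.cast_nonneg c
  have h3 : (g : ℝ) * z ≤ g * ((12 * (b * M) + 2 * b - 1) * H + T) :=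
    mul_le_mul_of_nonneg_left h2 (by linarith)
  have h4 : ((k : ℝ) - ((l : ℝ) - 1)) * H + r * (H - y) - T * ((l : ℝ) * r + c) - H <
      g * ((12 * (b * M) + 2 * b - 1) * H + T) := by linarith
  have h5 : 20 * b * (((k : ℝ) - ((l : ℝ) - 1)) * H + r * (H - y) - T * ((l : ℝ) * r + c) - H) <
      20 * b * (g * ((12 * (b * M) + 2 * b - 1) * H + T)) :=
    mul_lt_mul_of_pos_left h4 (by linarith)
  have h6 : 20 * b * (((k : ℝ) - ((l : ℝ) - 1)) * H + r * (H - y) - T * ((l : ℝ) * r + c) - H) =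
      20 * b * ((k : ℝ) - ((l : ℝ) - 1)) * H + 20 * b * r * (H - y) -
        21 * H * ((l : ℝ) * r + c) - 20 * b * H := by
    linear_combination (-((l : ℝ) * r + c)) * hTb
  have h7 : 20 * b * (g * ((12 * (b * M) + 2 * b - 1) * H + T)) =
      20 * b * g * (12 * (b * M) + 2 * b - 1) * H + 21 * H * g := by
    linear_combination (g : ℝ) * hTb
  rw [h6, h7] at h5
  -- the terms with `y`
  have h8 : b * r * (19 * H) ≤ 20 * b * r * (H - y) := by
    have h9 : 0 ≤ (b : ℝ) * r := by positivity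
    nlinarith [mul_nonneg h9 (by linarith : 0 ≤ H - 20 * y)]
  -- `l ≤ p₁ + 1`
  have h9 : 20 * b * ((k : ℝ) - ((p₁ + 1 : ℝ) - 1)) * H ≤ 20 * b * ((k : ℝ) - ((l : ℝ) - 1)) * H := by
    refine mul_le_mul_of_nonneg_right ?_ hH.le
    refine mul_le_mul_of_nonneg_left ?_ (by linarith)
    linarith
  have h10 : 21 * H * ((l : ℝ) * r + c) ≤ 21 * H * ((p₁ + 1 : ℝ) * r + c) := by
    refine mul_le_mul_of_nonneg_left ?_ (by linarith)
    have := mul_le_mul_of_nonneg_right hlp' hr0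
    linarith
  have h11 := mul_le_mul_of_nonneg_right hNr hH.le
  nlinarith [h11, h5, h8, h9, h10]

end Pool.Agent.Lib.MP_44a246_ntA
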