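import Mathlib
import Pool.Agent.Lib.MP_44a246_ntA.P09
import Pool.Agent.Lib.MP_44a246_ntA.P10
import Pool.Agent.Lib.MP_44a246_ntA.P13a

/-!
# Step A (constant version), P13: the frame

The general data satisfy the pair hypothesis in the new coordinates.
-/

namespace Pool.Agent.Lib.MP_44a246_ntA

open Pool.Agent.Lib.MP_44a246_nt
open Pool.Agent.Lib.MP_44a246_ntL
open Pool.Agent.Lib.MP_44a246_ntS
open Pool.Agent.Lib.MP_44a246_ntX
open Pool.Agent.Lib.MP_44a246_ntG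
open Pool.Agent.Lib.MP_44a246_ntK
open Pool.Agent.Lib.MP_44a246_ntF
open Pool.Agent.Lib.MP_44a246_ntR (fL xsp)
open Pool.Agent.Lib.MP_44a246_ntC
open Pool.Agent.Lib.MP_44a246_ntO (PairHyp)
open Pool.Agent.Lib.MP_e52354_nt
open WithZero Module

/-- **The frame of Step A.** -/
theorem stepA_frame {κ L : Type*} [Field κ] [IsAlgClosed κ] [CharZero κ] [Field L] [CharZero L]
    [Algebra κ L] (h : IsFF κ L) {n p r₀ g k c q : ℕ} {d : Fin p → ℕ}
    (hr₀ : 1 ≤ r₀) (hg : 1 ≤ g)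
    (hk : ∀ A : Finset (Fin p), A.card = g → k + q + r₀ + 4 ≤ ∑ j ∈ A, d j)
    (X : DatC κ (L := L) n d)
    {γ Λ : Type*} [Fintype γ] [Fintype Λ] (hc : Fintype.card γ + Fintype.card Λ ≤ c)
    {β : γ → L} (hβ : ∀ t, ∀ w : Place κ L, w.1 (β t) ≤ 1)
    {η : Λ → L} (hη : ∀ k, η k ≠ 0) {t : Λ → ℕ} {ε : Place κ L → ℕ}
    (hε : (Function.support ε).Finite)
    (hηε : ∀ w : Place κ L, (∀ k, w.1 (η k) = vmax w.1 X.x ^ t k) ∨ 1 ≤ ε w)
    (hQ : g ≤ finrank L ((fU X ⊔ fB X β ⊔ fL X η) ⊓ xsp d X.x : Submodule L (ES (n + 1) d → L)))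
    (hr : finrank L (fU X) ≤ r₀) {E₀ : ℤ}
    (hR : X.R + ∑ᶠ w, (ε w : ℤ) ≤ q * height κ X.x + E₀) :
    ∃ (e : Fin g → Fin p) (x : Fin (3 + r₀) → L), Function.Injective e ∧
      (∀ i : Fin 3, x (Fin.castAdd r₀ i) = X.pt i) ∧ height κ x = height κ X.x ∧
      (∀ i, xi (d (e i)) X.pt ∈ piece κ (gall X β η) (e i)) ∧
      PairHyp κ x (fun i => d (e i)) g (2 + r₀) c k
        (((((3 + r₀) * (3 + r₀) + c : ℕ) : ℤ) * X.Δ + E₀ : ℤ) : ℝ) := by
  classical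
  obtain ⟨A, hA, hAp⟩ := Pool.Agent.Lib.MP_44a246_ntR.exists_blocks h hQ
  set W₀ := fU X ⊔ fB X β ⊔ fL X η with hW₀
  have hAp' : ∀ j ∈ A, xm (d j) X.x ∈ piece κ W₀ j := fun j hj =>
    piece_mono inf_le_left j (hAp j hj)
  obtain ⟨l, hl1, hl2, hl3⟩ := exists_coords X hr₀ hr
  set x : Fin (3 + r₀) → L := lx l X.x with hx
  set F := cD (ClB l d) (fD X) with hF
  set W := W₀.map ((ClB l d).map (algebraMap κ L)).mulVecLin with hW
  -- the enumeration of the blocks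
  let e₀ : Fin g ≃ A := (Fintype.equivFinOfCardEq (by rw [Fintype.card_coe, hA])).symm
  let e : Fin g → Fin p := fun i => (e₀ i : Fin p)
  have he : Function.Injective e := fun i j hij => e₀.injective (Subtype.ext hij)
  have heA : ∀ i, e i ∈ A := fun i => (e₀ i).2
  have hsum : ∑ i, d (e i) = ∑ j ∈ A, d j := by
    rw [← Finset.sum_coe_sort A]
    exact Equiv.sum_comp e₀ (fun a : A => d a)
  have hx1 : ∀ w : Place κ L, 1 ≤ vmax w.1 x := by
    intro w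
    have h1 := le_vmax w.1 x (Fin.castAdd r₀ 0)
    rw [hl1 0] at h1
    have h2 : X.pt 0 = 1 := rfl
    rwa [h2, map_one] at h1
  have hx0 : x ≠ 0 := by
    intro h1
    have h2 := congrFun h1 (Fin.castAdd r₀ 0)
    rw [hl1 0] at h2
    exact one_ne_zero h2
  have hηε' : ∀ w : Place κ L, (∀ k, w.1 (η k) = vmax w.1 x ^ t k) ∨ 1 ≤ ε w := by
    intro w
    rw [hl2 w]
    exact hηε w
  have hmem : ∀ i, xm (d (e i)) x ∈ piece κ W (e i) := by
    intro i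
    have h1 := piece_ClB l d (hAp' (e i) (heA i))
    rwa [Cl_xm] at h1
  have hP := pairHyp h (m := 3 + r₀) (k := k + q) (c := c) (by omega) hg (F := F) X.hδ X.hρ
    (cD_minor (ClB l d) (fD_minor X)) hx1 hx0 hc hβ hη hε hηε' he
    (by rw [hsum]; have := hk A hA; omega) hmem
    (fun P _ => map_rows_le X hl1 hl3 β η P)
    (E := ((((((3 + r₀) * (3 + r₀) + c : ℕ) : ℤ) * ∑ᶠ w, (X.δ w : ℤ) +
      (∑ᶠ w, (X.ρ w : ℤ) + ∑ᶠ w, (ε w : ℤ)) : ℤ)) : ℝ)) le_rfl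
  have hH : height κ x = height κ X.x := finsum_congr fun w => by rw [hl2 w]
  refine ⟨e, x, he, hl1, hH, fun i => xi_mem_gall X (hAp' _ (heA i)), ?_⟩
  intro P hxP s hs
  obtain ⟨j, U, hU, h1⟩ := hP P hxP s hs
  refine ⟨j, U, hU, le_trans ?_ h1⟩
  have h2 : (((X.R + ∑ᶠ w, (ε w : ℤ) : ℤ)) : ℝ) ≤ ((q * height κ X.x + E₀ : ℤ) : ℝ) := by
    exact_mod_cast hR
  have h3 : (3 + r₀ - 1 : ℕ) = 2 + r₀ := by omega
  have h4 : X.R = ∑ᶠ w, (X.ρ w : ℤ) := rfl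
  have h5 : X.Δ = ∑ᶠ w, (X.δ w : ℤ) := rfl
  rw [h3]
  rw [h4] at h2
  rw [h5, hH]
  push_cast at h2 ⊢
  linarith

/-- **The curve**, from a subspace of small height and bounded dimension. -/
theorem curve_of_subspace {κ L : Type*} [Field κ] [IsAlgClosed κ] [CharZero κ] [Field L]
    [CharZero L] [Algebra κ L] (h : IsFF κ L) {n p r₀ b g k c M p₁ : ℕ} {d m : Fin p → ℕ}
    (hb : 4 ≤ b) (hg : 1 ≤ g) (hm : ∀ j, 1 ≤ m j) (hmM : ∀ j, m j ≤ M)
    (hd : ∀ j, 14 * (b * m j) ≤ d j) (hk : 2 ≤ k)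
    (hp : 20 * (2 + r₀ + c) < 9 * (k - 1) * (p₁ + 1))
    (hN : b * (2 + r₀) + 21 * ((p₁ + 1) * (2 + r₀) + c + g) +
      20 * b * (g * (12 * (b * M) + 2 * b)) + 20 * b * (p₁ + 1) ≤
        20 * b * (k + (2 + r₀)) + 20 * b * g)
    (X : DatC κ (L := L) n d) (hH : 0 < height κ X.x) {e : Fin g → Fin p}
    {x : Fin (3 + r₀) → L} (hx : ∀ i : Fin 3, x (Fin.castAdd r₀ i) = X.pt i)
    (hxH : height κ x = height κ X.x) {E : ℝ} (hE : E < height κ X.x)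
    (hP : PairHyp κ x (fun i => d (e i)) g (2 + r₀) c k E)
    {P : Submodule L (Fin (3 + r₀) → L)} (hxP : x ∈ P) (hPH : 20 * ht κ P ≤ height κ x)
    (hPd : 9 * (k - 1 : ℤ) * ((finrank L P : ℤ) - 1) ≤ 20 * ((2 + r₀ : ℕ) + c)) :
    ∃ (i : Fin g) (a : ℕ) (A : MvPolynomial (Fin 3) L), a ≤ b ∧ A ≠ 0 ∧ A.IsHomogeneous a ∧
      MvPolynomial.eval X.pt A = 0 ∧
      21 * (a * (m (e i) * polyHeight κ A)) ≤ height κ X.x ∧
      14 * ((a + 1) * (m (e i) * polyHeight κ A)) ≤ height κ X.x := by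
  have hHr : (0 : ℝ) < (height κ X.x : ℝ) := by exact_mod_cast hH
  have hb1 : 1 ≤ b := by omega
  have hbr : (0 : ℝ) < b := by exact_mod_cast hb1
  by_contra hcon
  obtain ⟨i, U, hU, h1⟩ := hP P hxP (21 * height κ X.x / (20 * b)) (by positivity)
  rcases plane_block2 h (X.blk (e i)) hb (hm (e i)) (hd (e i)) hH (x := x)
    (fun j => by rw [hx j, X.blk_p]) hU with ⟨a, A, g1, g2, g3, g4, g5, g6⟩ | h2
  · exact hcon ⟨i, a, A, g1, g2, g3, g4, g5, g6⟩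
  · have h3 : height κ (X.blk (e i)).x = height κ X.x := rfl
    rw [h3] at h2
    rw [hxH] at h1
    have hmM' : (m (e i) : ℝ) ≤ M := by exact_mod_cast hmM (e i)
    have hy : 20 * (ht κ P : ℝ) ≤ (height κ X.x : ℝ) := by
      rw [← hxH]
      exact_mod_cast hPH
    have hl : 9 * ((k : ℝ) - 1) * ((finrank L P : ℝ) - 1) ≤ 20 * (((2 + r₀ : ℕ) : ℝ) + c) := by
      exact_mod_cast hPd
    refine numP13 (H := height κ X.x) (y := ht κ P) (E := E) (k := k) (l := finrank L P)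
      (r := 2 + r₀) (c := c) (g := g) (b := b) (M := M) (p₁ := p₁)
      (z := (d (e i) : ℝ) * height κ X.x - ht κ U - 21 * height κ X.x / (20 * b) *
        ((finrank L U : ℝ) - 1)) hHr hk hy hl hE hp hb1 hg hN ?_ ?_
    · refine le_trans (le_of_eq ?_) h1
      push_cast
      ring
    · refine h2.trans ?_
      have h4 : (12 * ((b : ℝ) * m (e i)) + 2 * b - 1) * height κ X.x ≤
          (12 * ((b : ℝ) * M) + 2 * b - 1) * height κ X.x := by
        refine mul_le_mul_of_nonneg_right ?_ hHr.le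
        have := mul_le_mul_of_nonneg_left hmM' hbr.le
        linarith
      linarith

end Pool.Agent.Lib.MP_44a246_ntA
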