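import Mathlib
import Pool.Agent.Lib.MP_44a246_ntA.P13
import Pool.Agent.Lib.MP_44a246_ntO.OS9

/-!
# Step A (constant version), P14: the final theorem
-/

namespace Pool.Agent.Lib.MP_44a246_ntA

open Pool.Agent.Lib.MP_44a246_nt
open Pool.Agent.Lib.MP_44a246_ntL
open Pool.Agent.Lib.MP_44a246_ntS
open Pool.Agent.Lib.MP_44a246_ntX
open Pool.Agent.Lib.MP_44a246_ntG
open Pool.Agent.Lib.MP_44a246_ntK
open Pool.Agent.Lib.MP_44a246_ntF
open Pool.Agent.Lib.MP_44a246_ntR (fL xsp)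
open Pool.Agent.Lib.MP_44a246_ntC
open Pool.Agent.Lib.MP_44a246_ntO (PairHyp lemmaP_abs)
open Pool.Agent.Lib.MP_e52354_nt
open WithZero Module

/-- **Step A with an absolute constant**: a plane curve of degree at most `b` and of small height
through the projection of the point, in a block which contains the vector of the monomials. -/
theorem stepA_sharp {κ L : Type*} [Field κ] [IsAlgClosed κ] [CharZero κ] [Field L]
    [CharZero L] [Algebra κ L] (h : IsFF κ L) {n p r₀ b g k c q M p₁ : ℕ} {d m : Fin p → ℕ}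
    (hr₀ : 1 ≤ r₀) (hb : 4 ≤ b) (hg : 1 ≤ g) (hm : ∀ j, 1 ≤ m j) (hmM : ∀ j, m j ≤ M)
    (hd : ∀ j, 14 * (b * m j) ≤ d j) (hd36 : ∀ j, 36 ≤ d j)
    (hk : ∀ A : Finset (Fin p), A.card = g → k + q + r₀ + 4 ≤ ∑ j ∈ A, d j)
    (hkc : c + 11 ≤ k) (hkg : 9 * c + 700 * g ≤ 20 * k)
    (hp : 20 * (2 + r₀ + c) < 9 * (k - 1) * (p₁ + 1))
    (hN : b * (2 + r₀) + 21 * ((p₁ + 1) * (2 + r₀) + c + g) +
      20 * b * (g * (12 * (b * M) + 2 * b)) + 20 * b * (p₁ + 1) ≤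
        20 * b * (k + (2 + r₀)) + 20 * b * g)
    (X : DatC κ (L := L) n d)
    {γ Λ : Type*} [Fintype γ] [Fintype Λ] (hc : Fintype.card γ + Fintype.card Λ ≤ c)
    {β : γ → L} (hβ : ∀ t, ∀ w : Place κ L, w.1 (β t) ≤ 1)
    {η : Λ → L} (hη : ∀ k, η k ≠ 0) {t : Λ → ℕ} {ε : Place κ L → ℕ}
    (hε : (Function.support ε).Finite)
    (hηε : ∀ w : Place κ L, (∀ k, w.1 (η k) = vmax w.1 X.x ^ t k) ∨ 1 ≤ ε w)
    (hQ : g ≤ finrank L ((fU X ⊔ fB X β ⊔ fL X η) ⊓ xsp d X.x : Submodule L (ES (n + 1) d → L)))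
    (hr : finrank L (fU X) ≤ r₀) {E₀ : ℤ} (hE₀ : 0 ≤ E₀)
    (hR : X.R + ∑ᶠ w, (ε w : ℤ) ≤ q * height κ X.x + E₀)
    (hbig : (((3 + r₀) * ((3 + r₀) * (3 + r₀) + c) : ℕ) : ℤ) * (X.Δ + E₀) < height κ X.x) :
    ∃ j, xi (d j) X.pt ∈ piece κ (gall X β η) j ∧
      ∃ (a : ℕ) (A : MvPolynomial (Fin 3) L), a ≤ b ∧ A ≠ 0 ∧ A.IsHomogeneous a ∧
        MvPolynomial.eval X.pt A = 0 ∧
        21 * (a * (m j * polyHeight κ A)) ≤ height κ X.x ∧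
        14 * ((a + 1) * (m j * polyHeight κ A)) ≤ height κ X.x := by
  obtain ⟨e, x, he, hx, hxH, hxi, hP⟩ := stepA_frame h hr₀ hg hk X hc hβ hη hε hηε hQ hr hR
  have hΔ := X.Δ_nonneg
  set N : ℕ := (3 + r₀) * (3 + r₀) + c with hN0
  have hN1 : (1 : ℤ) ≤ N := by
    have : 1 ≤ N := by
      rw [hN0]
      have := Nat.mul_le_mul (show 3 ≤ 3 + r₀ by omega) (show 3 ≤ 3 + r₀ by omega)
      omega
    exact_mod_cast this
  have hE1 : (N : ℤ) * X.Δ + E₀ ≤ N * (X.Δ + E₀) := by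
    have := mul_le_mul_of_nonneg_right hN1 hE₀
    linarith
  have hE0 : 0 ≤ (N : ℤ) * X.Δ + E₀ := add_nonneg (mul_nonneg (by linarith) hΔ) hE₀
  have hbig' : ((3 + r₀ : ℕ) : ℤ) * (N * X.Δ + E₀) < height κ X.x := by
    refine lt_of_le_of_lt ?_ hbig
    have h1 : ((3 + r₀ : ℕ) : ℤ) * (N * X.Δ + E₀) ≤ ((3 + r₀ : ℕ) : ℤ) * (N * (X.Δ + E₀)) :=
      mul_le_mul_of_nonneg_left hE1 (Nat.cast_nonneg _)
    refine h1.trans (le_of_eq ?_)
    push_cast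
    ring
  have h3 : (3 : ℤ) ≤ ((3 + r₀ : ℕ) : ℤ) := by push_cast; linarith [Int.natCast_nonneg r₀]
  have hEH : (N : ℤ) * X.Δ + E₀ < height κ X.x := by
    have := mul_le_mul_of_nonneg_right h3 hE0
    linarith
  have hH : 0 < height κ X.x := lt_of_le_of_lt hE0 hEH
  have hx0 : x ≠ 0 := by
    intro h1
    have h2 := congrFun h1 (Fin.castAdd r₀ 0)
    rw [hx 0] at h2
    exact one_ne_zero h2
  -- Lemma P
  set E : ℝ := (((N : ℤ) * X.Δ + E₀ : ℤ) : ℝ) with hE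
  set H : ℝ := (height κ X.x : ℝ) with hHd
  have hbigr : ((3 + r₀ : ℕ) : ℝ) * E < H := by
    rw [hE, hHd]
    exact_mod_cast hbig'
  have hEr : 0 ≤ E := by rw [hE]; exact_mod_cast hE0
  obtain ⟨P, hxP, hPH, hPd⟩ := lemmaP_abs h (n := 3 + r₀) (by omega) hx0 (fun i => hd36 (e i)) hg
    hEr hP hkc hkg (by rw [hxH]; exact hbigr.le) (by rw [hxH]; exact hH)
  obtain ⟨i, a, A, g1, g2, g3, g4, g5, g6⟩ := curve_of_subspace h hb hg hm hmM hd (by omega) hp hN X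
    hH hx hxH (E := E) (by rw [hE]; exact_mod_cast hEH) hP hxP hPH hPd
  exact ⟨e i, hxi i, a, A, g1, g2, g3, g4, g5, g6⟩

end Pool.Agent.Lib.MP_44a246_ntA
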